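import Pool.Agent.Lib.MP_ff3ed7_lc.Prg.Spec

/-!
The number of oracle circuits.
-/

namespace Pool.Agent.Lib.MP_ff3ed7_lc.Prg

open Finset

namespace CirN

theorem base_le (N : ℕ) (hN : 6 ≤ N) : 2 * N + 2 ≤ 2 ^ (N - 2) := by
  obtain ⟨m, rfl⟩ := Nat.exists_eq_add_of_le hN
  rw [show 6 + m - 2 = m + 4 by omega]
  induction m with
  | zero => norm_num
  | succ m ih =>
    have := ih (by omega)
    rw [show m + 1 + 4 = m + 4 + 1 by omega, pow_succ]
    omega

theorem geom_le (B n : ℕ) (hB : 2 ≤ B) : ∑ l ∈ range (n + 1), B ^ l ≤ 2 * B ^ n := by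
  induction n with
  | zero => simp
  | succ n ih =>
    rw [sum_range_succ, pow_succ]
    have : 2 * B ^ n ≤ B ^ n * B := by
      rw [Nat.mul_comm]
      exact Nat.mul_le_mul_left _ hB
    omega

theorem card_circ (N : ℕ) : Fintype.card (Circ N) =
    ((2 * N + 2) * (2 * N + 2) + ∑ l ∈ range (N + 1), (2 * N + 2) ^ l) ^ N * (2 * N + 2) := by
  rw [← Fin.sum_univ_eq_sum_range (fun l => (2 * N + 2) ^ l)]
  unfold Circ Gate
  rw [Fintype.card_prod, Fintype.card_fun, Fintype.card_sum, Fintype.card_prod,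
    Fintype.card_sigma, Fintype.card_fin, Fintype.card_fin]
  congr 3
  refine sum_congr rfl fun l _ => ?_
  rw [Fintype.card_fun, Fintype.card_fin, Fintype.card_fin]

end CirN

open CirN in
theorem tCirN : S_CirN := by
  intro N hN
  rw [card_circ]
  set B : ℕ := 2 * N + 2 with hBd
  have hB : B ≤ 2 ^ (N - 2) := base_le N hN
  have h2 : 2 ≤ B := by omega
  have h3 : B * B ≤ 2 * B ^ N := by
    have h4 : B ^ 2 ≤ B ^ N := Nat.pow_le_pow_right (by omega) (by omega)
    have h5 : B * B = B ^ 2 := by ring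
    omega
  have h4 : B * B + ∑ l ∈ range (N + 1), B ^ l ≤ 4 * B ^ N := by
    have := geom_le B N h2
    omega
  calc (B * B + ∑ l ∈ range (N + 1), B ^ l) ^ N * B ≤ (4 * B ^ N) ^ N * B :=
        Nat.mul_le_mul_right _ (Nat.pow_le_pow_left h4 _)
    _ = 4 ^ N * B ^ (N * N + 1) := by
        rw [mul_pow, ← pow_mul, pow_succ B (N * N), mul_assoc]
    _ ≤ 4 ^ N * (2 ^ (N - 2)) ^ (N * N + 1) :=
        Nat.mul_le_mul_left _ (Nat.pow_le_pow_left hB _)
    _ = 2 ^ (2 * N + (N - 2) * (N * N + 1)) := by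
        rw [show (4 : ℕ) = 2 ^ 2 by norm_num, ← pow_mul, ← pow_mul, ← pow_add]
    _ ≤ 2 ^ (N ^ 3) := by
        refine Nat.pow_le_pow_right (by norm_num) ?_
        obtain ⟨m, rfl⟩ := Nat.exists_eq_add_of_le hN
        rw [show 6 + m - 2 = m + 4 by omega]
        nlinarith [Nat.zero_le m, Nat.zero_le (m * m), Nat.zero_le (m * m * m)]

end Pool.Agent.Lib.MP_ff3ed7_lc.Prg
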