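import Pool.Agent.Lib.MP_ff3ed7_lc.Prg.Spec

/-!
Oracle circuits are decision trees: proof of `S_CirT`.
-/

set_option autoImplicit false

namespace Pool.Agent.Lib.MP_ff3ed7_lc.Prg

namespace CirT

theorem depthLE_mono {ι σ : Type} (T : DTree ι σ) : ∀ d d' : ℕ, d ≤ d' → T.DepthLE d →
    T.DepthLE d' := by
  induction T with
  | leaf b => intro d d' _ _; trivial
  | node i next ih =>
    intro d d' hdd h
    obtain ⟨h0, h1⟩ := h
    refine ⟨by omega, fun s => ?_⟩
    exact ih s (d - 1) (d' - 1) (by omega) (h1 s)

/-- The new wire values after gate `t` got the value `s`. -/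
def upd {N : ℕ} (t : ℕ) (v : Fin (2 * N + 2) → Bool) (s : Bool) : Fin (2 * N + 2) → Bool :=
  fun w => if (w : ℕ) = N + 2 + t then s else v w

/-- The decision tree with `r` remaining gates, the next gate is `t`, the wires have values `v`. -/
def aux {N : ℕ} (C : Circ N) : ℕ → ℕ → (Fin (2 * N + 2) → Bool) → DTree (List Bool) Bool
  | 0, _, v => .leaf (v C.2)
  | r + 1, t, v =>
      if h : t < N then
        match C.1 ⟨t, h⟩ with
        | .inl p => aux C r (t + 1) (upd t v (!(v p.1 && v p.2)))
        | .inr q => .node (List.ofFn fun i => v (q.2 i)) fun s => aux C r (t + 1) (upd t v s)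
      else .leaf (v C.2)

theorem aux_depth {N : ℕ} (C : Circ N) (r : ℕ) : ∀ t v, (aux C r t v).DepthLE r := by
  induction r with
  | zero => intro t v; trivial
  | succ r ih =>
    intro t v
    unfold aux
    split_ifs with h
    · rcases hC : C.1 ⟨t, h⟩ with p | q
      · exact depthLE_mono _ r (r + 1) (by omega) (ih _ _)
      · exact ⟨by omega, fun s => ih _ _⟩
    · trivial

theorem aux_allQ {N : ℕ} (C : Circ N) (r : ℕ) : ∀ t v,
    (aux C r t v).AllQ fun s => s.length ≤ N := by
  induction r with
  | zero => intro t v; trivial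
  | succ r ih =>
    intro t v
    unfold aux
    split_ifs with h
    · rcases hC : C.1 ⟨t, h⟩ with p | q
      · exact ih _ _
      · refine ⟨?_, fun s => ih _ _⟩
        have := q.1.2
        simp only [List.length_ofFn]
        omega
    · trivial

theorem wires_succ (A : List Bool → Bool) {N : ℕ} (C : Circ N) (ρ : Fin N → Bool) (t : ℕ)
    (h : t < N) : wires A C ρ (t + 1) =
      upd t (wires A C ρ t) (gateVal A (wires A C ρ t) (C.1 ⟨t, h⟩)) := by
  funext w
  simp only [wires, upd, h, dif_pos]

theorem aux_eval (A : List Bool → Bool) {N : ℕ} (C : Circ N) (ρ : Fin N → Bool) (r : ℕ) :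
    ∀ t v, t + r = N → v = wires A C ρ t → (aux C r t v).eval A = evalC A C ρ := by
  induction r with
  | zero =>
    intro t v ht hv
    have ht' : t = N := by omega
    subst ht'
    simp only [aux, DTree.eval, evalC, hv]
  | succ r ih =>
    intro t v ht hv
    have h : t < N := by omega
    have hw := wires_succ A C ρ t h
    unfold aux
    rw [dif_pos h]
    rcases hC : C.1 ⟨t, h⟩ with p | q
    · simp only
      apply ih (t + 1) _ (by omega)
      rw [hw, hC, hv]
      rfl
    · simp only [DTree.eval]
      apply ih (t + 1) _ (by omega)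
      rw [hw, hC, hv]
      rfl

end CirT

theorem tCirT : S_CirT := by
  refine ⟨⟨fun N C ρ => CirT.aux C N 0 (wires (fun _ => false) C ρ 0), ?_, ?_, ?_⟩⟩
  · intro N C ρ
    exact CirT.aux_depth C N 0 _
  · intro N C ρ
    exact CirT.aux_allQ C N 0 _
  · intro N C ρ A
    exact CirT.aux_eval A C ρ N 0 _ (by omega) rfl

end Pool.Agent.Lib.MP_ff3ed7_lc.Prg
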