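import Pool.Agent.Lib.MP_ff3ed7_lc.Prg.Spec

/-!
# MP_ff3ed7_lc, PRG world: the closure lemma
-/

namespace Pool.Agent.Lib.MP_ff3ed7_lc.Prg

open Finset

namespace Clo

section

variable {ι σ : Type} [Fintype ι] [DecidableEq ι] [Fintype σ] [DecidableEq σ]

theorem mem_gr {z : ι → σ} {c : ι × σ} : c ∈ gr z ↔ z c.1 = c.2 := by
  unfold gr
  rw [Finset.mem_filter]
  exact ⟨fun h => h.2, fun h => ⟨Finset.mem_univ _, h⟩⟩

/-- The iterated sum of the weights. -/
noncomputable def Phi (w : Finset (ι × σ) → ι × σ → ℝ) : ℕ → Finset (ι × σ) → (ι → σ) → ℝ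
  | 0, _, _ => 1
  | r + 1, K, z => ∑ c ∈ gr z \ K, w K c * Phi w r (insert c K) z

theorem phi_nonneg {w : Finset (ι × σ) → ι × σ → ℝ} (hw : ∀ K c, 0 ≤ w K c) :
    ∀ (r : ℕ) (K : Finset (ι × σ)) (z : ι → σ), 0 ≤ Phi w r K z
  | 0, K, z => by
    unfold Phi
    exact zero_le_one
  | r + 1, K, z => by
    unfold Phi
    exact Finset.sum_nonneg fun c _ => mul_nonneg (hw _ _) (phi_nonneg hw r _ _)

theorem phi_ge {w : Finset (ι × σ) → ι × σ → ℝ} (hw : ∀ K c, 0 ≤ w K c) {k : ℕ} {z : ι → σ}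
    (hz : ¬ ∃ K : Finset (ι × σ), K ⊆ gr z ∧ K.card ≤ k ∧ ∑ c ∈ gr z \ K, w K c ≤ 1) :
    ∀ (r : ℕ) (K : Finset (ι × σ)), K ⊆ gr z → K.card + r ≤ k + 1 → 1 ≤ Phi w r K z
  | 0, K, _, _ => by
    unfold Phi
    exact le_rfl
  | r + 1, K, hK, hc => by
    unfold Phi
    have h1 : 1 < ∑ c ∈ gr z \ K, w K c := by
      by_contra hcon
      exact hz ⟨K, hK, by omega, not_lt.1 hcon⟩
    refine h1.le.trans (Finset.sum_le_sum fun c hc' => ?_)
    rw [Finset.mem_sdiff] at hc'
    have h2 := phi_ge hw hz r (insert c K) (Finset.insert_subset hc'.1 hK)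
      (by rw [Finset.card_insert_of_notMem hc'.2]; omega)
    calc w K c = w K c * 1 := (mul_one _).symm
      _ ≤ _ := mul_le_mul_of_nonneg_left h2 (hw _ _)

theorem card_step (K : Finset (ι × σ)) (c : ι × σ) (hc : c ∉ K) :
    (univ.filter fun z : ι → σ => insert c K ⊆ gr z).card * Fintype.card σ ≤
      (univ.filter fun z : ι → σ => K ⊆ gr z).card := by
  rw [← Finset.card_univ (α := σ), ← Finset.card_product]
  refine Finset.card_le_card_of_injOn (fun p => Function.update p.1 c.1 p.2) ?_ ?_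
  · rintro ⟨z, b⟩ h
    rw [Finset.mem_coe, Finset.mem_product, Finset.mem_filter] at h
    rw [Finset.mem_coe, Finset.mem_filter]
    refine ⟨Finset.mem_univ _, fun d hd => ?_⟩
    have h1 : z c.1 = c.2 := mem_gr.1 (h.1.2 (Finset.mem_insert_self c K))
    have h2 : z d.1 = d.2 := mem_gr.1 (h.1.2 (Finset.mem_insert_of_mem hd))
    have h3 : d.1 ≠ c.1 := by
      intro h4
      apply hc
      have : d = c := by
        apply Prod.ext h4
        rw [← h1, ← h2, h4]
      rwa [← this]
    rw [mem_gr]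
    change Function.update z c.1 b d.1 = d.2
    rw [Function.update_of_ne h3, h2]
  · rintro ⟨z, b⟩ h ⟨z', b'⟩ h' he
    rw [Finset.mem_coe, Finset.mem_product, Finset.mem_filter] at h h'
    have h1 : z c.1 = c.2 := mem_gr.1 (h.1.2 (Finset.mem_insert_self c K))
    have h2 : z' c.1 = c.2 := mem_gr.1 (h'.1.2 (Finset.mem_insert_self c K))
    have h3 : ∀ i, Function.update z c.1 b i = Function.update z' c.1 b' i := fun i => congrFun he i
    apply Prod.ext
    · funext i
      by_cases hi : i = c.1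
      · change z i = z' i
        rw [hi, h1, h2]
      · have h4 := h3 i
        rwa [Function.update_of_ne hi, Function.update_of_ne hi] at h4
    · have h4 := h3 c.1
      rwa [Function.update_self, Function.update_self] at h4

theorem card_le (K : Finset (ι × σ)) :
    (univ.filter fun z : ι → σ => K ⊆ gr z).card * Fintype.card σ ^ K.card ≤
      Fintype.card (ι → σ) := by
  induction K using Finset.induction_on with
  | empty =>
    rw [Finset.card_empty, pow_zero, mul_one]
    exact Finset.card_le_univ _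
  | insert c K hc ih =>
    rw [Finset.card_insert_of_notMem hc, pow_succ']
    calc _ = (univ.filter fun z : ι → σ => insert c K ⊆ gr z).card * Fintype.card σ *
          Fintype.card σ ^ K.card := by ring
      _ ≤ (univ.filter fun z : ι → σ => K ⊆ gr z).card * Fintype.card σ ^ K.card :=
          Nat.mul_le_mul_right _ (card_step K c hc)
      _ ≤ _ := ih

theorem swap (w : Finset (ι × σ) → ι × σ → ℝ) (r : ℕ) (K : Finset (ι × σ)) :
    ∑ z : ι → σ, (if K ⊆ gr z then Phi w (r + 1) K z else 0) =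
      ∑ c ∈ univ \ K, w K c *
        ∑ z : ι → σ, (if insert c K ⊆ gr z then Phi w r (insert c K) z else 0) := by
  simp_rw [Finset.mul_sum]
  rw [Finset.sum_comm]
  refine Finset.sum_congr rfl fun z _ => ?_
  by_cases hK : K ⊆ gr z
  · rw [if_pos hK]
    have h1 : gr z \ K ⊆ univ \ K := Finset.sdiff_subset_sdiff (Finset.subset_univ _) le_rfl
    rw [Phi, ← Finset.sum_subset h1]
    · refine Finset.sum_congr rfl fun c hc => ?_
      rw [Finset.mem_sdiff] at hc
      rw [if_pos (Finset.insert_subset hc.1 hK)]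
    · intro c hc hc'
      rw [Finset.mem_sdiff] at hc hc'
      rw [if_neg, mul_zero]
      intro h
      exact hc' ⟨h (Finset.mem_insert_self c K), hc.2⟩
  · rw [if_neg hK, Finset.sum_eq_zero]
    intro c _
    rw [if_neg, mul_zero]
    exact fun h => hK ((Finset.subset_insert c K).trans h)

theorem main {w : Finset (ι × σ) → ι × σ → ℝ} {t : ℝ} (hw : ∀ K c, 0 ≤ w K c)
    (ht : ∀ K, ∑ c, w K c ≤ t) (ht0 : 0 ≤ t) : ∀ (r : ℕ) (K : Finset (ι × σ)),
    (∑ z : ι → σ, (if K ⊆ gr z then Phi w r K z else 0)) * (Fintype.card σ : ℝ) ^ (K.card + r) ≤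
      t ^ r * (Fintype.card (ι → σ) : ℝ)
  | 0, K => by
    have h1 := card_le (ι := ι) (σ := σ) K
    have h2 : (∑ z : ι → σ, (if K ⊆ gr z then Phi w 0 K z else 0)) =
        ((univ.filter fun z : ι → σ => K ⊆ gr z).card : ℝ) := by
      simp only [Phi]
      rw [Finset.sum_boole]
    rw [h2, pow_zero, one_mul, add_zero]
    exact_mod_cast h1
  | r + 1, K => by
    rw [swap, Finset.sum_mul]
    have h1 : ∀ c ∈ univ \ K, w K c *
        (∑ z : ι → σ, (if insert c K ⊆ gr z then Phi w r (insert c K) z else 0)) *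
          (Fintype.card σ : ℝ) ^ (K.card + (r + 1)) ≤
        w K c * (t ^ r * (Fintype.card (ι → σ) : ℝ)) := by
      intro c hc
      rw [Finset.mem_sdiff] at hc
      have h2 := main hw ht ht0 r (insert c K)
      rw [Finset.card_insert_of_notMem hc.2] at h2
      have e : K.card + (r + 1) = K.card + 1 + r := by ring
      rw [e, mul_assoc]
      exact mul_le_mul_of_nonneg_left h2 (hw _ _)
    refine (Finset.sum_le_sum h1).trans ?_
    rw [← Finset.sum_mul]
    have h3 : ∑ c ∈ univ \ K, w K c ≤ t :=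
      (Finset.sum_le_sum_of_subset_of_nonneg (Finset.subset_univ _) fun c _ _ => hw _ _).trans (ht K)
    have h4 : 0 ≤ t ^ r * (Fintype.card (ι → σ) : ℝ) := by positivity
    calc _ ≤ t * (t ^ r * (Fintype.card (ι → σ) : ℝ)) := mul_le_mul_of_nonneg_right h3 h4
      _ = _ := by ring

end

end Clo

open Clo in
/-- The closure lemma. -/
theorem tClo : S_Clo := by
  classical
  intro ι σ _ _ _ _ _ w t k hw ht
  have ht0 : 0 ≤ t := (Finset.sum_nonneg fun c _ => hw ∅ c).trans (ht ∅)
  have hσ : (0 : ℝ) < Fintype.card σ := by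
    exact_mod_cast Fintype.card_pos
  have hz : (0 : ℝ) < (Fintype.card (ι → σ) : ℝ) := by
    exact_mod_cast Fintype.card_pos
  rw [frac_eq_sum, div_le_iff₀ hz, div_pow, div_mul_eq_mul_div, le_div_iff₀ (pow_pos hσ _)]
  have h1 := main hw ht ht0 (k + 1) (∅ : Finset (ι × σ))
  rw [Finset.card_empty, zero_add] at h1
  refine le_trans (mul_le_mul_of_nonneg_right (Finset.sum_le_sum fun z _ => ?_)
    (pow_nonneg hσ.le _)) h1
  rw [if_pos (Finset.empty_subset _)]
  by_cases hb : ∃ K : Finset (ι × σ), K ⊆ gr z ∧ K.card ≤ k ∧ ∑ c ∈ gr z \ K, w K c ≤ 1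
  · rw [if_neg (not_not.2 hb)]
    exact phi_nonneg hw _ _ _
  · rw [if_pos hb]
    exact phi_ge hw hb (k + 1) ∅ (Finset.empty_subset _) (by simp)

end Pool.Agent.Lib.MP_ff3ed7_lc.Prg
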