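import Pool.Agent.Lib.MP_ff3ed7_lc.Prg.Spec

/-!
Transcripts exist; weights are bounded.
-/

set_option autoImplicit false

namespace Pool.Agent.Lib.MP_ff3ed7_lc.Prg

open Finset

namespace Fol

/-- Put an entry in front of a transcript. -/
private def consTr {b : ℕ} (a : Option (Fin b → Bool)) (τ : Tr b) : Tr b
  | 0 => a
  | i + 1 => τ i

private theorem tail_cons {b : ℕ} (a : Option (Fin b → Bool)) (τ : Tr b) :
    (consTr a τ).tail = τ := rfl

private theorem cons_none {b d : ℕ} (a : Option (Fin b → Bool)) (τ : Tr b) (hd : 0 < d)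
    (h : ∀ i ≥ d - 1, τ i = none) : ∀ i ≥ d, consTr a τ i = none := by
  intro i hi
  rcases i with _ | i
  · exact absurd hd (not_lt.2 hi)
  · exact h i (by omega)

private theorem exists_cut {b p : ℕ} (hp : p ≤ b) (y : Fin p → Bool) :
    ∃ y' : Fin b → Bool, cut y' p = y := by
  refine ⟨fun j => if h : (j : ℕ) < p then y ⟨j, h⟩ else false, ?_⟩
  funext j
  unfold cut
  rw [dif_pos (lt_of_lt_of_le j.2 hp)]
  exact dif_pos j.2

private theorem wt_none {b p r : ℕ} (A : List Bool → Bool)
    (T : (Fin p → Bool) → (Fin r → Bool) → DTree (List Bool) Bool) (no yes : MTree) (τ : Tr b)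
    (u : List Bool) (h : τ 0 = none) :
    wt A (.node p r T no yes) τ u = qf A (T (best A T)) u + wt A no τ.tail u := by
  rw [wt, h]

private theorem wt_some {b p r : ℕ} (A : List Bool → Bool)
    (T : (Fin p → Bool) → (Fin r → Bool) → DTree (List Bool) Bool) (no yes : MTree) (τ : Tr b)
    (u : List Bool) (y : Fin b → Bool) (h : τ 0 = some y) :
    wt A (.node p r T no yes) τ u = qf A (T (cut y p)) u + wt A yes τ.tail u := by
  rw [wt, h]

end Fol

open Fol

theorem tFol : S_Fol := by
  intro b d A t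
  induction t generalizing d with
  | leaf o => exact fun _ => ⟨fun _ => none, fun _ _ => rfl, trivial⟩
  | node p r T no yes ihn ihy =>
    rintro ⟨hd, hp, -, -, hno, hyes⟩
    by_cases hc : ∀ y, prob r (fun ρ => (T y ρ).eval A = true) < 1 / 2
    · obtain ⟨τ, h1, h2⟩ := ihn (d - 1) hno
      exact ⟨consTr none τ, cons_none _ _ hd h1, Or.inl ⟨rfl, hc, h2⟩⟩
    · push Not at hc
      obtain ⟨y, hy⟩ := hc
      obtain ⟨y', rfl⟩ := exists_cut hp y
      obtain ⟨τ, h1, h2⟩ := ihy (d - 1) hyes
      exact ⟨consTr (some y') τ, cons_none _ _ hd h1, Or.inr ⟨y', rfl, hy, h2⟩⟩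

theorem tWtB : S_WtB := by
  intro b d A t
  induction t generalizing d with
  | leaf o =>
    intro τ _
    refine ⟨fun u => le_of_eq rfl, fun D => ?_⟩
    have h : ∑ u ∈ D, wt A (.leaf o) τ u = 0 := Finset.sum_eq_zero fun u _ => rfl
    rw [h]
    positivity
  | node p r T no yes ihn ihy =>
    rintro τ ⟨hd, -, -, hT, hno, hyes⟩
    have hd1 : ((d - 1 : ℕ) : ℝ) = (d : ℝ) - 1 := by
      rw [Nat.cast_sub hd, Nat.cast_one]
    rcases h0 : τ 0 with _ | y
    · obtain ⟨h1, h2⟩ := ihn (d - 1) τ.tail hno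
      refine ⟨fun u => ?_, fun D => ?_⟩
      · rw [wt_none A T no yes τ u h0]
        exact add_nonneg (qf_nonneg _ _ _) (h1 u)
      · rw [Finset.sum_congr rfl fun u _ => wt_none A T no yes τ u h0, Finset.sum_add_distrib]
        have h3 := sum_qf_le A (T (best A T)) b (fun ρ => (hT _ ρ).1) D
        have h4 := h2 D
        rw [hd1] at h4
        linarith
    · obtain ⟨h1, h2⟩ := ihy (d - 1) τ.tail hyes
      refine ⟨fun u => ?_, fun D => ?_⟩
      · rw [wt_some A T no yes τ u y h0]
        exact add_nonneg (qf_nonneg _ _ _) (h1 u)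
      · rw [Finset.sum_congr rfl fun u _ => wt_some A T no yes τ u y h0, Finset.sum_add_distrib]
        have h3 := sum_qf_le A (T (cut y p)) b (fun ρ => (hT _ ρ).1) D
        have h4 := h2 D
        rw [hd1] at h4
        linarith

end Pool.Agent.Lib.MP_ff3ed7_lc.Prg
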