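import Pool.Agent.Lib.MP_ff3ed7_lc.Prg.Spec

/-!
# PRG world (MP_ff3ed7_lc): the Hoeffding inequality in counting form
-/

namespace Pool.Agent.Lib.MP_ff3ed7_lc.Prg

open Finset

namespace Hoe

variable {Ω : Type} [Fintype Ω]

/-- The moment generating function of a centred function with values in `[-1, 1]`. -/
theorem mgf (Y : Ω → ℝ) (hY : ∀ ω, |Y ω| ≤ 1) (h0 : ∑ ω, Y ω = 0) (θ : ℝ) (hθ : |θ| ≤ 1) :
    ∑ ω, Real.exp (θ * Y ω) ≤ (Fintype.card Ω : ℝ) * Real.exp (θ ^ 2) := by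
  have h1 : ∀ ω, Real.exp (θ * Y ω) ≤ 1 + θ * Y ω + θ ^ 2 := by
    intro ω
    have h2 : |θ * Y ω| ≤ 1 := by
      rw [abs_mul]
      exact mul_le_one₀ hθ (abs_nonneg _) (hY ω)
    have h3 := (abs_le.1 (Real.abs_exp_sub_one_sub_id_le h2)).2
    have h4 : (θ * Y ω) ^ 2 ≤ θ ^ 2 := by
      rw [mul_pow]
      have h5 : Y ω ^ 2 ≤ 1 := by
        rw [← sq_abs]
        exact pow_le_one₀ (abs_nonneg _) (hY ω)
      nlinarith [sq_nonneg θ]
    linarith
  have h2 : ∑ ω, Real.exp (θ * Y ω) ≤ ∑ ω, (1 + θ * Y ω + θ ^ 2) :=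
    sum_le_sum fun ω _ => h1 ω
  have h3 : ∑ ω, (1 + θ * Y ω + θ ^ 2) = (Fintype.card Ω : ℝ) * (θ ^ 2 + 1) := by
    rw [sum_add_distrib, sum_add_distrib, ← mul_sum, h0]
    simp only [sum_const, card_univ, nsmul_eq_mul, mul_zero, mul_one]
    ring
  rw [h3] at h2
  exact h2.trans (mul_le_mul_of_nonneg_left (Real.add_one_le_exp _) (by positivity))

/-- One side. -/
theorem side [Nonempty Ω] (Y : Ω → ℝ) (hY : ∀ ω, |Y ω| ≤ 1) (h0 : ∑ ω, Y ω = 0) (K : ℕ) (l : ℝ)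
    (hl : 0 ≤ l) (hl1 : l ≤ 1) :
    frac (fun ω : Fin K → Ω => l * K < ∑ i, Y (ω i)) ≤ Real.exp (-(l ^ 2 * K / 4)) := by
  classical
  have hcard : (0 : ℝ) < (Fintype.card Ω : ℝ) := by exact_mod_cast Fintype.card_pos
  rw [frac_eq_sum, Fintype.card_fun, Fintype.card_fin, div_le_iff₀ (by positivity)]
  have h1 : ∀ ω : Fin K → Ω, (if l * K < ∑ i, Y (ω i) then (1 : ℝ) else 0) ≤
      Real.exp (-(l / 2 * (l * K))) * ∏ i, Real.exp (l / 2 * Y (ω i)) := by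
    intro ω
    rw [← Real.exp_sum, ← mul_sum, ← Real.exp_add]
    split_ifs with h
    · rw [Real.one_le_exp_iff]
      nlinarith
    · positivity
  refine (sum_le_sum fun ω _ => h1 ω).trans ?_
  rw [← mul_sum, ← Fintype.sum_pow (fun ω => Real.exp (l / 2 * Y ω)) K]
  have hθ : |l / 2| ≤ 1 := by
    rw [abs_of_nonneg (by linarith)]
    linarith
  have h2 := mgf Y hY h0 (l / 2) hθ
  have h3 : (∑ ω, Real.exp (l / 2 * Y ω)) ^ K ≤
      ((Fintype.card Ω : ℝ) * Real.exp ((l / 2) ^ 2)) ^ K :=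
    pow_le_pow_left₀ (sum_nonneg fun ω _ => (Real.exp_pos _).le) h2 K
  refine (mul_le_mul_of_nonneg_left h3 (Real.exp_pos _).le).trans (le_of_eq ?_)
  rw [mul_pow, ← Real.exp_nat_mul, mul_left_comm, ← Real.exp_add]
  push_cast
  rw [mul_comm]
  congr 1
  congr 1
  ring

end Hoe

open Hoe in
theorem tHoe : S_Hoe := by
  intro Ω _ _ E K l hK hl hl1
  classical
  set p := frac E with hp
  have hcard : (0 : ℝ) < (Fintype.card Ω : ℝ) := by exact_mod_cast Fintype.card_pos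
  have hK0 : (0 : ℝ) < K := by exact_mod_cast hK
  obtain ⟨Y, hYd⟩ : ∃ Y : Ω → ℝ, ∀ ω, Y ω = (if E ω then (1 : ℝ) else 0) - p :=
    ⟨_, fun ω => rfl⟩
  have hp0 : 0 ≤ p := frac_nonneg E
  have hp1 : p ≤ 1 := frac_le_one E
  have hY : ∀ ω, |Y ω| ≤ 1 := by
    intro ω
    rw [hYd, abs_le]
    split_ifs <;> constructor <;> linarith
  have h0 : ∑ ω, Y ω = 0 := by
    have h1 : p * (Fintype.card Ω : ℝ) = ∑ ω, (if E ω then (1 : ℝ) else 0) := by
      rw [hp, frac_eq_sum, div_mul_cancel₀ _ hcard.ne']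
    simp only [hYd]
    rw [sum_sub_distrib, ← h1, sum_const, card_univ, nsmul_eq_mul]
    ring
  have hmean : ∀ ω : Fin K → Ω, frac (fun i : Fin K => E (ω i)) - p = (∑ i, Y (ω i)) / K := by
    intro ω
    rw [frac_eq_sum, Fintype.card_fin]
    simp only [hYd]
    rw [sum_sub_distrib, sum_const, card_univ, Fintype.card_fin, nsmul_eq_mul]
    field_simp
  have h1 : ∀ ω : Fin K → Ω, l < |frac (fun i : Fin K => E (ω i)) - p| →
      (l * K < ∑ i, Y (ω i)) ∨ (l * K < ∑ i, -Y (ω i)) := by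
    intro ω h
    rw [hmean, abs_div, abs_of_pos hK0, lt_div_iff₀ hK0] at h
    rw [sum_neg_distrib]
    rcases lt_abs.1 h with h2 | h2
    · exact Or.inl h2
    · exact Or.inr h2
  refine (frac_mono h1).trans ((frac_or_le _ _).trans ?_)
  have h2 := side Y hY h0 K l hl hl1
  have h3 := side (fun ω => -Y ω) (fun ω => by rw [abs_neg]; exact hY ω)
    (by rw [sum_neg_distrib, h0, neg_zero]) K l hl hl1
  linarith

end Pool.Agent.Lib.MP_ff3ed7_lc.Prg
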