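import Pool.Agent.Lib.MP_ff3ed7_lc.Prg.Spec

/-!
The limit of the stages (`S_Lim`).
-/

set_option autoImplicit false

namespace Pool.Agent.Lib.MP_ff3ed7_lc.Prg

open Finset

namespace Lim

/-- The content of all cells before the first stage. -/
def C0 : Bool → ℕ → List Bool → List Bool → List Bool → Bool :=
  fun s k x _ y => decide (s = true ∧ y = List.replicate (mm k x.length) false)

theorem repl_inj (k k' : ℕ) (l l' : List Bool)
    (h : List.replicate k false ++ true :: l = List.replicate k' false ++ true :: l') :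
    k = k' ∧ l = l' := by
  induction k generalizing k' with
  | zero =>
    cases k' with
    | zero => simpa using h
    | succ k' => simp [List.replicate_succ] at h
  | succ k ih =>
    cases k' with
    | zero => simp [List.replicate_succ] at h
    | succ k' =>
      simp only [List.replicate_succ, List.cons_append, List.cons.injEq, true_and] at h
      obtain ⟨h1, h2⟩ := ih k' h
      exact ⟨by rw [h1], h2⟩

theorem cell_inj {s s' : Bool} {k k' : ℕ} {x x' v v' y y' : List Bool}
    (hv : v.length = mm k x.length) (hv' : v'.length = mm k' x'.length)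
    (h : cell s k x v y = cell s' k' x' v' y') :
    s = s' ∧ k = k' ∧ x = x' ∧ v = v' ∧ y = y' := by
  unfold cell at h
  simp only [List.cons.injEq, true_and] at h
  obtain ⟨h1, h2⟩ := h
  obtain ⟨h3, h4⟩ := repl_inj _ _ _ _ h2
  obtain ⟨h5, h6⟩ := repl_inj _ _ _ _ h4
  obtain ⟨h7, h8⟩ := List.append_inj h6 h5
  obtain ⟨h9, h10⟩ := List.append_inj h8 (by rw [hv, hv', h3, h5])
  exact ⟨h1, h3, h7, h9, h10⟩

theorem build_cell (R : ℕ → ℕ → ℕ → Bool)
    (C : Bool → ℕ → List Bool → List Bool → List Bool → Bool) (s : Bool) (k : ℕ)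
    (x v y : List Bool) (hv : v.length = mm k x.length) (hy : y.length = mm k x.length) :
    build R C (cell s k x v y) = C s k x v y := by
  unfold build
  rw [dif_neg, dif_pos ⟨(s, k, x, v, y), hv, hy, rfl⟩]
  · have hex : ∃ q : Bool × ℕ × List Bool × List Bool × List Bool,
        q.2.2.2.1.length = mm q.2.1 q.2.2.1.length ∧ q.2.2.2.2.length = mm q.2.1 q.2.2.1.length ∧
        cell q.1 q.2.1 q.2.2.1 q.2.2.2.1 q.2.2.2.2 = cell s k x v y :=
      ⟨(s, k, x, v, y), hv, hy, rfl⟩
    obtain ⟨h1, _, h3⟩ := hex.choose_spec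
    obtain ⟨e1, e2, e3, e4, e5⟩ := cell_inj h1 hv h3
    rw [e1, e2, e3, e4, e5]
  · rintro ⟨p, hp⟩
    unfold samp cell at hp
    simp at hp

theorem acc_iff (R : ℕ → ℕ → ℕ → Bool) (s : Bool) (k : ℕ) (x : List Bool)
    (v y : Fin (mm k x.length) → Bool) :
    Acc (build R C0) s k x v y ↔ s = true ∧ y = fun _ => false := by
  unfold Acc
  rw [build_cell R C0 s k x _ _ (List.length_ofFn ..) (List.length_ofFn ..)]
  unfold C0
  rw [decide_eq_true_iff]
  refine and_congr_right fun _ => ?_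
  rw [← List.ofFn_const]
  exact ⟨fun h => List.ofFn_injective h, fun h => by rw [h]⟩

theorem inst0 (s : ℕ → ℕ) (R : ℕ → ℕ → ℕ → Bool) (k : ℕ) (x : List Bool) :
    Inst s (build R C0) k x true := by
  have h0 : Nat.card {v // ∃ y, Acc (build R C0) (!true) k x v y} = 0 := by
    have : IsEmpty {v // ∃ y, Acc (build R C0) (!true) k x v y} := by
      constructor
      rintro ⟨v, y, hy⟩
      rw [acc_iff] at hy
      exact absurd hy.1 (by decide)
    exact Nat.card_of_isEmpty
  refine ⟨fun v => ⟨fun _ => false, (acc_iff _ _ _ _ _ _).2 ⟨rfl, rfl⟩, fun y hy =>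
    ((acc_iff _ _ _ _ _ _).1 hy).2⟩, ?_, ?_⟩
  · rw [h0]
    exact Nat.zero_le _
  · rw [h0]
    exact Nat.zero_le _

/-- The data of a stage. -/
structure St (s : ℕ → ℕ) where
  /-- samples -/
  R : ℕ → ℕ → ℕ → Bool
  /-- cells -/
  C : Bool → ℕ → List Bool → List Bool → List Bool → Bool
  /-- bound -/
  M : ℕ
  hM : 6 ≤ M
  hF : ∀ N, 6 ≤ N → N < M → FoolsAt (build R C) N
  hI : ∀ k x, x.length < M → ∃ b, Inst s (build R C) k x b

theorem exists_step (hSta : S_Sta) (s : ℕ → ℕ) (hs : ∀ c, ∃ n₀, ∀ n ≥ n₀, n ^ c ≤ s n)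
    (X : St s) (k : ℕ) (W : Machine) : ∃ Y : St s, X.M < Y.M ∧ Agree X.M X.R X.C Y.R Y.C ∧
      ∀ R'' C'', Agree Y.M Y.R Y.C R'' C'' → Refuted s W k (build R'' C'') := by
  obtain ⟨M', R', C', h1, h2, h3, h4, h5⟩ := hSta s hs X.R X.C X.M X.hM X.hF X.hI k W
  exact ⟨⟨R', C', M', X.hM.trans h1.le, h3, h4⟩, h1, h2, h5⟩

/-- The stages. -/
noncomputable def stage (hSta : S_Sta) (s : ℕ → ℕ) (hs : ∀ c, ∃ n₀, ∀ n ≥ n₀, n ^ c ≤ s n)
    (W : ℕ → Machine) : ℕ → St s
  | 0 => ⟨fun _ _ _ => false, C0, 6, le_refl 6, fun _ h6 h => absurd h (not_lt.mpr h6),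
      fun k x _ => ⟨true, inst0 s _ k x⟩⟩
  | n + 1 => (exists_step hSta s hs (stage hSta s hs W n) (Nat.unpair n).2
      (W (Nat.unpair n).1)).choose

variable {s : ℕ → ℕ} (X : ℕ → St s)

theorem le_M (h : ∀ n, (X n).M < (X (n + 1)).M) (n : ℕ) : n + 6 ≤ (X n).M := by
  induction n with
  | zero => exact (X 0).hM
  | succ n ih => have := h n; omega

theorem M_mono (h : ∀ n, (X n).M < (X (n + 1)).M) {n m : ℕ} (hnm : n ≤ m) :
    (X n).M ≤ (X m).M := monotone_nat_of_le_succ (f := fun n => (X n).M) (fun n => (h n).le) hnm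

theorem agree_le (h : ∀ n, (X n).M < (X (n + 1)).M)
    (ha : ∀ n, Agree (X n).M (X n).R (X n).C (X (n + 1)).R (X (n + 1)).C) (n m : ℕ)
    (hnm : n ≤ m) : Agree (X n).M (X n).R (X n).C (X m).R (X m).C := by
  induction m, hnm using Nat.le_induction with
  | base => exact ⟨fun _ _ => rfl, fun _ _ _ _ => rfl⟩
  | succ m hm ih =>
    have hM := M_mono X h hm
    refine ⟨fun N hN => ?_, fun s k x hx => ?_⟩
    · rw [ih.1 N hN]
      exact (ha m).1 N (lt_of_lt_of_le hN hM)
    · rw [ih.2 s k x hx]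
      exact (ha m).2 s k x (lt_of_lt_of_le hx hM)

theorem agree_lim (h : ∀ n, (X n).M < (X (n + 1)).M)
    (ha : ∀ n, Agree (X n).M (X n).R (X n).C (X (n + 1)).R (X (n + 1)).C) (n : ℕ) :
    Agree (X n).M (X n).R (X n).C (fun N => (X (N + 1)).R N)
      (fun s k x => (X (x.length + 1)).C s k x) := by
  refine ⟨fun N hN => ?_, fun s k x hx => ?_⟩
  · have h1 := (agree_le X h ha n (max n (N + 1)) (le_max_left _ _)).1 N hN
    have h2 := (agree_le X h ha (N + 1) (max n (N + 1)) (le_max_right _ _)).1 N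
      (by have := le_M X h (N + 1); omega)
    rw [h1, ← h2]
  · have h1 := (agree_le X h ha n (max n (x.length + 1)) (le_max_left _ _)).2 s k x hx
    have h2 := (agree_le X h ha (x.length + 1) (max n (x.length + 1)) (le_max_right _ _)).2 s k x
      (by have := le_M X h (x.length + 1); omega)
    rw [h1, ← h2]

end Lim

open Lim in
theorem tLim (hSta : S_Sta) (hLoP : S_LoP) : S_Lim := by
  intro s hs W
  have hstep : ∀ n, _ := fun n => (exists_step hSta s hs (stage hSta s hs W n) (Nat.unpair n).2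
      (W (Nat.unpair n).1)).choose_spec
  have hM : ∀ n, (stage hSta s hs W n).M < (stage hSta s hs W (n + 1)).M := fun n => (hstep n).1
  have hA := agree_lim (stage hSta s hs W) hM fun n => (hstep n).2.1
  refine ⟨build (fun N => (stage hSta s hs W (N + 1)).R N)
    (fun s' k x => (stage hSta s hs W (x.length + 1)).C s' k x), ?_, ?_, ?_⟩
  · intro N hN
    have h6 : N < (stage hSta s hs W N).M := by
      have := le_M _ hM N
      omega
    exact (hLoP _ _ _ _ _ (hA N)).1 N h6 ((stage hSta s hs W N).hF N hN h6)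
  · intro k x
    have h6 : x.length < (stage hSta s hs W x.length).M := by
      have := le_M _ hM x.length
      omega
    obtain ⟨b, hb⟩ := (stage hSta s hs W x.length).hI k x h6
    exact ⟨b, (hLoP _ _ _ _ _ (hA x.length)).2.1 s k x b h6 hb⟩
  · intro i k
    have h := (hstep (Nat.pair i k)).2.2 _ _ (hA (Nat.pair i k + 1))
    rw [Nat.unpair_pair] at h
    exact h

end Pool.Agent.Lib.MP_ff3ed7_lc.Prg
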