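import Pool.Agent.Lib.MP_ff3ed7_lc.Prg.Spec

/-!
Random samples are good (`S_Loc`).
-/

namespace Pool.Agent.Lib.MP_ff3ed7_lc.Prg

/-- The output of a circuit of size `N` depends only on the strings of length at most `N`. -/
theorem Loc.eval_local (ct : CT) {N : ℕ} (A A' : List Bool → Bool)
    (h : ∀ u : List Bool, u.length ≤ N → A u = A' u) (C : Circ N) (ρ : Fin N → Bool) :
    evalC A C ρ = evalC A' C ρ := by
  rw [← ct.eval, ← ct.eval]
  exact (eval_congr A A' _ fun u hu => h u (path_allQ A _ _ (ct.allQ N C ρ) u hu)).symm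

theorem tLoc (hTri : S_Tri) (hCirT : S_CirT) (hCirN : S_CirN) (hOrcL : S_OrcL) : S_Loc := by
  intro X B a ha haM
  obtain ⟨ct⟩ := hCirT
  obtain ⟨hl1, hl2⟩ := hOrcL X B
  have key := hTri X.M' a Circ (fun ω N C ρ => evalC (X.orc ω B) C ρ = true) ha hCirN
    (fun ω ω' N C ρ hω => by
      have := Loc.eval_local ct (X.orc ω B) (X.orc ω' B)
        (fun u hu => hl1 ω ω' N (fun N' hN' => hω N' hN') u hu) C ρ
      rw [this])
  refine le_trans (frac_mono ?_) key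
  rintro ω ⟨N, haN, hNM, C, hC⟩
  refine ⟨⟨N, hNM⟩, haN, C, ?_⟩
  rw [abs_sub_comm]
  have h2 : ∀ i : Fin (16 * N ^ 6), gen (X.orc ω B) N i = ω ⟨N, hNM⟩ i := fun i =>
    hl2 ω ⟨N, hNM⟩ (haM.trans haN) i
  simp only [h2] at hC
  exact hC

end Pool.Agent.Lib.MP_ff3ed7_lc.Prg
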