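import Pool.Agent.Lib.MP_ff3ed7_lc.Prg.Spec

/-! # Numbers -/

set_option autoImplicit false

namespace Pool.Agent.Lib.MP_ff3ed7_lc.Prg

namespace Num

theorem exp_le (n : ℕ) : Real.exp (-(n : ℝ)) ≤ (1 / 2) ^ n := by
  have h1 : Real.exp (-(n : ℝ)) = Real.exp (-1) ^ n := by
    rw [← Real.exp_nat_mul]
    congr 1
    ring
  rw [h1]
  refine pow_le_pow_left₀ (Real.exp_pos _).le ?_ n
  rw [Real.exp_neg, one_div]
  refine inv_anti₀ (by norm_num) ?_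
  have := Real.add_one_le_exp (1 : ℝ)
  linarith

theorem geo (a M : ℕ) (h : a ≤ M) :
    ∑ N ∈ Finset.Ico a M, ((1 : ℝ) / 2) ^ (N + 3) = (1 / 2) ^ (a + 2) - (1 / 2) ^ (M + 2) := by
  induction M, h using Nat.le_induction with
  | base => simp
  | succ m hm ih =>
    rw [Finset.sum_Ico_succ_top hm, ih]
    ring

theorem term_le (a N : ℕ) (ha : 6 ≤ a) (hN : a ≤ N) :
    (2 : ℝ) ^ (N ^ 3) * (2 * Real.exp (-(N : ℝ) ^ 4)) ≤ (1 / 2) ^ (a ^ 3) * (1 / 2) ^ (N + 3) := by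
  have h1 : Real.exp (-(N : ℝ) ^ 4) ≤ (1 / 2) ^ (N ^ 4) := by
    have := exp_le (N ^ 4)
    push_cast at this
    exact this
  have h2 : N ^ 3 + 1 + (N ^ 3 + (N + 3)) ≤ N ^ 4 := by
    have h6 : 6 ≤ N := ha.trans hN
    have h3 : 6 * N ^ 3 ≤ N ^ 4 := by
      rw [show N ^ 4 = N * N ^ 3 by ring]
      exact Nat.mul_le_mul_right _ h6
    have h4 : N ≤ N ^ 3 := Nat.le_self_pow (by norm_num) N
    omega
  have h3 : a ^ 3 ≤ N ^ 3 := Nat.pow_le_pow_left hN 3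
  calc (2 : ℝ) ^ (N ^ 3) * (2 * Real.exp (-(N : ℝ) ^ 4))
      ≤ (2 : ℝ) ^ (N ^ 3) * (2 * (1 / 2) ^ (N ^ 4)) := by gcongr
    _ ≤ (2 : ℝ) ^ (N ^ 3) * (2 * (1 / 2) ^ (N ^ 3 + 1 + (N ^ 3 + (N + 3)))) := by
        gcongr _ * (2 * ?_)
        exact pow_le_pow_of_le_one (by norm_num) (by norm_num) h2
    _ = (1 / 2) ^ (N ^ 3) * (1 / 2) ^ (N + 3) := by
        have e : ((2 : ℝ) ^ (N ^ 3)) * (1 / 2) ^ (N ^ 3) = 1 := by
          rw [← mul_pow]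
          norm_num
        rw [pow_add _ (N ^ 3 + 1), pow_add _ (N ^ 3) 1, pow_add _ (N ^ 3) (N + 3)]
        calc (2 : ℝ) ^ (N ^ 3) * (2 * ((1 / 2) ^ (N ^ 3) * (1 / 2) ^ 1 * ((1 / 2) ^ (N ^ 3) * (1 / 2) ^ (N + 3))))
            = ((2 : ℝ) ^ (N ^ 3) * (1 / 2) ^ (N ^ 3)) * ((1 / 2) ^ (N ^ 3) * (1 / 2) ^ (N + 3)) := by ring
          _ = _ := by rw [e, one_mul]
    _ ≤ (1 / 2) ^ (a ^ 3) * (1 / 2) ^ (N + 3) := by
        gcongr ?_ * _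
        exact pow_le_pow_of_le_one (by norm_num) (by norm_num) h3

end Num

open Num

theorem tNum : S_Num := by
  intro a M ha
  rcases le_or_gt a M with h | h
  · calc ∑ N ∈ Finset.Ico a M, (2 : ℝ) ^ (N ^ 3) * (2 * Real.exp (-(N : ℝ) ^ 4))
        ≤ ∑ N ∈ Finset.Ico a M, (1 / 2) ^ (a ^ 3) * (1 / 2) ^ (N + 3) :=
          Finset.sum_le_sum fun N hN => term_le a N ha (Finset.mem_Ico.1 hN).1
      _ = (1 / 2) ^ (a ^ 3) * ((1 / 2) ^ (a + 2) - (1 / 2) ^ (M + 2)) := by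
          rw [← Finset.mul_sum, geo a M h]
      _ ≤ (1 / 2) ^ (a ^ 3) * (1 / 8) := by
          have e1 : ((1 : ℝ) / 2) ^ (a + 2) ≤ (1 / 2) ^ 3 :=
            pow_le_pow_of_le_one (by norm_num) (by norm_num) (by omega)
          have e2 : (0 : ℝ) < (1 / 2) ^ (M + 2) := by positivity
          have e3 : ((1 : ℝ) / 2) ^ 3 = 1 / 8 := by norm_num
          gcongr _ * ?_
          linarith
      _ = (1 / 2) ^ (a ^ 3) / 8 := by ring
  · rw [Finset.Ico_eq_empty (by omega), Finset.sum_empty]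
    positivity

end Pool.Agent.Lib.MP_ff3ed7_lc.Prg
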