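import Pool.Agent.Lib.MP_ff3ed7_lc.Prg.Spec

/-!
First selection.
-/

set_option autoImplicit false

namespace Pool.Agent.Lib.MP_ff3ed7_lc.Prg

open Finset

namespace One

theorem bad_mono {A : List Bool → Bool} {N : ℕ} {l l' : ℝ} (h : l' ≤ l) (hb : Ctx.Bad A N l) :
    Ctx.Bad A N l' := by
  obtain ⟨C, hC⟩ := hb
  exact ⟨C, lt_of_le_of_lt h hC⟩

theorem card_index (B m n k0 e : ℕ) (hB : B ≤ 2 ^ n) (he : B + (2 * m + n + 1) * k0 ≤ e) :
    2 ^ B * (B * 2 ^ m * 2 ^ m + 1) ^ k0 ≤ 2 ^ e := by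
  have h1 : B * 2 ^ m * 2 ^ m + 1 ≤ 2 ^ (2 * m + n + 1) := by
    have h2 : B * 2 ^ m * 2 ^ m ≤ 2 ^ n * 2 ^ m * 2 ^ m :=
      Nat.mul_le_mul_right _ (Nat.mul_le_mul_right _ hB)
    have h3 : 2 ^ n * 2 ^ m * 2 ^ m = 2 ^ (2 * m + n) := by
      rw [← pow_add, ← pow_add]
      congr 1
      omega
    have h4 : 1 ≤ 2 ^ (2 * m + n) := Nat.one_le_two_pow
    rw [pow_succ]
    omega
  calc 2 ^ B * (B * 2 ^ m * 2 ^ m + 1) ^ k0 ≤ 2 ^ B * (2 ^ (2 * m + n + 1)) ^ k0 :=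
        Nat.mul_le_mul_left _ (Nat.pow_le_pow_left h1 _)
    _ = 2 ^ (B + (2 * m + n + 1) * k0) := by rw [← pow_mul, ← pow_add]
    _ ≤ 2 ^ e := Nat.pow_le_pow_right (by norm_num) he

end One

theorem tOne (hLoc : S_Loc) (hSma : S_Sma) : S_One := by
  classical
  intro X N1 k0 F h6 hB hN1
  have hM := X.hM
  let E0 : X.Sam → Prop := fun ω => ∃ N, X.M ≤ N ∧ N < X.M' ∧
    Ctx.Bad (X.orc ω (X.full F)) N (1 / (2 * N))
  let E : (X.Blk → Bool) × {K : Finset (X.Row × X.Val) // K.card ≤ k0} → X.Sam → Prop :=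
    fun i ω => ∃ N, max X.M N1 ≤ N ∧ N < X.M' ∧
      Ctx.Bad (X.orc ω (X.pat i.1 (X.fixp i.1 F) i.2.1)) N (1 / (2 * N))
  have h1 : frac (fun ω : X.Sam => ¬ X.Good1 N1 k0 ω F) ≤
      frac (fun ω : X.Sam => E0 ω ∨ ∃ i, E i ω) := by
    refine frac_mono fun ω hω => ?_
    by_contra hno
    rw [not_or] at hno
    obtain ⟨h2, h3⟩ := hno
    apply hω
    refine ⟨fun N hN hN' hb => h2 ⟨N, hN, hN', hb⟩, fun f K hK N hN hN1' hN' hb => h3
      ⟨(f, ⟨K, hK⟩), N, max_le hN hN1', hN', One.bad_mono ?_ hb⟩⟩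
    have hpos : (0 : ℝ) < N := by
      have : 0 < N := by omega
      exact_mod_cast this
    apply one_div_le_one_div_of_le hpos
    linarith
  have h2 : frac E0 ≤ 1 / 8 := by
    refine (hLoc X (X.full F) X.M hM le_rfl).trans ?_
    have : ((1 : ℝ) / 2) ^ (X.M ^ 3) ≤ 1 := pow_le_one₀ (by norm_num) (by norm_num)
    linarith
  have h3 : ∀ i, frac (E i) ≤ (1 / 2) ^ (N1 ^ 3) / 8 := by
    intro i
    refine (hLoc X (X.pat i.1 (X.fixp i.1 F) i.2.1) (max X.M N1) (hM.trans (le_max_left _ _))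
      (le_max_left _ _)).trans ?_
    apply div_le_div_of_nonneg_right _ (by norm_num)
    apply pow_le_pow_of_le_one (by norm_num) (by norm_num)
    exact Nat.pow_le_pow_left (le_max_right _ _) 3
  have hcard : Fintype.card ((X.Blk → Bool) × {K : Finset (X.Row × X.Val) // K.card ≤ k0}) ≤
      2 ^ (N1 ^ 3) := by
    rw [Fintype.card_prod, Fintype.card_fun, Fintype.card_bool, Fintype.card_fin,
      Fintype.card_subtype]
    have h4 := hSma (X.Row × X.Val) k0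
    have h5 : Fintype.card (X.Row × X.Val) =
        (X.n ^ X.k + X.k + 1) * 2 ^ mm X.k X.n * 2 ^ mm X.k X.n := by
      rw [Fintype.card_prod, Fintype.card_prod, Fintype.card_fun, Fintype.card_bool,
        Fintype.card_fin, Fintype.card_fin]
    rw [h5] at h4
    exact (Nat.mul_le_mul_left _ h4).trans (One.card_index _ _ X.n k0 _ hB hN1)
  have h4 : frac (fun ω : X.Sam => ∃ i, E i ω) ≤ 1 / 8 := by
    refine (frac_exists_le E).trans ((Finset.sum_le_sum fun i _ => h3 i).trans ?_)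
    rw [Finset.sum_const, Finset.card_univ, nsmul_eq_mul]
    have h5 : ((Fintype.card ((X.Blk → Bool) × {K : Finset (X.Row × X.Val) // K.card ≤ k0}) : ℕ) :
        ℝ) ≤ 2 ^ (N1 ^ 3) := by exact_mod_cast hcard
    calc _ ≤ (2 : ℝ) ^ (N1 ^ 3) * ((1 / 2) ^ (N1 ^ 3) / 8) :=
          mul_le_mul_of_nonneg_right h5 (by positivity)
      _ = 1 / 8 := by
          rw [← mul_div_assoc, ← mul_pow]
          norm_num
  have h5 := frac_or_le E0 (fun ω : X.Sam => ∃ i, E i ω)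
  linarith

end Pool.Agent.Lib.MP_ff3ed7_lc.Prg
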