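import Pool.Agent.Lib.MP_ff3ed7_lc.Prg.Spec

/-!
Two contents with different reduced sides give oracles which differ only at the strings of the
additional cells; values on strings of length at most `N` depend only on the samples of sizes less
than `N`.
-/

namespace Pool.Agent.Lib.MP_ff3ed7_lc.Prg

namespace OrcD

/-- A list of length `p` is recovered from its entries. -/
theorem ofFn_getD {p : ℕ} (v : List Bool) (h : v.length = p) :
    List.ofFn (fun i : Fin p => v.getD i false) = v := by
  subst h
  apply List.ext_getElem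
  · simp
  · intro i h1 h2
    simp [List.getD_eq_getElem?_getD]

theorem length_ofFn (X : Ctx) (j : X.Blk) (w : X.Val) :
    (List.ofFn w).length = mm X.k (X.xs j).length := by
  rw [List.length_ofFn, X.len]

theorem str_inj (hBld : S_Bld) (X : Ctx) (f : X.Blk → Bool) : Function.Injective (X.str f) := by
  intro c c' h
  unfold Ctx.str at h
  obtain ⟨-, -, hx, hv, hy⟩ := hBld.2.2.2.2 _ _ _ _ _ _ _ _ _ _ (length_ofFn X _ _)
    (length_ofFn X _ _) (length_ofFn X _ _) (length_ofFn X _ _) h
  have h1 : c.1.1 = c'.1.1 := X.inj hx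
  have h2 : c.1.2 = c'.1.2 := List.ofFn_injective hv
  have h3 : c.2 = c'.2 := List.ofFn_injective hy
  exact Prod.ext (Prod.ext h1 h2) h3

theorem mem_of_ne (hBld : S_Bld) (X : Ctx) (ω : X.Sam) (f : X.Blk → Bool)
    (fix : X.Row → X.Val) (S S' : Finset (X.Row × X.Val)) (hS : S ⊆ S') (u : List Bool)
    (hu : X.orc ω (X.pat f fix S') u ≠ X.orc ω (X.pat f fix S) u) :
    u ∈ (S' \ S).image (X.str f) := by
  rcases hBld.2.2.2.1 _ _ _ _ _ hu with ⟨N, i, b, -, h⟩ | ⟨s, k, x, v, y, hv, hy, hc, h⟩
  · exact absurd rfl h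
  unfold Ctx.newC at h
  by_cases h1 : x.length < X.M
  · rw [if_pos h1, if_pos h1] at h
    exact absurd rfl h
  rw [if_neg h1, if_neg h1] at h
  by_cases h2 : k = X.k ∧ ∃ j, X.xs j = x
  · rw [dif_pos h2, dif_pos h2] at h
    obtain ⟨rfl, j, rfl⟩ := h2
    have h3 : (⟨j, rfl⟩ : ∃ j', X.xs j' = X.xs j).choose = j :=
      X.inj (⟨j, rfl⟩ : ∃ j', X.xs j' = X.xs j).choose_spec
    rw [h3] at h
    rw [X.len] at hv hy
    unfold Ctx.pat at h
    by_cases hs : s = f j
    · rw [if_pos hs, if_pos hs] at h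
      exact absurd rfl h
    rw [if_neg hs, if_neg hs] at h
    have hs' : s = !f j := by
      cases s <;> cases hf : f j <;> simp_all
    rw [Finset.mem_image]
    refine ⟨((j, fun i => v.getD i false), fun i => y.getD i false), ?_, ?_⟩
    · rw [Finset.mem_sdiff]
      by_cases m1 : (((j, fun i => v.getD i false), fun i => y.getD i false) :
          X.Row × X.Val) ∈ S
      · have m2 := hS m1
        rw [decide_eq_true m1, decide_eq_true m2] at h
        exact absurd rfl h
      · refine ⟨?_, m1⟩
        by_contra m2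
        rw [decide_eq_false m1, decide_eq_false m2] at h
        exact h rfl
    · unfold Ctx.str
      rw [← hc, hs', ofFn_getD v hv, ofFn_getD y hy]
  · rw [dif_neg h2, dif_neg h2] at h
    exact absurd rfl h

theorem length_samp (N i b : ℕ) : (samp N i b).length = N + i + b + 3 := by
  unfold samp
  simp only [List.length_cons, List.length_append, List.length_replicate]
  omega

end OrcD

open OrcD

theorem tOrcD (hBld : S_Bld) : S_OrcD := by
  intro X ω f fix S S' hS
  refine ⟨str_inj hBld X f, ?_⟩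
  intro u hu
  by_contra hne
  exact hu (mem_of_ne hBld X ω f fix S S' hS u hne)

theorem tOrcL (hBld : S_Bld) : S_OrcL := by
  intro X B
  refine ⟨?_, ?_⟩
  · intro ω ω' N hω u hu
    by_contra hne
    rcases hBld.2.2.2.1 _ _ _ _ _ hne with ⟨N', i, b, hs, h⟩ | ⟨s, k, x, v, y, -, -, -, h⟩
    · apply h
      have hlen : N' + i + b + 3 ≤ N := by
        rw [← length_samp, hs]
        exact hu
      unfold Ctx.newR
      by_cases h1 : N' < X.M
      · rw [if_pos h1, if_pos h1]
      rw [if_neg h1, if_neg h1]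
      by_cases h2 : N' < X.M' ∧ i < 16 * N' ^ 6 ∧ b < N'
      · rw [dif_pos h2, dif_pos h2]
        have h3 : ω ⟨N', h2.1⟩ = ω' ⟨N', h2.1⟩ := hω ⟨N', h2.1⟩ (by show N' < N; omega)
        rw [h3]
      · rw [dif_neg h2, dif_neg h2]
    · exact absurd rfl h
  · intro ω N hN i
    funext b
    unfold gen Ctx.orc
    rw [hBld.1]
    unfold Ctx.newR
    rw [if_neg (by omega), dif_pos ⟨N.2, i.2, b.2⟩]

end Pool.Agent.Lib.MP_ff3ed7_lc.Prg
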