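import Pool.Agent.Lib.MP_ff3ed7_lc.Prg.Spec

/-!
The instances of the oracle of one stage satisfy the promise.
-/

namespace Pool.Agent.Lib.MP_ff3ed7_lc.Prg

namespace OrcI

/-- Acceptance is read off the new contents of the cells. -/
theorem acc_iff (hBld : S_Bld) (X : Ctx) (ω : X.Sam)
    (B : Bool → X.Blk → X.Val → X.Val → Bool) (s : Bool) (k : ℕ) (x : List Bool)
    (v y : Fin (mm k x.length) → Bool) :
    Acc (X.orc ω B) s k x v y ↔ X.newC B s k x (List.ofFn v) (List.ofFn y) = true := by
  unfold Acc Ctx.orc
  rw [hBld.2.1 _ _ _ _ _ _ _ (by simp) (by simp)]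

theorem acc_build (hBld : S_Bld) (R : ℕ → ℕ → ℕ → Bool)
    (C : Bool → ℕ → List Bool → List Bool → List Bool → Bool) (s : Bool) (k : ℕ) (x : List Bool)
    (v y : Fin (mm k x.length) → Bool) :
    Acc (build R C) s k x v y ↔ C s k x (List.ofFn v) (List.ofFn y) = true := by
  unfold Acc
  rw [hBld.2.1 _ _ _ _ _ _ _ (by simp) (by simp)]

/-- The promise depends only on the accepted replies. -/
theorem inst_congr {s : ℕ → ℕ} {A A' : List Bool → Bool} {k : ℕ} {x : List Bool} {b : Bool}
    (h : ∀ t v y, Acc A t k x v y ↔ Acc A' t k x v y) (hi : Inst s A k x b) :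
    Inst s A' k x b := by
  unfold Inst at *
  simp only [← h]
  exact hi

theorem ofFn_getD {p q : ℕ} (h : p = q) (v : Fin q → Bool) (i : Fin p) :
    (List.ofFn v).getD i false = v (Fin.cast h i) := by
  subst h
  simp [List.getD_eq_getElem?_getD]

/-- The string of the right length. -/
def cv {p q : ℕ} (v : Fin q → Bool) : Fin p → Bool := fun i => (List.ofFn v).getD i false

theorem cv_inj {p q : ℕ} (h : p = q) : Function.Injective (cv : (Fin q → Bool) → Fin p → Bool) := by
  intro v v' hv
  subst h
  funext i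
  have := congrFun hv i
  unfold cv at this
  rw [ofFn_getD rfl, ofFn_getD rfl] at this
  exact this

theorem cv_surj {p q : ℕ} (h : p = q) :
    Function.Surjective (cv : (Fin q → Bool) → Fin p → Bool) := by
  intro w
  subst h
  refine ⟨w, ?_⟩
  funext i
  unfold cv
  rw [ofFn_getD rfl]
  rfl

end OrcI

open OrcI

theorem tOrcI (hBld : S_Bld) : S_OrcI := by
  intro s X ω f fix S k0 hS hk0 hk3 hist
  have key : ∀ j, Inst s (X.orc ω (X.pat f fix S)) X.k (X.xs j) (f j) := by
    intro j
    have hlen : (X.xs j).length = X.n := X.len j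
    have hm : mm X.k X.n = mm X.k (X.xs j).length := by rw [hlen]
    have hacc : ∀ (t : Bool) (v y : Fin (mm X.k (X.xs j).length) → Bool),
        Acc (X.orc ω (X.pat f fix S)) t X.k (X.xs j) v y ↔
          X.pat f fix S t j (cv v) (cv y) = true := by
      intro t v y
      rw [acc_iff hBld]
      unfold Ctx.newC
      have h1 : ¬ (X.xs j).length < X.M := by
        have := X.hn
        omega
      have h2 : X.k = X.k ∧ ∃ j', X.xs j' = X.xs j := ⟨rfl, j, rfl⟩
      rw [if_neg h1, dif_pos h2]
      have h3 : h2.2.choose = j := X.inj h2.2.choose_spec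
      rw [h3]
      rfl
    refine ⟨?_, ?_⟩
    · intro v
      obtain ⟨y, hy⟩ := cv_surj hm (fix (j, cv v))
      refine ⟨y, ?_, ?_⟩
      · show Acc (X.orc ω (X.pat f fix S)) (f j) X.k (X.xs j) v y
        rw [hacc]
        unfold Ctx.pat
        rw [if_pos rfl, hy]
        simp
      · intro y' hy'
        replace hy' : Acc (X.orc ω (X.pat f fix S)) (f j) X.k (X.xs j) v y' := hy'
        rw [hacc] at hy'
        unfold Ctx.pat at hy'
        rw [if_pos rfl] at hy'
        have := of_decide_eq_true hy'
        exact cv_inj hm (by rw [← this, hy])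
    · have hcard : Nat.card {v : Fin (mm X.k (X.xs j).length) → Bool //
          ∃ y, Acc (X.orc ω (X.pat f fix S)) (!(f j)) X.k (X.xs j) v y} ≤ k0 := by
        have hmem : ∀ v : {v : Fin (mm X.k (X.xs j).length) → Bool //
            ∃ y, Acc (X.orc ω (X.pat f fix S)) (!(f j)) X.k (X.xs j) v y},
            ∃ y : Fin (mm X.k (X.xs j).length) → Bool,
              (((j, cv v.1), cv y) : X.Row × X.Val) ∈ S := by
          rintro ⟨v, y, hy⟩
          refine ⟨y, ?_⟩
          rw [hacc] at hy
          unfold Ctx.pat at hy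
          rw [if_neg (by cases f j <;> simp)] at hy
          exact of_decide_eq_true hy
        choose g hg using hmem
        have hinj : Function.Injective fun v : {v : Fin (mm X.k (X.xs j).length) → Bool //
            ∃ y, Acc (X.orc ω (X.pat f fix S)) (!(f j)) X.k (X.xs j) v y} =>
            (⟨_, hg v⟩ : {c // c ∈ S}) := by
          intro v v' h
          have h1 := congrArg (fun c : {c // c ∈ S} => c.1.1.2) h
          exact Subtype.ext (cv_inj hm h1)
        calc _ ≤ Nat.card {c // c ∈ S} := Nat.card_le_card_of_injective _ hinj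
          _ = S.card := by simp
          _ ≤ k0 := hS
      refine ⟨hcard.trans ?_, ?_⟩
      · rw [hlen]; exact hk0
      · calc _ ≤ 3 * k0 := Nat.mul_le_mul_left 3 hcard
          _ ≤ 2 ^ X.m := hk3
          _ = _ := by rw [← hm]
  refine ⟨?_, key⟩
  intro k x
  by_cases hx : x.length < X.M
  · obtain ⟨b, hb⟩ := hist k x hx
    refine ⟨b, inst_congr ?_ hb⟩
    intro t v y
    rw [acc_build hBld, acc_iff hBld]
    unfold Ctx.newC
    rw [if_pos hx]
  · by_cases h : k = X.k ∧ ∃ j, X.xs j = x
    · obtain ⟨rfl, j, rfl⟩ := h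
      exact ⟨f j, key j⟩
    · have hacc : ∀ (t : Bool) (v y : Fin (mm k x.length) → Bool),
          Acc (X.orc ω (X.pat f fix S)) t k x v y ↔ (t = true ∧ y = fun _ => false) := by
        intro t v y
        rw [acc_iff hBld]
        unfold Ctx.newC
        rw [if_neg hx, dif_neg h]
        rw [decide_eq_true_iff, ← List.ofFn_const, List.ofFn_inj]
      refine ⟨true, ?_, ?_⟩
      · intro v
        refine ⟨fun _ => false, (hacc _ _ _).2 ⟨rfl, rfl⟩, ?_⟩
        intro y hy
        exact ((hacc _ _ _).1 hy).2
      · have h0 : Nat.card {v : Fin (mm k x.length) → Bool //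
            ∃ y, Acc (X.orc ω (X.pat f fix S)) (!true) k x v y} = 0 := by
          have : IsEmpty {v : Fin (mm k x.length) → Bool //
              ∃ y, Acc (X.orc ω (X.pat f fix S)) (!true) k x v y} := by
            refine ⟨?_⟩
            rintro ⟨v, y, hy⟩
            have := ((hacc _ _ _).1 hy).1
            simp at this
          exact Nat.card_of_isEmpty
        rw [h0]
        exact ⟨Nat.zero_le _, by simp⟩

end Pool.Agent.Lib.MP_ff3ed7_lc.Prg
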