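import Pool.Agent.Lib.MP_ff3ed7_lc.Prg.Spec

/-!
The outcome of a machine is locked: proof of `S_Out`.
-/

set_option autoImplicit false

namespace Pool.Agent.Lib.MP_ff3ed7_lc.Prg

open Finset

namespace Out

theorem wt_nonneg {b : ℕ} (A : List Bool → Bool) (t : MTree) : ∀ (τ : Tr b) (u : List Bool),
    0 ≤ wt A t τ u := by
  induction t with
  | leaf o => intro τ u; exact le_refl _
  | node p r T no yes ih1 ih2 =>
    intro τ u
    unfold wt
    split
    · exact add_nonneg (qf_nonneg _ _ _) (ih1 _ _)
    · exact add_nonneg (qf_nonneg _ _ _) (ih2 _ _)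

theorem wt_none {b : ℕ} (A : List Bool → Bool) (p r : ℕ)
    (T : (Fin p → Bool) → (Fin r → Bool) → DTree (List Bool) Bool) (no yes : MTree) (τ : Tr b)
    (h : τ 0 = none) (u : List Bool) :
    wt A (.node p r T no yes) τ u = qf A (T (best A T)) u + wt A no τ.tail u := by
  simp only [wt, h]

theorem wt_some {b : ℕ} (A : List Bool → Bool) (p r : ℕ)
    (T : (Fin p → Bool) → (Fin r → Bool) → DTree (List Bool) Bool) (no yes : MTree) (τ : Tr b)
    (y : Fin b → Bool) (h : τ 0 = some y) (u : List Bool) :
    wt A (.node p r T no yes) τ u = qf A (T (cut y p)) u + wt A yes τ.tail u := by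
  simp only [wt, h]

theorem main (b : ℕ) (F A : List Bool → Bool) (D : Finset (List Bool))
    (hAF : ∀ u, u ∉ D → A u = F u) (t : MTree) : ∀ (τ : Tr b) (o : Bool), Follows F t τ →
    12 * ∑ u ∈ D, wt A t τ u ≤ 1 → t.Decides A o → o = out t τ := by
  induction t with
  | leaf o' =>
    intro τ o _ _ hd
    simp only [MTree.Decides] at hd
    simp only [out]
    exact hd.symm
  | node p r T no yes ihn ihy =>
    intro τ o hf hw hd
    rcases hf with ⟨h0, hp, hf⟩ | ⟨y, h0, hp, hf⟩
    · simp only [wt_none A p r T no yes τ h0, sum_add_distrib] at hw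
      have hq : 0 ≤ ∑ u ∈ D, qf A (T (best A T)) u := sum_nonneg fun u _ => qf_nonneg _ _ _
      have hn : 0 ≤ ∑ u ∈ D, wt A no τ.tail u := sum_nonneg fun u _ => wt_nonneg _ _ _ _
      have hout : out (.node p r T no yes) τ = out no τ.tail := by
        simp only [out, h0, if_true]
      rw [hout]
      rcases hd with ⟨⟨y, hy⟩, _⟩ | ⟨_, hd⟩
      · exfalso
        have h1 := (exists_best A T).choose_spec y
        have h2 := abs_frac_sub_le A F (T (best A T)) D hAF
        rw [← prob_eq_frac, ← prob_eq_frac] at h2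
        have h3 := hp (best A T)
        have h4 := (abs_le.mp h2).1
        have h5 : prob r (fun ρ => (T y ρ).eval A = true) ≤
            prob r (fun ρ => (T (best A T) ρ).eval A = true) := h1
        linarith
      · exact ihn τ.tail o hf (by linarith) hd
    · simp only [wt_some A p r T no yes τ y h0, sum_add_distrib] at hw
      have hq : 0 ≤ ∑ u ∈ D, qf A (T (cut y p)) u := sum_nonneg fun u _ => qf_nonneg _ _ _
      have hn : 0 ≤ ∑ u ∈ D, wt A yes τ.tail u := sum_nonneg fun u _ => wt_nonneg _ _ _ _
      have hout : out (.node p r T no yes) τ = out yes τ.tail := by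
        simp [out, h0]
      rw [hout]
      rcases hd with ⟨_, hd⟩ | ⟨hno, _⟩
      · exact ihy τ.tail o hf (by linarith) hd
      · exfalso
        have h2 := abs_frac_sub_le A F (T (cut y p)) D hAF
        rw [← prob_eq_frac, ← prob_eq_frac] at h2
        have h3 := hno (cut y p)
        have h4 := (abs_le.mp h2).2
        linarith

end Out

theorem tOut : S_Out := by
  intro b d F A t τ D o _ hf hAF hw hd
  exact Out.main b F A D hAF t τ o hf hw hd

end Pool.Agent.Lib.MP_ff3ed7_lc.Prg
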