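import Pool.Agent.Lib.MP_ff3ed7_lc.Prg.Spec

/-!
MP_ff3ed7_lc, PRG world: the parameters (`S_Par`).
-/

namespace Pool.Agent.Lib.MP_ff3ed7_lc.Prg

open Finset

namespace Par

theorem ev (e : ℕ) : ∀ᶠ n : ℕ in Filter.atTop, 48 * n ^ e ≤ 2 ^ n := by
  have h := tendsto_pow_const_div_const_pow_of_one_lt e (r := (2 : ℝ)) (by norm_num)
  have h2 := h.eventually (gt_mem_nhds (show (0 : ℝ) < 1 / 48 by norm_num))
  filter_upwards [h2] with n hn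
  have h3 : (0 : ℝ) < 2 ^ n := by positivity
  rw [div_lt_iff₀ h3] at hn
  have h4 : (48 * n ^ e : ℝ) ≤ 2 ^ n := by linarith
  exact_mod_cast h4

theorem pow_le {n k E : ℕ} (hn : 2 ≤ n) (hk : k + 1 ≤ n) (hE : k + 2 ≤ E) :
    n ^ k + k + 1 ≤ n ^ E := by
  have h1 : n ^ k ≤ n ^ (k + 1) := Nat.pow_le_pow_right (by omega) (by omega)
  have h2 : n ≤ n ^ (k + 1) := Nat.le_self_pow (by omega) n
  have h3 : n ^ (k + 1) * 2 ≤ n ^ (k + 1) * n := Nat.mul_le_mul_left _ hn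
  have h4 : n ^ (k + 2) ≤ n ^ E := Nat.pow_le_pow_right (by omega) hE
  have h5 : n ^ (k + 2) = n ^ (k + 1) * n := pow_succ n (k + 1)
  omega

theorem kk_le {k c n B : ℕ} (h1 : n ^ k + k + 1 ≤ B) (h2 : n ^ c + c + 1 ≤ B) (hB : 2 ≤ B) :
    kk k c n ≤ 4 * 2 ^ (n ^ k + k) * B ^ 3 := by
  unfold kk
  have hT : 1 ≤ 2 ^ (n ^ k + k) := Nat.one_le_two_pow
  have h3 : 2 ^ (n ^ k + k + 1) * (n ^ k + k + 1) * ((n ^ c + c + 1) * (n ^ c + c)) ≤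
      2 ^ (n ^ k + k + 1) * B * (B * B) :=
    Nat.mul_le_mul (Nat.mul_le_mul_left _ h1) (Nat.mul_le_mul h2 (by omega))
  have h4 : 2 ^ (n ^ k + k + 1) * B * (B * B) = 2 * 2 ^ (n ^ k + k) * B ^ 3 := by ring
  have h5 : B ≤ B ^ 3 := Nat.le_self_pow (by omega) B
  have h6 : B + B ≤ 2 * 2 ^ (n ^ k + k) * B ^ 3 := by
    calc B + B ≤ 2 * 1 * B ^ 3 := by omega
      _ ≤ 2 * 2 ^ (n ^ k + k) * B ^ 3 := by gcongr
  have h7 : 4 * 2 ^ (n ^ k + k) * B ^ 3 =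
      2 * 2 ^ (n ^ k + k) * B ^ 3 + 2 * 2 ^ (n ^ k + k) * B ^ 3 := by ring
  omega

end Par

open Par in
/-- The parameters. -/
theorem tPar : S_Par := by
  intro s hs k c M
  obtain ⟨E, hE⟩ : ∃ E, E = k + c + 3 := ⟨_, rfl⟩
  obtain ⟨n₀, hn₀⟩ := hs (3 * E + 2)
  obtain ⟨n, h48, hn⟩ : ∃ n : ℕ, 48 * n ^ (4 * E) ≤ 2 ^ n ∧ M + n₀ + k + c + 13 ≤ n :=
    ((ev (4 * E)).and (Filter.eventually_ge_atTop _)).exists
  obtain ⟨B, hB⟩ : ∃ B, B = n ^ E := ⟨_, rfl⟩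
  have hB4 : 48 * B ^ 4 ≤ 2 ^ n := by
    rw [hB, ← pow_mul, mul_comm E 4]
    exact h48
  have ha : n ^ k + k + 1 ≤ B := by
    rw [hB]
    exact pow_le (by omega) (by omega) (by omega)
  have hg : n ^ c + c + 1 ≤ B := by
    rw [hB]
    exact pow_le (by omega) (by omega) (by omega)
  have hnB : n * n ≤ B := by
    rw [hB, ← pow_two]
    exact Nat.pow_le_pow_right (by omega) (by omega)
  have hnn : 13 * n ≤ n * n := Nat.mul_le_mul_right _ (by omega)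
  have hB2 : 2 ≤ B := by omega
  obtain ⟨P, hP⟩ : ∃ P, P = n ^ k + k := ⟨_, rfl⟩
  have hkk := kk_le ha hg hB2
  rw [← hP] at hkk
  have hmm : mm k n = P + n := by
    unfold mm
    rw [hP]
  have hT : 1 ≤ 2 ^ P := Nat.one_le_two_pow
  have hB34 : B ^ 3 ≤ B ^ 4 := Nat.pow_le_pow_right (by omega) (by omega)
  have hB14 : B ≤ B ^ 4 := Nat.le_self_pow (by omega) B
  have hpow : 2 ^ (P + n) = 2 ^ P * 2 ^ n := pow_add 2 P n
  have hpow1 : 2 * 2 ^ (P + n - 1) = 2 ^ (P + n) := by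
    rw [← pow_succ']
    congr 1
    omega
  refine ⟨n, 2 ^ ((P + n + 2) / 3), by omega, ?_, by omega, ?_, ?_, ?_, ?_, ?_⟩
  · calc 6 ≤ 2 ^ 3 := by norm_num
      _ ≤ 2 ^ ((P + n + 2) / 3) := Nat.pow_le_pow_right (by norm_num) (by omega)
  · rw [← pow_mul]
    have h1 : 2 ^ (P + n) ≤ 2 ^ ((P + n + 2) / 3 * 3) :=
      Nat.pow_le_pow_right (by norm_num) (by omega)
    refine le_trans ?_ h1
    rw [hmm, ← hP]
    have h2 : 2 * (P + n) + n + 1 ≤ 4 * B := by omega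
    have h3 : (2 * (P + n) + n + 1) * kk k c n ≤ 4 * B * (4 * 2 ^ P * B ^ 3) :=
      Nat.mul_le_mul h2 hkk
    have h4 : 4 * B * (4 * 2 ^ P * B ^ 3) = 2 ^ P * (16 * B ^ 4) := by ring
    have h5 : P + 1 ≤ 2 ^ P * B ^ 4 := by
      calc P + 1 ≤ 1 * B ^ 4 := by omega
        _ ≤ 2 ^ P * B ^ 4 := by gcongr
    have h6 : 2 ^ P * (16 * B ^ 4) + 2 ^ P * B ^ 4 = 2 ^ P * (17 * B ^ 4) := by ring
    have h7 : 2 ^ P * (17 * B ^ 4) ≤ 2 ^ P * 2 ^ n := Nat.mul_le_mul_left _ (by omega)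
    omega
  · rw [← pow_mul, hmm]
    calc 4 * 2 ^ ((P + n + 2) / 3 * 2) = 2 ^ ((P + n + 2) / 3 * 2 + 2) := by ring
      _ ≤ 2 ^ (P + n - 1) := Nat.pow_le_pow_right (by norm_num) (by omega)
  · rw [hmm, ← hP]
    have h1 : (n ^ c + c) * (n ^ c + c) * ((P + 1) * 2 ^ (P + 1)) ≤ B * B * (B * 2 ^ (P + 1)) :=
      Nat.mul_le_mul (Nat.mul_le_mul (by omega) (by omega)) (Nat.mul_le_mul_right _ (by omega))
    have h2 : B * B * (B * 2 ^ (P + 1)) = 2 ^ P * (2 * B ^ 3) := by ring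
    have h3 : 2 ^ P * (48 * B ^ 3) ≤ 2 ^ P * 2 ^ n := Nat.mul_le_mul_left _ (by omega)
    have h4 : 2 ^ P * (48 * B ^ 3) = 24 * (2 ^ P * (2 * B ^ 3)) := by ring
    omega
  · rw [← hP]
    have h1 : 4 * B ^ 3 ≤ s n := by
      refine le_trans ?_ (hn₀ n (by omega))
      rw [pow_add, hB, ← pow_mul, mul_comm E 3, mul_comm]
      apply Nat.mul_le_mul_left
      rw [pow_two]
      omega
    have h2 : 4 * 2 ^ P * B ^ 3 = 2 ^ P * (4 * B ^ 3) := by ring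
    exact hkk.trans (h2.le.trans (Nat.mul_le_mul_left _ h1))
  · rw [hmm]
    have h1 : 2 ^ P * (12 * B ^ 3) ≤ 2 ^ P * 2 ^ n := Nat.mul_le_mul_left _ (by omega)
    have h2 : 3 * (4 * 2 ^ P * B ^ 3) = 2 ^ P * (12 * B ^ 3) := by ring
    omega

end Pool.Agent.Lib.MP_ff3ed7_lc.Prg
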