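import Pool.Agent.Lib.MP_ff3ed7_lc.Prg.Spec

/-!
# MP_ff3ed7_lc, Prg: advice strings, small sets, history
-/

set_option autoImplicit false

namespace Pool.Agent.Lib.MP_ff3ed7_lc.Prg

namespace Sma

theorem sum_two (n : ℕ) : ∑ i ∈ Finset.range n, 2 ^ i < 2 ^ n := by
  induction n with
  | zero => simp
  | succ n ih =>
    rw [Finset.sum_range_succ, pow_succ]
    omega

end Sma

/-- Advice strings. -/
theorem tAdv : S_Adv := by
  intro a
  constructor
  · intro l
    unfold advs
    simp only [Finset.mem_biUnion, Finset.mem_range, Finset.mem_image, Finset.mem_univ, true_and]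
    constructor
    · rintro ⟨k, hk, v, rfl⟩
      rw [List.length_ofFn]
      omega
    · intro h
      exact ⟨l.length, by omega, l.get, List.ofFn_get l⟩
  · unfold advs
    refine lt_of_le_of_lt Finset.card_biUnion_le (lt_of_le_of_lt (Finset.sum_le_sum ?_)
      (Sma.sum_two (a + 1)))
    intro l _
    refine Finset.card_image_le.trans ?_
    rw [Finset.card_univ, Fintype.card_fun, Fintype.card_bool, Fintype.card_fin]

/-- Small sets. -/
theorem tSma : S_Sma := by
  intro α _ _ k
  have h1 : ((Finset.univ : Finset (Finset α)).filter fun K => K.card ≤ k) ⊆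
      (Finset.univ : Finset (Fin k → Option α)).image
        fun f => Finset.univ.filter fun a => ∃ i, f i = some a := by
    intro K hK
    rw [Finset.mem_filter] at hK
    rw [Finset.mem_image]
    refine ⟨fun i => K.toList[(i : ℕ)]?, Finset.mem_univ _, ?_⟩
    ext a
    rw [Finset.mem_filter]
    simp only [Finset.mem_univ, true_and]
    rw [← Finset.mem_toList, List.mem_iff_getElem?]
    constructor
    · rintro ⟨i, hi⟩
      exact ⟨i, hi⟩
    · rintro ⟨i, hi⟩
      have h2 : i < K.toList.length := by
        by_contra hc
        rw [List.getElem?_eq_none (not_lt.1 hc)] at hi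
        exact absurd hi (by simp)
      rw [Finset.length_toList] at h2
      exact ⟨⟨i, h2.trans_le hK.2⟩, hi⟩
  refine (Finset.card_le_card h1).trans (Finset.card_image_le.trans ?_)
  rw [Finset.card_univ, Fintype.card_fun, Fintype.card_option, Fintype.card_fin]

/-- History. -/
theorem tOrcA : S_OrcA := by
  intro X ω B
  constructor
  · intro N hN
    funext i b
    unfold Ctx.newR
    rw [if_pos hN]
  · intro s k x hx
    funext v y
    unfold Ctx.newC
    rw [if_pos hx]

end Pool.Agent.Lib.MP_ff3ed7_lc.Prg
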