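import Pool.Agent.Lib.MP_ff3ed7_lc.Prg.Spec

/-!
One stage of the construction (S_Sta).
-/

namespace Pool.Agent.Lib.MP_ff3ed7_lc.Prg

open Finset

namespace Sta

/-- `m` different strings of length `n`. -/
theorem exists_strings (n m : ℕ) (h : m ≤ 2 ^ n) :
    ∃ xs : Fin m → List Bool, (∀ j, (xs j).length = n) ∧ Function.Injective xs := by
  obtain ⟨e⟩ : Nonempty (Fin m ↪ (Fin n → Bool)) :=
    Function.Embedding.nonempty_of_card_le (by simpa using h)
  exact ⟨fun j => List.ofFn (e j), fun j => by simp, fun i j hij =>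
    e.injective (List.ofFn_injective hij)⟩

/-- A function which is none of the given ones. -/
theorem exists_avoid {α β : Type} [Fintype β] [DecidableEq β] (s : Finset α) (v : α → β)
    (h : s.card < Fintype.card β) : ∃ f : β, ∀ a ∈ s, v a ≠ f := by
  have h1 : (s.image v).card < Fintype.card β := lt_of_le_of_lt card_image_le h
  have h2 : s.image v ≠ univ := by
    intro hc
    rw [hc, card_univ] at h1
    exact lt_irrefl _ h1
  obtain ⟨f, hf⟩ : ∃ f, f ∉ s.image v := by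
    by_contra hc
    push Not at hc
    exact h2 (eq_univ_iff_forall.mpr hc)
  exact ⟨f, fun a ha hv => hf (mem_image.mpr ⟨a, ha, hv⟩)⟩

/-- Selection of a good pair. -/
theorem exists_good {α β : Type} [Fintype α] [Fintype β] [Nonempty α] [Nonempty β]
    (P Q : α → β → Prop) (hP : ∀ b, frac (fun a => ¬ P a b) ≤ 1 / 4)
    (hQ : ∀ a, frac (fun b => ¬ Q a b) ≤ 1 / 4) : ∃ a b, P a b ∧ Q a b := by
  have h1 : frac (fun p : β × α => ¬ P p.2 p.1) ≤ 1 / 4 :=
    frac_prod_le (E := fun b a => ¬ P a b) (by norm_num) hP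
  have h2 : frac (fun p : α × β => ¬ Q p.1 p.2) ≤ 1 / 4 :=
    frac_prod_le (E := fun a b => ¬ Q a b) (by norm_num) hQ
  have h3 : frac (fun p : α × β => ¬ P p.1 p.2) ≤ 1 / 4 := by
    have := frac_equiv (Equiv.prodComm α β) (fun p : β × α => ¬ P p.2 p.1)
    rw [← this] at h1
    exact h1
  have h4 := frac_or_le (fun p : α × β => ¬ P p.1 p.2) (fun p : α × β => ¬ Q p.1 p.2)
  obtain ⟨p, hp⟩ := exists_not_of_frac_lt_one
    (E := fun p : α × β => ¬ P p.1 p.2 ∨ ¬ Q p.1 p.2) (by linarith)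
  push Not at hp
  exact ⟨p.1, p.2, hp.1, hp.2⟩

theorem fools_of_not_bad (A : List Bool → Bool) (N : ℕ) (h : ¬ Ctx.Bad A N (1 / N)) :
    FoolsAt A N := by
  intro C
  by_contra hc
  refine h ⟨C, ?_⟩
  rw [not_le] at hc
  have e : frac (fun i : Fin (16 * N ^ 6) => evalC A C (gen A N i) = true) =
      (Nat.card {i : Fin (16 * N ^ 6) // evalC A C (gen A N i) = true} : ℝ) /
        (16 * N ^ 6 : ℕ) := by
    unfold frac
    rw [Fintype.card_fin]
  rw [e, ← prob_eq_frac]
  exact hc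

end Sta

open Sta in
theorem tSta (hCirT : S_CirT) (hPar : S_Par) (hAdv : S_Adv) (hFol : S_Fol) (hOrcA : S_OrcA)
    (hOrcI : S_OrcI) (hOne : S_One) (hTwo : S_Two) (hTes : S_Tes) (hLoP : S_LoP) : S_Sta := by
  intro s hs R C M hM hF hI k W
  obtain ⟨ct⟩ := hCirT
  obtain ⟨n, N1, hn, hN1, hxs, hQ, hN1', hbb, hk1, hk2⟩ := hPar s hs k W.c M
  obtain ⟨xs, hlen, hinj⟩ := exists_strings n (n ^ k + k + 1) hxs
  let X : Ctx := { R := R, C := C, M := M, M' := n + n ^ W.c + W.c + 2, k := k, n := n, xs := xs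
                   len := hlen, inj := hinj, hM := hM, hn := hn, hM' := by omega }
  obtain ⟨hmem, hcard⟩ := hAdv (n ^ k + k)
  have hbd : ∀ a j, (W.tree a (X.xs j)).Bounded (n ^ W.c + W.c) (n ^ W.c + W.c) := by
    intro a j
    have h := W.bounded a (X.xs j)
    rw [X.len j] at h
    exact h
  have hblk : Fintype.card X.Blk = n ^ k + k + 1 := Fintype.card_fin _
  have hmk : mm k n = n ^ k + k + n := rfl
  have hm1 : 1 ≤ X.m := by
    show 1 ≤ mm k n
    omega
  -- the choice of the samples and of the two full sides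
  obtain ⟨ω, F, hg1, hg2⟩ := exists_good
    (fun (ω : X.Sam) (F : Bool → X.Row → X.Val) => X.Good1 N1 (kk k W.c n) ω F)
    (fun (ω : X.Sam) (F : Bool → X.Row → X.Val) =>
      X.Good2 ct W N1 (n ^ W.c + W.c) (kk k W.c n) (advs (n ^ k + k)) ω F)
    (fun F => hOne X N1 (kk k W.c n) F hN1 hxs hQ)
    (fun ω => by
      refine hTwo X ct W N1 (n ^ W.c + W.c) (kk k W.c n) (advs (n ^ k + k)) ω hbd hm1 hN1' ?_ ?_
      · rw [hblk]
        refine le_trans ?_ hbb
        have := Nat.mul_le_mul_left (n ^ k + k + 1) hcard.le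
        exact Nat.mul_le_mul_left _ (Nat.mul_le_mul_left _ this)
      · rw [hblk]
        unfold kk
        have h1 : (advs (n ^ k + k)).card * (n ^ k + k + 1) ≤
            2 ^ (n ^ k + k + 1) * (n ^ k + k + 1) := Nat.mul_le_mul_right _ hcard.le
        have h2 : (n ^ W.c + W.c + 1) * (n ^ W.c + W.c) *
            ((advs (n ^ k + k)).card * (n ^ k + k + 1)) ≤
            2 ^ (n ^ k + k + 1) * (n ^ k + k + 1) *
              ((n ^ W.c + W.c + 1) * (n ^ W.c + W.c)) := by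
          rw [Nat.mul_comm]
          exact Nat.mul_le_mul_right _ h1
        omega)
  -- transcripts
  choose τ0 hτ1 hτ2 using fun (a : List Bool) (j : X.Blk) =>
    hFol (n ^ W.c + W.c) (n ^ W.c + W.c) (X.orc ω (X.full F)) (W.tree a (X.xs j)) (hbd a j)
  let τf : ↥(advs (n ^ k + k)) → X.Blk → Fin (n ^ W.c + W.c) →
      Option (Fin (n ^ W.c + W.c) → Bool) := fun a j i => τ0 a j i
  have hext : ∀ a ∈ advs (n ^ k + k), ∀ j, X.ext τf a j = τ0 a j := by
    intro a ha j
    funext i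
    unfold Ctx.ext
    by_cases hi : i < n ^ W.c + W.c
    · rw [dif_pos ⟨ha, hi⟩]
    · rw [dif_neg fun h => hi h.2]
      exact (hτ1 a j i (not_lt.mp hi)).symm
  have hfol : ∀ a ∈ advs (n ^ k + k), ∀ j,
      Follows (X.orc ω (X.full F)) (W.tree a (X.xs j)) (X.ext τf a j) := by
    intro a ha j
    rw [hext a ha j]
    exact hτ2 a j
  -- the pattern
  obtain ⟨f, hf⟩ := exists_avoid (advs (n ^ k + k))
    (fun a => fun j : X.Blk => out (W.tree a (X.xs j)) (X.ext τf a j)) (by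
      rw [Fintype.card_fun, Fintype.card_bool, hblk]
      exact hcard)
  obtain ⟨K, hK1, hK2, hK3⟩ := hg2 f τf
  obtain ⟨ht1, ht2⟩ := hTes X ct W N1 (n ^ W.c + W.c) (kk k W.c n) (advs (n ^ k + k)) ω F f
    (X.ext τf) K hbd hg1 hK1 hK2 hK3 hfol
  obtain ⟨hi1, hi2⟩ := hOrcI s X ω f (X.fixp f F) K (kk k W.c n) hK2 hk1 hk2 hI
  have hagr : Agree M R C (X.newR ω) (X.newC (X.pat f (X.fixp f F) K)) :=
    hOrcA X ω (X.pat f (X.fixp f F) K)
  refine ⟨X.M', X.newR ω, X.newC (X.pat f (X.fixp f F) K), ?_, hagr, ?_, ?_, ?_⟩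
  · show M < n + n ^ W.c + W.c + 2
    omega
  · intro N h6 hN
    rcases lt_or_ge N M with h | h
    · exact (hLoP M R C _ _ hagr).1 N h (hF N h6 h)
    · exact fools_of_not_bad _ N (ht1 N h hN)
  · intro k' x _
    exact hi1 k' x
  · intro R'' C'' hagr'
    obtain ⟨-, hl2, hl3⟩ := hLoP X.M' _ _ R'' C'' hagr'
    refine ⟨n, fun a ha => ?_⟩
    have haA : a ∈ advs (n ^ k + k) := (hmem a).mpr ha
    obtain ⟨j, hj⟩ : ∃ j : X.Blk, out (W.tree a (X.xs j)) (X.ext τf a j) ≠ f j := by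
      by_contra hc
      push Not at hc
      exact hf a haA (funext hc)
    refine ⟨X.xs j, X.len j, f j, ?_, ?_⟩
    · exact hl2 s k (X.xs j) (f j) (by rw [X.len j]; exact X.hM') (hi2 j)
    · intro hd
      have h1 := hl3 (W.tree a (X.xs j)) (n ^ W.c + W.c) (n ^ W.c + W.c) (f j) (by
        show n ^ W.c + W.c ≤ n + n ^ W.c + W.c + 2
        omega) (hbd a j) hd
      exact hj (ht2 a haA j (f j) h1).symm

end Pool.Agent.Lib.MP_ff3ed7_lc.Prg
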