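import Pool.Agent.Lib.MP_ff3ed7_lc.Prg.Spec

/-!
MP_ff3ed7_lc, PRG world: the test works (`S_Tes`).
-/

namespace Pool.Agent.Lib.MP_ff3ed7_lc.Prg

open Finset

namespace Tes

theorem pat_gr (X : Ctx) (f : X.Blk → Bool) (F : Bool → X.Row → X.Val) :
    X.pat f (X.fixp f F) (gr (X.varp f F)) = X.full F := by
  funext s j v y
  unfold Ctx.pat Ctx.full
  by_cases h : s = f j
  · rw [if_pos h]
    unfold Ctx.fixp
    rw [h]
  · rw [if_neg h]
    have h' : s = !f j := by
      cases s <;> cases hf : f j <;> simp_all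
    rw [h']
    apply decide_eq_decide.2
    unfold gr Ctx.varp
    rw [mem_filter]
    exact ⟨fun h => h.2, fun h => ⟨mem_univ _, h⟩⟩

theorem samp_not_mem (X : Ctx) (f : X.Blk → Bool) (S : Finset (X.Row × X.Val)) (N i b : ℕ) :
    samp N i b ∉ S.image (X.str f) := by
  intro h
  obtain ⟨c, _, hc⟩ := mem_image.1 h
  simp [samp, cell, Ctx.str] at hc

/-- The advantage of a circuit on two oracles which agree off `D`. -/
theorem adv_le (ct : CT) {A A' : List Bool → Bool} {D : Finset (List Bool)}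
    (h : ∀ u, u ∉ D → A u = A' u) (N : ℕ) (C : Circ N) (hg : gen A' N = gen A N) :
    |frac (fun ρ : Fin N → Bool => evalC A C ρ = true) -
        frac (fun i : Fin (16 * N ^ 6) => evalC A C (gen A N i) = true)| ≤
      |frac (fun ρ : Fin N → Bool => evalC A' C ρ = true) -
        frac (fun i : Fin (16 * N ^ 6) => evalC A' C (gen A' N i) = true)| +
      (∑ u ∈ D, qf A (fun i : Fin (16 * N ^ 6) => ct.T N C (gen A N i)) u +
        ∑ u ∈ D, qf A (fun ρ : Fin N → Bool => ct.T N C ρ) u) := by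
  have h1 := abs_frac_sub_le A A' (fun i : Fin (16 * N ^ 6) => ct.T N C (gen A N i)) D h
  have h2 := abs_frac_sub_le A A' (fun ρ : Fin N → Bool => ct.T N C ρ) D h
  simp only [ct.eval] at h1 h2
  rw [hg]
  obtain ⟨h3, h4⟩ := abs_le.1 h1
  obtain ⟨h5, h6⟩ := abs_le.1 h2
  refine abs_le.2 ⟨?_, ?_⟩
  · linarith [neg_abs_le (frac (fun ρ : Fin N → Bool => evalC A' C ρ = true) -
        frac (fun i : Fin (16 * N ^ 6) => evalC A' C (gen A N i) = true))]
  · linarith [le_abs_self (frac (fun ρ : Fin N → Bool => evalC A' C ρ = true) -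
        frac (fun i : Fin (16 * N ^ 6) => evalC A' C (gen A N i) = true))]

end Tes

open Tes in
/-- The test works. -/
theorem tTes (hOrcD : S_OrcD) (hOut : S_Out) (hWtB : S_WtB) : S_Tes := by
  intro X ct W N1 b k0 Adv ω F f τ K hB hG hK hKc hw hF
  classical
  obtain ⟨A, hA⟩ : ∃ A, A = X.orc ω (X.pat f (X.fixp f F) K) := ⟨_, rfl⟩
  obtain ⟨AF, hAF⟩ : ∃ AF, AF = X.orc ω (X.full F) := ⟨_, rfl⟩
  obtain ⟨D, hD⟩ : ∃ D, D = (gr (X.varp f F) \ K).image (X.str f) := ⟨_, rfl⟩
  obtain ⟨hinj, hAA⟩ := hOrcD X ω f (X.fixp f F) K (gr (X.varp f F)) hK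
  rw [pat_gr, ← hA, ← hAF] at hAA
  rw [← hA] at hw ⊢
  rw [← hAF] at hF
  have hAA' : ∀ u, u ∉ D → A u = AF u := fun u hu => (hAA u (by rwa [← hD])).symm
  have hsum : ∑ u ∈ D, X.wK ct W N1 b Adv τ A u ≤ 1 := by
    rw [hD, sum_image fun c _ c' _ h => hinj h]
    exact hw
  have hgen : ∀ N, gen AF N = gen A N := by
    intro N
    funext i b
    unfold gen
    exact (hAA' _ (by rw [hD]; exact samp_not_mem X f _ N i b)).symm
  have hG1 := hG.1
  rw [← hAF] at hG1
  by_cases h : ∃ N, X.M ≤ N ∧ N < X.M' ∧ N < N1 ∧ ∃ C : Circ N,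
      1 / (N : ℝ) < |frac (fun ρ : Fin N → Bool => evalC A C ρ = true) -
        frac (fun i : Fin (16 * N ^ 6) => evalC A C (gen A N i) = true)|
  · exfalso
    obtain ⟨N, C, h1, h2, hadv, e⟩ : ∃ (N : ℕ) (C : Circ N), X.M ≤ N ∧ N < X.M' ∧
        1 / (N : ℝ) < |frac (fun ρ : Fin N → Bool => evalC A C ρ = true) -
          frac (fun i : Fin (16 * N ^ 6) => evalC A C (gen A N i) = true)| ∧
        ∀ u, X.wK ct W N1 b Adv τ A u = Ctx.wC ct A N C u := by
      refine ⟨h.choose, h.choose_spec.2.2.2.choose, h.choose_spec.1, h.choose_spec.2.1,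
        h.choose_spec.2.2.2.choose_spec, fun u => ?_⟩
      unfold Ctx.wK
      rw [dif_pos h]
    have hN : (0 : ℝ) < N := by
      have := X.hM
      have h3 : 0 < N := by omega
      exact_mod_cast h3
    have h3 := adv_le ct hAA' N C (hgen N)
    simp only [e, Ctx.wC, ← mul_sum, sum_add_distrib] at hsum
    have h4 : ∑ u ∈ D, qf A (fun i : Fin (16 * N ^ 6) => ct.T N C (gen A N i)) u +
        ∑ u ∈ D, qf A (fun ρ : Fin N → Bool => ct.T N C ρ) u ≤ 1 / (2 * N) := by
      rw [le_div_iff₀ (by positivity)]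
      linarith
    have h5 : 1 / (N : ℝ) = 1 / (2 * N) + 1 / (2 * N) := by
      field_simp
      norm_num
    exact hG1 N h1 h2 ⟨C, by linarith⟩
  · refine ⟨?_, ?_⟩
    · intro N hN hN' hbad
      rcases lt_or_ge N N1 with h1 | h1
      · exact h ⟨N, hN, hN', h1, hbad⟩
      · have := hG.2 f K hKc N hN h1 hN'
        rw [← hA] at this
        exact this hbad
    · intro a ha j o ho
      refine hOut b b AF A _ (τ a j) D o (hB a j) (hF a ha j) hAA' (le_trans ?_ hsum) ho
      rw [mul_sum]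
      apply sum_le_sum
      intro u _
      have e : X.wK ct W N1 b Adv τ A u =
          12 * ∑ a ∈ Adv, ∑ j : X.Blk, wt A (W.tree a (X.xs j)) (τ a j) u := by
        unfold Ctx.wK
        rw [dif_neg h]
      rw [e]
      apply mul_le_mul_of_nonneg_left _ (by norm_num)
      have hnn : ∀ a j, 0 ≤ wt A (W.tree a (X.xs j)) (τ a j) u :=
        fun a j => (hWtB b b A _ (τ a j) (hB a j)).1 u
      calc wt A (W.tree a (X.xs j)) (τ a j) u
          ≤ ∑ j : X.Blk, wt A (W.tree a (X.xs j)) (τ a j) u :=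
            single_le_sum (f := fun j => wt A (W.tree a (X.xs j)) (τ a j) u)
              (fun j _ => hnn a j) (mem_univ j)
        _ ≤ _ := single_le_sum (f := fun a => ∑ j : X.Blk, wt A (W.tree a (X.xs j)) (τ a j) u)
              (fun a _ => sum_nonneg fun j _ => hnn a j) ha

end Pool.Agent.Lib.MP_ff3ed7_lc.Prg
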