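import Pool.Agent.Lib.MP_ff3ed7_lc.Prg.Spec

/-!
Task 17205: triangular independence, `S_Tri`, from `S_Hoe` and `S_Num`.
-/

namespace Pool.Agent.Lib.MP_ff3ed7_lc.Prg.Tri

open Finset

/-- One size and one test. -/
theorem one (hHoe : S_Hoe) (M : ℕ) (𝒞 : ℕ → Type)
    (h : ((N : Fin M) → Fin (16 * (N : ℕ) ^ 6) → Fin N → Bool) → (N : Fin M) → 𝒞 N →
      (Fin N → Bool) → Prop)
    (hh : ∀ ω ω' (N : Fin M) c ρ, (∀ N' : Fin M, N' < N → ω N' = ω' N') →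
      (h ω N c ρ ↔ h ω' N c ρ)) (N : Fin M) (hN : 6 ≤ (N : ℕ)) (c : 𝒞 N) :
    frac (fun ω : (N : Fin M) → Fin (16 * (N : ℕ) ^ 6) → Fin N → Bool =>
      1 / (2 * ((N : ℕ) : ℝ)) <
        |frac (fun i : Fin (16 * (N : ℕ) ^ 6) => h ω N c (ω N i)) - frac (h ω N c)|) ≤
      2 * Real.exp (-(((N : ℕ) : ℝ)) ^ 4) := by
  classical
  have hN0 : (0 : ℝ) < ((N : ℕ) : ℝ) := by
    have : 0 < (N : ℕ) := by omega
    exact_mod_cast this
  let β : Fin M → Type := fun N => Fin (16 * (N : ℕ) ^ 6) → Fin N → Bool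
  let e : (((j : {j : Fin M // j ≠ N}) → β j.1) × β N) ≃ ((N : Fin M) → β N) :=
    (Equiv.prodComm _ _).trans (Equiv.piSplitAt N β).symm
  have e1 : ∀ a b, (e (a, b)) N = b := by
    intro a b
    simp [e, Equiv.piSplitAt]
  have e2 : ∀ a b b' (N' : Fin M), N' < N → (e (a, b)) N' = (e (a, b')) N' := by
    intro a b b' N' hN'
    simp [e, Equiv.piSplitAt, hN'.ne]
  rw [← frac_equiv (Ω := (N : Fin M) → β N) e]
  apply frac_prod_le (E := fun a b => 1 / (2 * ((N : ℕ) : ℝ)) <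
    |frac (fun i : Fin (16 * (N : ℕ) ^ 6) => h (e (a, b)) N c ((e (a, b)) N i)) -
      frac (h (e (a, b)) N c)|) (by positivity)
  intro a
  let b0 : β N := fun _ _ => false
  let E : (Fin N → Bool) → Prop := h (e (a, b0)) N c
  have h1 : ∀ b, h (e (a, b)) N c = E := by
    intro b
    funext ρ
    exact propext (hh _ _ N c ρ fun N' hN' => e2 a b b0 N' hN')
  have h2 := hHoe (Fin N → Bool) E (16 * (N : ℕ) ^ 6) (1 / (2 * ((N : ℕ) : ℝ)))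
    (by positivity) (by positivity) (by
      rw [div_le_one (by positivity)]
      have : (6 : ℝ) ≤ ((N : ℕ) : ℝ) := by exact_mod_cast hN
      linarith)
  have h3 : -((1 / (2 * ((N : ℕ) : ℝ))) ^ 2 * ((16 * (N : ℕ) ^ 6 : ℕ) : ℝ) / 4) =
      -(((N : ℕ) : ℝ)) ^ 4 := by
    push_cast
    field_simp
    norm_num
  rw [h3] at h2
  refine le_trans (le_of_eq ?_) h2
  congr 1
  funext b
  rw [h1 b]
  have h4 : (e (a, b)) N = b := e1 a b
  rw [h4]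

/-- One size. -/
theorem size (hHoe : S_Hoe) (M a : ℕ) (𝒞 : ℕ → Type) [∀ N, Fintype (𝒞 N)]
    (h : ((N : Fin M) → Fin (16 * (N : ℕ) ^ 6) → Fin N → Bool) → (N : Fin M) → 𝒞 N →
      (Fin N → Bool) → Prop) (ha : 6 ≤ a) (hc : ∀ N ≥ 6, Fintype.card (𝒞 N) ≤ 2 ^ (N ^ 3))
    (hh : ∀ ω ω' (N : Fin M) c ρ, (∀ N' : Fin M, N' < N → ω N' = ω' N') →
      (h ω N c ρ ↔ h ω' N c ρ)) (N : Fin M) :
    frac (fun ω : (N : Fin M) → Fin (16 * (N : ℕ) ^ 6) → Fin N → Bool =>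
      a ≤ (N : ℕ) ∧ ∃ c, 1 / (2 * ((N : ℕ) : ℝ)) <
        |frac (fun i : Fin (16 * (N : ℕ) ^ 6) => h ω N c (ω N i)) - frac (h ω N c)|) ≤
      if a ≤ (N : ℕ) then (2 : ℝ) ^ ((N : ℕ) ^ 3) * (2 * Real.exp (-(((N : ℕ) : ℝ)) ^ 4)) else 0 := by
  classical
  by_cases hN : a ≤ (N : ℕ)
  · rw [if_pos hN]
    have h1 : frac (fun ω : (N : Fin M) → Fin (16 * (N : ℕ) ^ 6) → Fin N → Bool =>
        a ≤ (N : ℕ) ∧ ∃ c, 1 / (2 * ((N : ℕ) : ℝ)) <
          |frac (fun i : Fin (16 * (N : ℕ) ^ 6) => h ω N c (ω N i)) - frac (h ω N c)|) ≤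
        frac (fun ω : (N : Fin M) → Fin (16 * (N : ℕ) ^ 6) → Fin N → Bool =>
        ∃ c, 1 / (2 * ((N : ℕ) : ℝ)) <
          |frac (fun i : Fin (16 * (N : ℕ) ^ 6) => h ω N c (ω N i)) - frac (h ω N c)|) :=
      frac_mono fun ω hω => hω.2
    refine h1.trans ((frac_exists_le _).trans ?_)
    have h2 : ∀ c ∈ (univ : Finset (𝒞 N)),
        frac (fun ω : (N : Fin M) → Fin (16 * (N : ℕ) ^ 6) → Fin N → Bool =>
        1 / (2 * ((N : ℕ) : ℝ)) <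
          |frac (fun i : Fin (16 * (N : ℕ) ^ 6) => h ω N c (ω N i)) - frac (h ω N c)|) ≤
        2 * Real.exp (-(((N : ℕ) : ℝ)) ^ 4) := fun c _ =>
      one hHoe M 𝒞 h hh N (ha.trans hN) c
    refine (sum_le_sum h2).trans ?_
    rw [sum_const, card_univ, nsmul_eq_mul]
    apply mul_le_mul_of_nonneg_right _ (by positivity)
    exact_mod_cast hc N (ha.trans hN)
  · rw [if_neg hN]
    have h1 : frac (fun ω : (N : Fin M) → Fin (16 * (N : ℕ) ^ 6) → Fin N → Bool =>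
        a ≤ (N : ℕ) ∧ ∃ c, 1 / (2 * ((N : ℕ) : ℝ)) <
          |frac (fun i : Fin (16 * (N : ℕ) ^ 6) => h ω N c (ω N i)) - frac (h ω N c)|) = 0 := by
      rw [frac_eq_sum]
      simp [hN]
    rw [h1]

end Pool.Agent.Lib.MP_ff3ed7_lc.Prg.Tri

namespace Pool.Agent.Lib.MP_ff3ed7_lc.Prg

open Finset

theorem tTri (hHoe : S_Hoe) (hNum : S_Num) : S_Tri := by
  intro M a 𝒞 _ h ha hc hh
  refine (frac_exists_le _).trans ?_
  refine (sum_le_sum fun N _ => Tri.size hHoe M a 𝒞 h ha hc hh N).trans ?_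
  rw [Fin.sum_univ_eq_sum_range (fun N : ℕ =>
    if a ≤ N then (2 : ℝ) ^ (N ^ 3) * (2 * Real.exp (-((N : ℝ)) ^ 4)) else 0) M, ← sum_filter]
  have h1 : (range M).filter (fun N => a ≤ N) = Ico a M := by
    ext N
    simp only [mem_filter, mem_range, mem_Ico]
    omega
  rw [h1]
  exact hNum a M ha

end Pool.Agent.Lib.MP_ff3ed7_lc.Prg
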