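import Pool.Agent.Lib.MP_ff3ed7_lc.Prg.Spec

/-!
The second selection (`S_Two`): union bound over the patterns and the transcripts.
-/

set_option autoImplicit false

namespace Pool.Agent.Lib.MP_ff3ed7_lc.Prg

open Finset

namespace Two

/-- Splitting of `F` into the fixed part and the variable part. -/
def spl (X : Ctx) (f : X.Blk → Bool) :
    ((X.Row → X.Val) × (X.Row → X.Val)) ≃ (Bool → X.Row → X.Val) where
  toFun p := fun s r => if s = f r.1 then p.1 r else p.2 r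
  invFun F := (X.fixp f F, X.varp f F)
  left_inv p := by
    obtain ⟨p1, p2⟩ := p
    refine Prod.ext ?_ ?_
    · funext r
      simp [Ctx.fixp]
    · funext r
      simp [Ctx.varp]
  right_inv F := by
    funext s r
    simp only [Ctx.fixp, Ctx.varp]
    by_cases h : s = f r.1
    · rw [if_pos h, h]
    · rw [if_neg h]
      have h' : (!f r.1) = s := by
        cases s <;> cases hf : f r.1 <;> simp_all
      rw [h']

theorem fixp_spl (X : Ctx) (f : X.Blk → Bool) (p : (X.Row → X.Val) × (X.Row → X.Val)) :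
    X.fixp f (spl X f p) = p.1 := congrArg Prod.fst ((spl X f).left_inv p)

theorem varp_spl (X : Ctx) (f : X.Blk → Bool) (p : (X.Row → X.Val) × (X.Row → X.Val)) :
    X.varp f (spl X f p) = p.2 := congrArg Prod.snd ((spl X f).left_inv p)

/-- The statement for one pattern and one family of transcripts. -/
theorem one (hClo : S_Clo) (hWkB : S_WkB) (X : Ctx) (ct : CT) (W : Machine) (N1 b k0 : ℕ)
    (Adv : Finset (List Bool)) (ω : X.Sam) (hb : ∀ a j, (W.tree a (X.xs j)).Bounded b b)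
    (hm : 1 ≤ X.m) (h1 : 4 * N1 ^ 2 ≤ 2 ^ (X.m - 1))
    (h2 : 12 * (b * b * (Fintype.card X.Blk * Adv.card)) ≤ 2 ^ (X.m - 1))
    (f : X.Blk → Bool) (τ : List Bool → X.Blk → Tr b) :
    frac (fun F : Bool → X.Row → X.Val => ¬ ∃ K : Finset (X.Row × X.Val),
      K ⊆ gr (X.varp f F) ∧ K.card ≤ k0 ∧
      ∑ c ∈ gr (X.varp f F) \ K,
        X.wK ct W N1 b Adv τ (X.orc ω (X.pat f (X.fixp f F) K)) (X.str f c) ≤ 1) ≤
      (1 / 2 : ℝ) ^ (k0 + 1) := by
  rw [← frac_equiv (spl X f)]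
  have ht : (0 : ℝ) ≤ (1 / 2 : ℝ) ^ (k0 + 1) := by positivity
  refine frac_prod_le (E := fun fix z => ¬ ∃ K : Finset (X.Row × X.Val),
      K ⊆ gr (X.varp f (spl X f (fix, z))) ∧ K.card ≤ k0 ∧
      ∑ c ∈ gr (X.varp f (spl X f (fix, z))) \ K,
        X.wK ct W N1 b Adv τ (X.orc ω (X.pat f (X.fixp f (spl X f (fix, z))) K)) (X.str f c) ≤ 1)
    ht fun fix => ?_
  simp only [fixp_spl, varp_spl]
  have hw : ∀ K : Finset (X.Row × X.Val),
      (∀ u, 0 ≤ X.wK ct W N1 b Adv τ (X.orc ω (X.pat f fix K)) u) ∧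
      ∑ c, X.wK ct W N1 b Adv τ (X.orc ω (X.pat f fix K)) (X.str f c) ≤ (2 : ℝ) ^ (X.m - 1) := by
    intro K
    refine hWkB X ct W N1 b Adv τ _ f _ hb ?_ ?_
    · exact_mod_cast h1
    · exact_mod_cast h2
  have hc := hClo X.Row X.Val
    (fun K c => X.wK ct W N1 b Adv τ (X.orc ω (X.pat f fix K)) (X.str f c))
    ((2 : ℝ) ^ (X.m - 1)) k0 (fun K c => (hw K).1 _) (fun K => (hw K).2)
  refine hc.trans (le_of_eq ?_)
  congr 1
  have hcard : Fintype.card X.Val = 2 ^ X.m := by simp [Ctx.m]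
  rw [hcard]
  obtain ⟨m', hm'⟩ : ∃ m', X.m = m' + 1 := ⟨X.m - 1, by omega⟩
  rw [hm']
  push_cast
  rw [pow_succ]
  field_simp

theorem card_tr (X : Ctx) (b : ℕ) (Adv : Finset (List Bool)) :
    Fintype.card ((X.Blk → Bool) × (↥Adv → X.Blk → Fin b → Option (Fin b → Bool))) ≤
      2 ^ (Fintype.card X.Blk + (b + 1) * b * (Adv.card * Fintype.card X.Blk)) := by
  rw [Fintype.card_prod, pow_add]
  refine Nat.mul_le_mul ?_ ?_
  · simp
  · have h1 : Fintype.card (Option (Fin b → Bool)) ≤ 2 ^ (b + 1) := by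
      rw [Fintype.card_option]
      simp only [Fintype.card_pi, Fintype.card_bool, Finset.prod_const, Finset.card_univ,
        Fintype.card_fin]
      have := Nat.one_le_two_pow (n := b)
      rw [pow_succ]
      omega
    have h2 : Fintype.card (↥Adv → X.Blk → Fin b → Option (Fin b → Bool)) =
        Fintype.card (Option (Fin b → Bool)) ^ (b * (Adv.card * Fintype.card X.Blk)) := by
      rw [Fintype.card_fun, Fintype.card_fun, Fintype.card_fun, Fintype.card_fin,
        Fintype.card_coe, ← pow_mul, ← pow_mul]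
      congr 1
      ring
    rw [h2, mul_assoc, pow_mul 2 (b + 1)]
    exact Nat.pow_le_pow_left h1 _

end Two

theorem tTwo (hClo : S_Clo) (hWkB : S_WkB) : S_Two := by
  intro X ct W N1 b k0 Adv ω hb hm h1 h2 h3
  have hle : frac (fun F : Bool → X.Row → X.Val => ¬ X.Good2 ct W N1 b k0 Adv ω F) ≤
      frac (fun F : Bool → X.Row → X.Val =>
        ∃ p : (X.Blk → Bool) × (↥Adv → X.Blk → Fin b → Option (Fin b → Bool)),
          ¬ ∃ K : Finset (X.Row × X.Val), K ⊆ gr (X.varp p.1 F) ∧ K.card ≤ k0 ∧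
            ∑ c ∈ gr (X.varp p.1 F) \ K,
              X.wK ct W N1 b Adv (X.ext p.2) (X.orc ω (X.pat p.1 (X.fixp p.1 F) K))
                (X.str p.1 c) ≤ 1) := by
    refine frac_mono fun F hF => ?_
    by_contra hc
    apply hF
    intro f τ
    by_contra hn
    exact hc ⟨(f, τ), hn⟩
  refine hle.trans ((frac_exists_le _).trans ?_)
  refine (Finset.sum_le_card_nsmul _ _ ((1 / 2 : ℝ) ^ (k0 + 1)) fun p _ =>
    Two.one hClo hWkB X ct W N1 b k0 Adv ω hb hm h1 h2 p.1 (X.ext p.2)).trans ?_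
  rw [nsmul_eq_mul, Finset.card_univ]
  set e := Fintype.card X.Blk + (b + 1) * b * (Adv.card * Fintype.card X.Blk) with he
  have h4 : (Fintype.card ((X.Blk → Bool) ×
      (↥Adv → X.Blk → Fin b → Option (Fin b → Bool))) : ℝ) ≤ 2 ^ e := by
    exact_mod_cast Two.card_tr X b Adv
  obtain ⟨r, hr⟩ : ∃ r, k0 + 1 = e + 2 + r := ⟨k0 + 1 - (e + 2), by omega⟩
  have h5 : (1 / 2 : ℝ) ^ r ≤ 1 := pow_le_one₀ (by norm_num) (by norm_num)
  calc _ ≤ (2 : ℝ) ^ e * (1 / 2 : ℝ) ^ (k0 + 1) :=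
        mul_le_mul_of_nonneg_right h4 (by positivity)
    _ = ((2 : ℝ) ^ e * (1 / 2) ^ e) * (1 / 4) * (1 / 2) ^ r := by
        rw [hr, pow_add, pow_add]
        ring
    _ = (1 / 4) * (1 / 2) ^ r := by
        rw [← mul_pow]
        norm_num
    _ ≤ 1 / 4 := by linarith

end Pool.Agent.Lib.MP_ff3ed7_lc.Prg
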