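import Pool.Agent.Lib.MP_ff3ed7_lc.Prg.Spec

set_option autoImplicit false

namespace Pool.Agent.Lib.MP_ff3ed7_lc.Prg

open Finset

theorem tWkB (hWtB : S_WtB) (hOrcD : S_OrcD) : S_WkB := by
  intro X ct W N1 b Adv τ A f t hb h1 h2
  classical
  have hinj := (hOrcD X (fun _ _ _ => false) f (fun _ _ => false) ∅ ∅ (Finset.Subset.refl _)).1
  have hsum : ∀ g : List Bool → ℝ, ∑ c, g (X.str f c) = ∑ u ∈ Finset.univ.image (X.str f), g u := by
    intro g
    rw [Finset.sum_image (fun a _ b _ h => hinj h)]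
  rw [hsum]
  by_cases h : ∃ N, X.M ≤ N ∧ N < X.M' ∧ N < N1 ∧ ∃ C : Circ N,
      1 / (N : ℝ) < |frac (fun ρ : Fin N → Bool => evalC A C ρ = true) -
        frac (fun i : Fin (16 * N ^ 6) => evalC A C (gen A N i) = true)|
  · have hw : ∀ u, X.wK ct W N1 b Adv τ A u =
        Ctx.wC ct A h.choose h.choose_spec.2.2.2.choose u := by
      intro u
      unfold Ctx.wK
      rw [dif_pos h]
    simp only [hw]
    have hN : h.choose < N1 := h.choose_spec.2.2.1
    generalize h.choose_spec.2.2.2.choose = C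
    generalize h.choose = N at hN C
    have hNR : (N : ℝ) ≤ N1 := by exact_mod_cast hN.le
    refine ⟨fun u => ?_, ?_⟩
    · unfold Ctx.wC
      have q1 := qf_nonneg A (fun i : Fin (16 * N ^ 6) => ct.T N C (gen A N i)) u
      have q2 := qf_nonneg A (fun ρ : Fin N → Bool => ct.T N C ρ) u
      positivity
    · unfold Ctx.wC
      rw [← Finset.mul_sum, Finset.sum_add_distrib]
      have q1 := sum_qf_le A (fun i : Fin (16 * N ^ 6) => ct.T N C (gen A N i)) N
        (fun i => ct.depth N C _) (Finset.univ.image (X.str f))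
      have q2 := sum_qf_le A (fun ρ : Fin N → Bool => ct.T N C ρ) N
        (fun ρ => ct.depth N C _) (Finset.univ.image (X.str f))
      have hN0 : (0 : ℝ) ≤ N := Nat.cast_nonneg N
      nlinarith [mul_le_mul_of_nonneg_left (add_le_add q1 q2) (mul_nonneg zero_le_two hN0),
        mul_self_le_mul_self hN0 hNR]
  · have hw : ∀ u, X.wK ct W N1 b Adv τ A u =
        12 * ∑ a ∈ Adv, ∑ j : X.Blk, wt A (W.tree a (X.xs j)) (τ a j) u := by
      intro u
      unfold Ctx.wK
      rw [dif_neg h]
    simp only [hw]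
    refine ⟨fun u => ?_, ?_⟩
    · refine mul_nonneg (by norm_num) (Finset.sum_nonneg fun a _ => Finset.sum_nonneg fun j _ => ?_)
      exact (hWtB b b A _ _ (hb a j)).1 u
    · refine le_trans ?_ h2
      rw [← Finset.mul_sum]
      refine mul_le_mul_of_nonneg_left ?_ (by norm_num)
      rw [Finset.sum_comm]
      have h3 : ∀ a ∈ Adv, ∑ u ∈ Finset.univ.image (X.str f),
          ∑ j : X.Blk, wt A (W.tree a (X.xs j)) (τ a j) u ≤
          (Fintype.card X.Blk : ℝ) * ((b : ℝ) * b) := by
        intro a _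
        rw [Finset.sum_comm]
        refine (Finset.sum_le_sum fun j _ => (hWtB b b A _ _ (hb a j)).2 _).trans ?_
        rw [Finset.sum_const, Finset.card_univ, nsmul_eq_mul]
      refine (Finset.sum_le_sum h3).trans ?_
      rw [Finset.sum_const, nsmul_eq_mul]
      apply le_of_eq
      ring

end Pool.Agent.Lib.MP_ff3ed7_lc.Prg
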