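import Pool.Agent.Lib.MP_ff3ed7_lc.Prg.Fin
import Pool.Agent.Lib.MP_ff3ed7_lc.Prg.Clo
import Pool.Agent.Lib.MP_ff3ed7_lc.Prg.Hoe
import Pool.Agent.Lib.MP_ff3ed7_lc.Prg.Num
import Pool.Agent.Lib.MP_ff3ed7_lc.Prg.Tri
import Pool.Agent.Lib.MP_ff3ed7_lc.Prg.CirT
import Pool.Agent.Lib.MP_ff3ed7_lc.Prg.CirN
import Pool.Agent.Lib.MP_ff3ed7_lc.Prg.Fol
import Pool.Agent.Lib.MP_ff3ed7_lc.Prg.Out
import Pool.Agent.Lib.MP_ff3ed7_lc.Prg.Bld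
import Pool.Agent.Lib.MP_ff3ed7_lc.Prg.Par
import Pool.Agent.Lib.MP_ff3ed7_lc.Prg.Sma
import Pool.Agent.Lib.MP_ff3ed7_lc.Prg.OrcD
import Pool.Agent.Lib.MP_ff3ed7_lc.Prg.OrcI
import Pool.Agent.Lib.MP_ff3ed7_lc.Prg.Loc
import Pool.Agent.Lib.MP_ff3ed7_lc.Prg.One
import Pool.Agent.Lib.MP_ff3ed7_lc.Prg.WkB
import Pool.Agent.Lib.MP_ff3ed7_lc.Prg.Two
import Pool.Agent.Lib.MP_ff3ed7_lc.Prg.Tes
import Pool.Agent.Lib.MP_ff3ed7_lc.Prg.LoP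
import Pool.Agent.Lib.MP_ff3ed7_lc.Prg.Sta
import Pool.Agent.Lib.MP_ff3ed7_lc.Prg.Lim

/-! Assembly. -/

namespace Pool.Agent.Lib.MP_ff3ed7_lc.Prg

theorem lim : S_Lim :=
  have hTri := tTri tHoe tNum
  have hOrcD := tOrcD tBld
  have hLoc := tLoc hTri tCirT tCirN (tOrcL tBld)
  have hWkB := tWkB tWtB hOrcD
  tLim (tSta tCirT tPar tAdv tFol tOrcA (tOrcI tBld) (tOne hLoc tSma) (tTwo tClo hWkB)
    (tTes hOrcD tOut tWtB) (tLoP tBld tCirT)) (tLoP tBld tCirT)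

end Pool.Agent.Lib.MP_ff3ed7_lc.Prg
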