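import Pool.Agent.Lib.MP_ff3ed7_lc.Prg.Defs

/-!
Working definitions for the PRG world (no statements of the final theorem use them).
-/

namespace Pool.Agent.Lib.MP_ff3ed7_lc.Prg

open Finset

/-! ### Fractions -/

/-- The fraction of the elements of `Ω` with the property `E`. -/
noncomputable def frac {Ω : Type} [Fintype Ω] (E : Ω → Prop) : ℝ :=
  (Nat.card {ω // E ω} : ℝ) / (Fintype.card Ω : ℝ)

theorem prob_eq_frac (r : ℕ) (E : (Fin r → Bool) → Prop) : prob r E = frac E := by
  simp [prob, frac]

section
variable {Ω : Type} [Fintype Ω]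

theorem frac_eq_sum (E : Ω → Prop) [DecidablePred E] :
    frac E = (∑ ω, if E ω then (1 : ℝ) else 0) / (Fintype.card Ω : ℝ) := by
  unfold frac
  congr 1
  rw [Nat.card_eq_fintype_card, Fintype.card_subtype]
  simp

theorem frac_nonneg (E : Ω → Prop) : 0 ≤ frac E := by
  unfold frac; positivity

theorem frac_mono {E E' : Ω → Prop} (h : ∀ ω, E ω → E' ω) : frac E ≤ frac E' := by
  classical
  rw [frac_eq_sum, frac_eq_sum]
  apply div_le_div_of_nonneg_right _ (by positivity)
  apply sum_le_sum
  intro ω _
  by_cases h1 : E ω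
  · simp [h1, h ω h1]
  · simp only [h1, if_false]
    split_ifs <;> norm_num

theorem frac_le_one (E : Ω → Prop) : frac E ≤ 1 := by
  classical
  rw [frac_eq_sum]
  apply div_le_one_of_le₀ _ (by positivity)
  calc (∑ ω, if E ω then (1 : ℝ) else 0) ≤ ∑ _ω : Ω, (1 : ℝ) := by
        apply sum_le_sum; intro ω _; split_ifs <;> norm_num
    _ = Fintype.card Ω := by simp

theorem frac_exists_le {ι : Type} [Fintype ι] (E : ι → Ω → Prop) :
    frac (fun ω => ∃ i, E i ω) ≤ ∑ i, frac (E i) := by
  classical
  simp only [frac_eq_sum]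
  rw [← sum_div, sum_comm]
  apply div_le_div_of_nonneg_right _ (by positivity)
  apply sum_le_sum
  intro ω _
  by_cases h : ∃ i, E i ω
  · obtain ⟨i, hi⟩ := h
    rw [if_pos ⟨i, hi⟩]
    calc (1 : ℝ) = if E i ω then (1 : ℝ) else 0 := by simp [hi]
      _ ≤ _ := single_le_sum (f := fun i => if E i ω then (1 : ℝ) else 0)
        (fun j _ => by split_ifs <;> norm_num) (mem_univ i)
  · rw [if_neg h]
    apply sum_nonneg
    intro j _
    split_ifs <;> norm_num

theorem frac_or_le (E E' : Ω → Prop) : frac (fun ω => E ω ∨ E' ω) ≤ frac E + frac E' := by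
  classical
  simp only [frac_eq_sum]
  rw [← add_div, ← sum_add_distrib]
  apply div_le_div_of_nonneg_right _ (by positivity)
  apply sum_le_sum
  intro ω _
  by_cases h1 : E ω <;> by_cases h2 : E' ω <;> simp [h1, h2]

theorem exists_not_of_frac_lt_one [Nonempty Ω] {E : Ω → Prop} (h : frac E < 1) : ∃ ω, ¬ E ω := by
  classical
  by_contra hc
  push Not at hc
  have : frac E = 1 := by
    rw [frac_eq_sum]
    simp [hc]
  linarith

theorem frac_equiv {Ω' : Type} [Fintype Ω'] (e : Ω' ≃ Ω) (E : Ω → Prop) :
    frac (fun ω => E (e ω)) = frac E := by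
  classical
  rw [frac_eq_sum, frac_eq_sum, Fintype.card_congr e]
  congr 1
  exact Equiv.sum_comp e (fun ω => if E ω then (1 : ℝ) else 0)

end

/-- If for every `a` the fraction of the `b` with `E a b` is at most `t`, then so is the fraction of
the pairs. -/
theorem frac_prod_le {α β : Type} [Fintype α] [Fintype β] {E : α → β → Prop} {t : ℝ} (ht0 : 0 ≤ t)
    (h : ∀ a, frac (E a) ≤ t) : frac (fun p : α × β => E p.1 p.2) ≤ t := by
  classical
  rcases isEmpty_or_nonempty (α × β) with he | hne
  · rw [frac_eq_sum]; simp [ht0]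
  have hα : Nonempty α := hne.map Prod.fst
  have hβ : Nonempty β := hne.map Prod.snd
  rw [frac_eq_sum, Fintype.sum_prod_type, Fintype.card_prod, div_le_iff₀ (by positivity)]
  calc ∑ a, ∑ b, (if E a b then (1 : ℝ) else 0) ≤ ∑ _a : α, t * (Fintype.card β : ℝ) := by
        apply sum_le_sum
        intro a _
        have := h a
        rw [frac_eq_sum, div_le_iff₀ (by positivity)] at this
        exact this
    _ = t * ((Fintype.card α * Fintype.card β : ℕ) : ℝ) := by
        rw [sum_const, card_univ, nsmul_eq_mul]; push_cast; ring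

/-! ### Queries of decision trees -/

/-- The queries which the tree makes on the input `A`. -/
def path {ι σ : Type} (A : ι → σ) : DTree ι σ → List ι
  | .leaf _ => []
  | .node i next => i :: path A (next (A i))

theorem length_path_le {ι σ : Type} (A : ι → σ) (T : DTree ι σ) (d : ℕ) (h : T.DepthLE d) :
    (path A T).length ≤ d := by
  induction T generalizing d with
  | leaf b => simp [path]
  | node i next ih =>
    obtain ⟨h0, h1⟩ := h
    have := ih (A i) (d - 1) (h1 (A i))
    simp only [path, List.length_cons]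
    omega

theorem path_allQ {ι σ : Type} (A : ι → σ) (T : DTree ι σ) (P : ι → Prop) (h : T.AllQ P) :
    ∀ i ∈ path A T, P i := by
  induction T with
  | leaf b => simp [path]
  | node i next ih =>
    intro j hj
    simp only [path, List.mem_cons] at hj
    rcases hj with rfl | hj
    · exact h.1
    · exact ih (A i) (h.2 (A i)) j hj

theorem eval_congr {ι σ : Type} (A A' : ι → σ) (T : DTree ι σ) (h : ∀ i ∈ path A T, A i = A' i) :
    T.eval A' = T.eval A := by
  induction T with
  | leaf b => rfl
  | node i next ih =>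
    simp only [DTree.eval]
    have h1 : A i = A' i := h i (by simp [path])
    rw [← h1]
    exact ih (A i) fun j hj => h j (by simp [path, hj])

/-- The fraction of the trees of the family `T` which query `u` on the input `A`. -/
noncomputable def qf {Ω ι σ : Type} [Fintype Ω] (A : ι → σ) (T : Ω → DTree ι σ) (u : ι) : ℝ :=
  frac fun ω => u ∈ path A (T ω)

theorem qf_nonneg {Ω ι σ : Type} [Fintype Ω] (A : ι → σ) (T : Ω → DTree ι σ) (u : ι) :
    0 ≤ qf A T u := frac_nonneg _

theorem sum_qf_le {Ω ι σ : Type} [Fintype Ω] (A : ι → σ) (T : Ω → DTree ι σ) (d : ℕ)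
    (h : ∀ ω, (T ω).DepthLE d) (D : Finset ι) : ∑ u ∈ D, qf A T u ≤ d := by
  classical
  simp only [qf, frac_eq_sum]
  rw [← sum_div, sum_comm]
  apply div_le_of_le_mul₀ (by positivity) (by positivity)
  calc ∑ ω, ∑ u ∈ D, (if u ∈ path A (T ω) then (1 : ℝ) else 0) ≤ ∑ _ω : Ω, (d : ℝ) := by
        apply sum_le_sum
        intro ω _
        rw [← sum_filter, sum_const, nsmul_eq_mul, mul_one]
        have h1 : (D.filter fun u => u ∈ path A (T ω)) ⊆ (path A (T ω)).toFinset := by
          intro u hu
          simp only [mem_filter] at hu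
          simp [hu.2]
        have h2 := (card_le_card h1).trans (List.toFinset_card_le _)
        exact_mod_cast h2.trans (length_path_le A _ d (h ω))
    _ = d * (Fintype.card Ω : ℝ) := by
        rw [sum_const, card_univ, nsmul_eq_mul]; ring

theorem abs_frac_sub_le {Ω ι σ : Type} [Fintype Ω] (A A' : ι → σ) (T : Ω → DTree ι σ)
    (D : Finset ι) (h : ∀ u, u ∉ D → A u = A' u) :
    |frac (fun ω => (T ω).eval A' = true) - frac (fun ω => (T ω).eval A = true)| ≤
      ∑ u ∈ D, qf A T u := by
  classical
  simp only [qf, frac_eq_sum]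
  rw [← sum_div, ← sub_div, abs_div, abs_of_nonneg (a := (Fintype.card Ω : ℝ)) (by positivity)]
  apply div_le_div_of_nonneg_right _ (by positivity)
  rw [← sum_sub_distrib, sum_comm]
  refine (abs_sum_le_sum_abs _ _).trans (sum_le_sum ?_)
  intro ω _
  by_cases hω : ∃ u ∈ path A (T ω), A u ≠ A' u
  · obtain ⟨u, hu, hne⟩ := hω
    have huD : u ∈ D := by
      by_contra hc
      exact hne (h u hc)
    have h1 : (1 : ℝ) ≤ ∑ u ∈ D, (if u ∈ path A (T ω) then (1 : ℝ) else 0) := by
      calc (1 : ℝ) = if u ∈ path A (T ω) then (1 : ℝ) else 0 := by simp [hu]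
        _ ≤ _ := single_le_sum (f := fun u => if u ∈ path A (T ω) then (1 : ℝ) else 0)
          (fun j _ => by split_ifs <;> norm_num) huD
    refine le_trans ?_ h1
    split_ifs <;> norm_num
  · push Not at hω
    rw [eval_congr A A' (T ω) hω]
    simp only [sub_self, abs_zero]
    apply sum_nonneg
    intro u _
    split_ifs <;> norm_num

/-- Decision trees for the oracle circuits. -/
structure CT where
  /-- the tree of the circuit `C` on input `ρ` -/
  T : (N : ℕ) → Circ N → (Fin N → Bool) → DTree (List Bool) Bool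
  depth : ∀ N C ρ, (T N C ρ).DepthLE N
  allQ : ∀ N C ρ, (T N C ρ).AllQ fun s => s.length ≤ N
  eval : ∀ N C ρ A, (T N C ρ).eval A = evalC A C ρ

/-! ### Transcripts of `P^MA` machines -/

/-- The first `p` bits of `y`. -/
def cut {b : ℕ} (y : Fin b → Bool) (p : ℕ) : Fin p → Bool :=
  fun j => if h : (j : ℕ) < b then y ⟨j, h⟩ else false

/-- A transcript says for every level whether the answer is no (`none`) or yes, and then it contains
a message. -/
abbrev Tr (b : ℕ) : Type := ℕ → Option (Fin b → Bool)

/-- Drop the first entry. -/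
def Tr.tail {b : ℕ} (τ : Tr b) : Tr b := fun i => τ (i + 1)

/-- The outcome of the machine along the transcript. -/
def out {b : ℕ} : MTree → Tr b → Bool
  | .leaf o, _ => o
  | .node _ _ _ no yes, τ => if τ 0 = none then out no τ.tail else out yes τ.tail

/-- The transcript is the one of the machine with threshold `1 / 2` on the oracle `A`. -/
def Follows {b : ℕ} (A : List Bool → Bool) : MTree → Tr b → Prop
  | .leaf _, _ => True
  | .node p r T no yes, τ =>
      (τ 0 = none ∧ (∀ y, prob r (fun ρ => (T y ρ).eval A = true) < 1 / 2) ∧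
        Follows A no τ.tail) ∨
      (∃ y, τ 0 = some y ∧ 1 / 2 ≤ prob r (fun ρ => (T (cut y p) ρ).eval A = true) ∧
        Follows A yes τ.tail)

theorem exists_best {p r : ℕ} (A : List Bool → Bool)
    (T : (Fin p → Bool) → (Fin r → Bool) → DTree (List Bool) Bool) :
    ∃ y₀, ∀ y, prob r (fun ρ => (T y ρ).eval A = true) ≤
      prob r (fun ρ => (T y₀ ρ).eval A = true) := by
  obtain ⟨y₀, hy₀⟩ := Finite.exists_max fun y => prob r (fun ρ => (T y ρ).eval A = true)
  exact ⟨y₀, hy₀⟩

/-- A message which is accepted with maximal probability. -/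
noncomputable def best {p r : ℕ} (A : List Bool → Bool)
    (T : (Fin p → Bool) → (Fin r → Bool) → DTree (List Bool) Bool) : Fin p → Bool :=
  (exists_best A T).choose

/-- The weight of the string `u`: the sum over the nodes along the transcript of the probability
that `u` is queried, for the message in the transcript or (answer no) for the best message. -/
noncomputable def wt {b : ℕ} (A : List Bool → Bool) : MTree → Tr b → List Bool → ℝ
  | .leaf _, _, _ => 0
  | .node p _ T no yes, τ, u =>
      match τ 0 with
      | none => qf A (T (best A T)) u + wt A no τ.tail u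
      | some y => qf A (T (cut y p)) u + wt A yes τ.tail u

/-! ### Oracles from samples and cells -/

/-- The oracle with given samples `R` and given contents `C` of the cells. -/
noncomputable def build (R : ℕ → ℕ → ℕ → Bool)
    (C : Bool → ℕ → List Bool → List Bool → List Bool → Bool) (u : List Bool) : Bool :=
  open Classical in
  if h : ∃ p : ℕ × ℕ × ℕ, samp p.1 p.2.1 p.2.2 = u then
    R h.choose.1 h.choose.2.1 h.choose.2.2
  else if h : ∃ q : Bool × ℕ × List Bool × List Bool × List Bool,
      q.2.2.2.1.length = mm q.2.1 q.2.2.1.length ∧ q.2.2.2.2.length = mm q.2.1 q.2.2.1.length ∧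
      cell q.1 q.2.1 q.2.2.1 q.2.2.2.1 q.2.2.2.2 = u then
    C h.choose.1 h.choose.2.1 h.choose.2.2.1 h.choose.2.2.2.1 h.choose.2.2.2.2
  else false

/-- The two pairs (samples, cells) agree for all sizes and lengths less than `M`. -/
def Agree (M : ℕ) (R : ℕ → ℕ → ℕ → Bool) (C : Bool → ℕ → List Bool → List Bool → List Bool → Bool)
    (R' : ℕ → ℕ → ℕ → Bool) (C' : Bool → ℕ → List Bool → List Bool → List Bool → Bool) : Prop :=
  (∀ N < M, R N = R' N) ∧ ∀ s k x, x.length < M → C s k x = C' s k x

/-- The graph of a function. -/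
def gr {ι σ : Type} [Fintype ι] [DecidableEq ι] [Fintype σ] [DecidableEq σ] (z : ι → σ) :
    Finset (ι × σ) := Finset.univ.filter fun c => z c.1 = c.2

/-! ### One stage -/

/-- The data of one stage: the history `R, C` up to the bound `M`, the exponent `k`, the length `n`
of the inputs used, the new bound `M'` and `n ^ k + k + 1` inputs of length `n`. -/
structure Ctx where
  /-- samples of the history -/
  R : ℕ → ℕ → ℕ → Bool
  /-- cells of the history -/
  C : Bool → ℕ → List Bool → List Bool → List Bool → Bool
  /-- the old bound -/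
  M : ℕ
  /-- the new bound -/
  M' : ℕ
  /-- the exponent -/
  k : ℕ
  /-- the length of the inputs -/
  n : ℕ
  /-- the inputs -/
  xs : Fin (n ^ k + k + 1) → List Bool
  len : ∀ j, (xs j).length = n
  inj : Function.Injective xs
  hM : 6 ≤ M
  hn : M ≤ n
  hM' : n < M'

namespace Ctx

variable (X : Ctx)

/-- Number of coins. -/
abbrev m : ℕ := mm X.k X.n

/-- The index set of the inputs. -/
abbrev Blk : Type := Fin (X.n ^ X.k + X.k + 1)

/-- Strings of `m` bits. -/
abbrev Val : Type := Fin (mm X.k X.n) → Bool

/-- A row: an input and the random bits. -/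
abbrev Row : Type := X.Blk × X.Val

/-- The new samples (those for sizes less than `M` are not used). -/
abbrev Sam : Type := (N : Fin X.M') → (Fin (16 * (N : ℕ) ^ 6)) → Fin N → Bool

/-- All samples, for the new samples `ω`. -/
def newR (ω : X.Sam) : ℕ → ℕ → ℕ → Bool := fun N i b =>
  if N < X.M then X.R N i b
  else if h : N < X.M' ∧ i < 16 * N ^ 6 ∧ b < N then ω ⟨N, h.1⟩ ⟨i, h.2.1⟩ ⟨b, h.2.2⟩
  else false

/-- All cells, for the new contents `B`. -/
noncomputable def newC (B : Bool → X.Blk → X.Val → X.Val → Bool) :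
    Bool → ℕ → List Bool → List Bool → List Bool → Bool := fun s k x v y =>
  open Classical in
  if x.length < X.M then X.C s k x v y
  else if h : k = X.k ∧ ∃ j, X.xs j = x then
    B s h.2.choose (fun i => v.getD i false) (fun i => y.getD i false)
  else decide (s = true ∧ y = List.replicate (mm k x.length) false)

/-- The oracle of the stage. -/
noncomputable def orc (ω : X.Sam) (B : Bool → X.Blk → X.Val → X.Val → Bool) :
    List Bool → Bool := build (X.newR ω) (X.newC B)

/-- The contents for the pattern `f`: on the side `f j` the input `j` has the graph of `fix`, on the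
other side it has the cells in `S`. -/
def pat (f : X.Blk → Bool) (fix : X.Row → X.Val) (S : Finset (X.Row × X.Val)) :
    Bool → X.Blk → X.Val → X.Val → Bool := fun s j v y =>
  if s = f j then decide (fix (j, v) = y) else decide (((j, v), y) ∈ S)

/-- Both sides are full. -/
def full (F : Bool → X.Row → X.Val) : Bool → X.Blk → X.Val → X.Val → Bool := fun s j v y =>
  decide (F s (j, v) = y)

/-- The sides which remain full for the pattern `f`. -/
def fixp (f : X.Blk → Bool) (F : Bool → X.Row → X.Val) : X.Row → X.Val := fun r => F (f r.1) r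

/-- The sides which are reduced for the pattern `f`. -/
def varp (f : X.Blk → Bool) (F : Bool → X.Row → X.Val) : X.Row → X.Val := fun r => F (!f r.1) r

/-- The string of a cell on the reduced side. -/
def str (f : X.Blk → Bool) (c : X.Row × X.Val) : List Bool :=
  cell (!f c.1.1) X.k (X.xs c.1.1) (List.ofFn c.1.2) (List.ofFn c.2)

/-- Some circuit of size `N` distinguishes the samples from random bits with advantage larger than
`l`. -/
def Bad (A : List Bool → Bool) (N : ℕ) (l : ℝ) : Prop :=
  ∃ C : Circ N, l < |frac (fun ρ : Fin N → Bool => evalC A C ρ = true) -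
    frac (fun i : Fin (16 * N ^ 6) => evalC A C (gen A N i) = true)|

/-- The weight for the test of the circuit `C`. -/
noncomputable def wC (ct : CT) (A : List Bool → Bool) (N : ℕ) (C : Circ N) (u : List Bool) : ℝ :=
  2 * N * (qf A (fun i : Fin (16 * N ^ 6) => ct.T N C (gen A N i)) u +
    qf A (fun ρ : Fin N → Bool => ct.T N C ρ) u)

open Classical in
/-- The weight of the string `u` for the oracle `A` and the transcripts `τ`: if some circuit of a size
in `[M, M')`, less than `N1`, has advantage larger than `1 / N`, the weight for such a circuit, otherwise the weight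
for the transcripts. -/
noncomputable def wK (ct : CT) (W : Machine) (N1 b : ℕ) (Adv : Finset (List Bool))
    (τ : List Bool → X.Blk → Tr b) (A : List Bool → Bool) (u : List Bool) : ℝ :=
  if h : ∃ N, X.M ≤ N ∧ N < X.M' ∧ N < N1 ∧ ∃ C : Circ N,
      1 / (N : ℝ) < |frac (fun ρ : Fin N → Bool => evalC A C ρ = true) -
        frac (fun i : Fin (16 * N ^ 6) => evalC A C (gen A N i) = true)| then
    wC ct A h.choose h.choose_spec.2.2.2.choose u
  else 12 * ∑ a ∈ Adv, ∑ j : X.Blk, wt A (W.tree a (X.xs j)) (τ a j) u

/-- Extension of a finite family of transcripts by `none`. -/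
noncomputable def ext {b : ℕ} {Adv : Finset (List Bool)}
    (τ : ↥Adv → X.Blk → Fin b → Option (Fin b → Bool)) : List Bool → X.Blk → Tr b :=
  fun a j i => open Classical in
    if h : a ∈ Adv ∧ i < b then τ ⟨a, h.1⟩ j ⟨i, h.2⟩ else none

/-- No circuit distinguishes the samples from random bits, on the oracle with both sides full (up to
`1 / (2 N)`) and, for sizes at least `N1`, on all oracles with at most `k0` cells on the reduced
sides (up to `1 / N`). -/
def Good1 (N1 k0 : ℕ) (ω : X.Sam) (F : Bool → X.Row → X.Val) : Prop :=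
  (∀ N, X.M ≤ N → N < X.M' → ¬ Bad (X.orc ω (X.full F)) N (1 / (2 * N))) ∧
  ∀ (f : X.Blk → Bool) (K : Finset (X.Row × X.Val)), K.card ≤ k0 →
    ∀ N, X.M ≤ N → N1 ≤ N → N < X.M' → ¬ Bad (X.orc ω (X.pat f (X.fixp f F) K)) N (1 / N)

/-- For all patterns and transcripts some set of at most `k0` cells passes the test. -/
def Good2 (ct : CT) (W : Machine) (N1 b k0 : ℕ) (Adv : Finset (List Bool)) (ω : X.Sam)
    (F : Bool → X.Row → X.Val) : Prop :=
  ∀ (f : X.Blk → Bool) (τ : ↥Adv → X.Blk → Fin b → Option (Fin b → Bool)),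
    ∃ K : Finset (X.Row × X.Val), K ⊆ gr (X.varp f F) ∧ K.card ≤ k0 ∧
      ∑ c ∈ gr (X.varp f F) \ K,
        X.wK ct W N1 b Adv (X.ext τ) (X.orc ω (X.pat f (X.fixp f F) K)) (X.str f c) ≤ 1

end Ctx

/-- All strings of length at most `a`. -/
noncomputable def advs (a : ℕ) : Finset (List Bool) :=
  (Finset.range (a + 1)).biUnion fun l =>
    (Finset.univ : Finset (Fin l → Bool)).image fun v => List.ofFn v

/-- The size of the sets `K` of cells. -/
def kk (k c n : ℕ) : ℕ :=
  (n ^ k + k + 1) + 2 ^ (n ^ k + k + 1) * (n ^ k + k + 1) * ((n ^ c + c + 1) * (n ^ c + c)) + 2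

/-- The machine is refuted for the language `k`, for all advice strings. -/
def Refuted (s : ℕ → ℕ) (W : Machine) (k : ℕ) (A : List Bool → Bool) : Prop :=
  ∃ n, ∀ a : List Bool, a.length ≤ n ^ k + k → ∃ x, x.length = n ∧
    ∃ b, Inst s A k x b ∧ ¬ (W.tree a x).Decides A b

end Pool.Agent.Lib.MP_ff3ed7_lc.Prg
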