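import Pool.Agent.Lib.MP_ff3ed7_lc.Prg.Spec

/-!
The strings of the samples and of the cells, and the oracle `build`.
-/

namespace Pool.Agent.Lib.MP_ff3ed7_lc.Prg

namespace Bld

theorem rep_inj : ∀ (a b : ℕ) (s t : List Bool),
    List.replicate a false ++ true :: s = List.replicate b false ++ true :: t → a = b ∧ s = t
  | 0, 0, s, t, h => by
      simp only [List.replicate_zero, List.nil_append, List.cons.injEq, true_and] at h
      exact ⟨rfl, h⟩
  | 0, b + 1, s, t, h => by
      simp [List.replicate_succ] at h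
  | a + 1, 0, s, t, h => by
      simp [List.replicate_succ] at h
  | a + 1, b + 1, s, t, h => by
      simp only [List.replicate_succ, List.cons_append, List.cons.injEq, true_and] at h
      obtain ⟨h1, h2⟩ := rep_inj a b s t h
      exact ⟨by rw [h1], h2⟩

theorem samp_inj {N i b N' i' b' : ℕ} (h : samp N i b = samp N' i' b') :
    N = N' ∧ i = i' ∧ b = b' := by
  unfold samp at h
  rw [List.cons.injEq] at h
  obtain ⟨h1, h2⟩ := rep_inj _ _ _ _ h.2
  obtain ⟨h3, h4⟩ := rep_inj _ _ _ _ h2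
  refine ⟨h1, h3, ?_⟩
  have := congrArg List.length h4
  simpa using this

theorem samp_length (N i b : ℕ) : (samp N i b).length = N + i + b + 3 := by
  simp [samp]
  omega

theorem cell_inj {s : Bool} {k : ℕ} {x v y : List Bool} {s' : Bool} {k' : ℕ} {x' v' y' : List Bool}
    (hv : v.length = mm k x.length) (hv' : v'.length = mm k' x'.length)
    (h : cell s k x v y = cell s' k' x' v' y') :
    s = s' ∧ k = k' ∧ x = x' ∧ v = v' ∧ y = y' := by
  unfold cell at h
  rw [List.cons.injEq, List.cons.injEq] at h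
  obtain ⟨_, h0, h⟩ := h
  obtain ⟨h1, h2⟩ := rep_inj _ _ _ _ h
  obtain ⟨h3, h4⟩ := rep_inj _ _ _ _ h2
  obtain ⟨h5, h6⟩ := List.append_inj h4 h3
  obtain ⟨h7, h8⟩ := List.append_inj h6 (by rw [hv, hv', h1, h3])
  exact ⟨h0, h1, h5, h7, h8⟩

theorem lt_cell_length (s : Bool) (k : ℕ) (x v y : List Bool) :
    x.length < (cell s k x v y).length := by
  simp [cell]
  omega

theorem samp_ne_cell (N i b : ℕ) (s : Bool) (k : ℕ) (x v y : List Bool) :
    samp N i b ≠ cell s k x v y := by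
  intro h
  unfold samp cell at h
  rw [List.cons.injEq] at h
  exact Bool.noConfusion h.1

theorem build_samp (R : ℕ → ℕ → ℕ → Bool) (C : Bool → ℕ → List Bool → List Bool → List Bool → Bool)
    (N i b : ℕ) : build R C (samp N i b) = R N i b := by
  have h : ∃ p : ℕ × ℕ × ℕ, samp p.1 p.2.1 p.2.2 = samp N i b := ⟨(N, i, b), rfl⟩
  unfold build
  rw [dif_pos h]
  obtain ⟨h1, h2, h3⟩ := samp_inj h.choose_spec
  rw [h1, h2, h3]

theorem build_cell (R : ℕ → ℕ → ℕ → Bool) (C : Bool → ℕ → List Bool → List Bool → List Bool → Bool)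
    (s : Bool) (k : ℕ) (x v y : List Bool) (hv : v.length = mm k x.length)
    (hy : y.length = mm k x.length) : build R C (cell s k x v y) = C s k x v y := by
  have h0 : ¬ ∃ p : ℕ × ℕ × ℕ, samp p.1 p.2.1 p.2.2 = cell s k x v y := by
    rintro ⟨p, hp⟩
    exact samp_ne_cell _ _ _ _ _ _ _ _ hp
  have h : ∃ q : Bool × ℕ × List Bool × List Bool × List Bool,
      q.2.2.2.1.length = mm q.2.1 q.2.2.1.length ∧ q.2.2.2.2.length = mm q.2.1 q.2.2.1.length ∧
      cell q.1 q.2.1 q.2.2.1 q.2.2.2.1 q.2.2.2.2 = cell s k x v y :=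
    ⟨(s, k, x, v, y), hv, hy, rfl⟩
  unfold build
  rw [dif_neg h0, dif_pos h]
  obtain ⟨h1, _, h3⟩ := h.choose_spec
  obtain ⟨e1, e2, e3, e4, e5⟩ := cell_inj h1 hv h3
  rw [e1, e2, e3, e4, e5]

theorem build_cases (u : List Bool) :
    (∃ N i b, samp N i b = u) ∨
    (∃ s k x v y, v.length = mm k x.length ∧ y.length = mm k x.length ∧ cell s k x v y = u) ∨
    ∀ R C, build R C u = false := by
  by_cases h0 : ∃ p : ℕ × ℕ × ℕ, samp p.1 p.2.1 p.2.2 = u
  · obtain ⟨p, hp⟩ := h0
    exact Or.inl ⟨_, _, _, hp⟩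
  by_cases h : ∃ q : Bool × ℕ × List Bool × List Bool × List Bool,
      q.2.2.2.1.length = mm q.2.1 q.2.2.1.length ∧ q.2.2.2.2.length = mm q.2.1 q.2.2.1.length ∧
      cell q.1 q.2.1 q.2.2.1 q.2.2.2.1 q.2.2.2.2 = u
  · obtain ⟨q, hq⟩ := h
    exact Or.inr (Or.inl ⟨_, _, _, _, _, hq⟩)
  · refine Or.inr (Or.inr fun R C => ?_)
    unfold build
    rw [dif_neg h0, dif_neg h]

end Bld

open Bld in
/-- The strings of the samples and of the cells. -/
theorem tBld : S_Bld := by
  refine ⟨build_samp, fun R C s k x v y hv hy => build_cell R C s k x v y hv hy,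
    fun M R C R' C' u hA hu => ?_, fun R C R' C' u hne => ?_,
    fun s k x v y s' k' x' v' y' hv _ hv' _ h => cell_inj hv hv' h⟩
  · rcases build_cases u with ⟨N, i, b, rfl⟩ | ⟨s, k, x, v, y, hv, hy, rfl⟩ | h
    · rw [samp_length] at hu
      rw [build_samp, build_samp, hA.1 N (by omega)]
    · have := lt_cell_length s k x v y
      rw [build_cell R C s k x v y hv hy, build_cell R' C' s k x v y hv hy,
        hA.2 s k x (by omega)]
    · rw [h, h]
  · rcases build_cases u with ⟨N, i, b, rfl⟩ | ⟨s, k, x, v, y, hv, hy, rfl⟩ | h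
    · rw [build_samp, build_samp] at hne
      exact Or.inl ⟨N, i, b, rfl, hne⟩
    · rw [build_cell R C s k x v y hv hy, build_cell R' C' s k x v y hv hy] at hne
      exact Or.inr ⟨s, k, x, v, y, hv, hy, rfl, hne⟩
    · rw [h, h] at hne
      exact absurd rfl hne

end Pool.Agent.Lib.MP_ff3ed7_lc.Prg
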