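import Pool.Agent.Lib.MP_ff3ed7_lc.Oracle

/-!
Definitions for the world in which pseudorandom generators against oracle circuits exist, but
`AM ∩ coAM` is not contained in `P^MA` with `n ^ k` bits of advice.
-/

namespace Pool.Agent.Lib.MP_ff3ed7_lc.Prg

/-! ### Oracle circuits -/

/-- A gate of an oracle circuit with `N` inputs and `N` gates.  There are `2 * N + 2` wires: the
wires `0, …, N - 1` are the inputs, the wires `N` and `N + 1` are the constants false and true, and
the wire `N + 2 + t` is the value of gate `t`.  A gate is either the NAND of two wires, or it asks
the oracle whether the string formed by at most `N` wires belongs to it. -/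
abbrev Gate (N : ℕ) : Type :=
  (Fin (2 * N + 2) × Fin (2 * N + 2)) ⊕ (Σ l : Fin (N + 1), (Fin l → Fin (2 * N + 2)))

/-- An oracle circuit with `N` inputs: `N` gates and the output wire. -/
abbrev Circ (N : ℕ) : Type := (Fin N → Gate N) × Fin (2 * N + 2)

/-- The value of a gate if the wires have the values `v` and the oracle is `A`. -/
def gateVal (A : List Bool → Bool) {N : ℕ} (v : Fin (2 * N + 2) → Bool) : Gate N → Bool
  | .inl p => !(v p.1 && v p.2)
  | .inr q => A (List.ofFn fun i => v (q.2 i))

/-- The values of the wires of the circuit `C` with oracle `A` on input `ρ` after `t` gates have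
been evaluated (gates which are not yet evaluated have the value false). -/
def wires (A : List Bool → Bool) {N : ℕ} (C : Circ N) (ρ : Fin N → Bool) :
    ℕ → Fin (2 * N + 2) → Bool
  | 0 => fun w => if h : (w : ℕ) < N then ρ ⟨w, h⟩ else decide ((w : ℕ) = N + 1)
  | t + 1 => fun w =>
      if h : t < N then
        (if (w : ℕ) = N + 2 + t then gateVal A (wires A C ρ t) (C.1 ⟨t, h⟩) else wires A C ρ t w)
      else wires A C ρ t w

/-- The output of the circuit `C` with oracle `A` on input `ρ`. -/
def evalC (A : List Bool → Bool) {N : ℕ} (C : Circ N) (ρ : Fin N → Bool) : Bool :=
  wires A C ρ N C.2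

/-! ### The generator -/

/-- The string at which bit `b` of the `i`-th output of the generator for circuits of size `N` is
stored.  It is longer than `N`. -/
def samp (N i b : ℕ) : List Bool :=
  true :: (List.replicate N false ++ true :: (List.replicate i false ++
    true :: List.replicate b false))

/-- The `i`-th output of the generator, `N` bits which are read from the oracle. -/
def gen (A : List Bool → Bool) (N i : ℕ) : Fin N → Bool := fun b => A (samp N i b)

/-- The generator `gen A N`, with the `16 * N ^ 6` seeds `i < 16 * N ^ 6`, is pseudorandom with
error `1 / N` for all oracle circuits with `N` inputs and `N` gates. -/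
def FoolsAt (A : List Bool → Bool) (N : ℕ) : Prop :=
  ∀ C : Circ N, |prob N (fun ρ => evalC A C ρ = true) -
    (Nat.card {i : Fin (16 * N ^ 6) // evalC A C (gen A N i) = true} : ℝ) / (16 * N ^ 6 : ℕ)|
      ≤ 1 / N

/-! ### The Arthur-Merlin protocols -/

/-- The number of random bits and the length of the reply for inputs of length `n`. -/
def mm (k n : ℕ) : ℕ := n ^ k + k + n

/-- The string which is queried by the protocol `k` on input `x`, for the random bits `v` and the
reply `y`, on the side `s` (`s = true`: protocol for the language, `s = false`: protocol for the
complement). -/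
def cell (s : Bool) (k : ℕ) (x v y : List Bool) : List Bool :=
  false :: s :: (List.replicate k false ++ true :: (List.replicate x.length false ++
    true :: (x ++ (v ++ y))))

/-- The verifier with one query and as many random bits as reply bits. -/
def TAM (s : Bool) (k : ℕ) (x : List Bool) (y v : Fin (mm k x.length) → Bool) :
    DTree (List Bool) Bool :=
  .node (cell s k x (List.ofFn v) (List.ofFn y)) .leaf

/-- For the random bits `v` the reply `y` is accepted on the side `s`. -/
def Acc (A : List Bool → Bool) (s : Bool) (k : ℕ) (x : List Bool)
    (v y : Fin (mm k x.length) → Bool) : Prop :=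
  A (cell s k x (List.ofFn v) (List.ofFn y)) = true

/-- The promise of the two protocols: on the side `b` for all random bits exactly one reply is
accepted; on the other side at most `2 ^ (n ^ k + k) * s n` and at most a third of all random bits
have an accepted reply. -/
def Inst (s : ℕ → ℕ) (A : List Bool → Bool) (k : ℕ) (x : List Bool) (b : Bool) : Prop :=
  (∀ v, ∃! y, Acc A b k x v y) ∧
  Nat.card {v // ∃ y, Acc A (!b) k x v y} ≤ 2 ^ (x.length ^ k + k) * s x.length ∧
  3 * Nat.card {v // ∃ y, Acc A (!b) k x v y} ≤ 2 ^ (mm k x.length)

/-! ### `P^MA` machines with advice -/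

/-- A tree of Merlin-Arthur queries: a query is given by the length `p` of Merlin's message `y`, the
number `r` of random bits `ρ` and decision trees `T y ρ` which query the oracle. -/
inductive MTree : Type
  | leaf (b : Bool) : MTree
  | node (p r : ℕ) (T : (Fin p → Bool) → (Fin r → Bool) → DTree (List Bool) Bool)
      (no yes : MTree) : MTree

/-- The machine decides `b` relative to the oracle `A`: all Merlin-Arthur queries which it asks
satisfy the promise (some message is accepted with probability at least `2 / 3`, or every message is
accepted with probability at most `1 / 3`), and the last answer leads to the leaf `b`. -/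
def MTree.Decides (A : List Bool → Bool) : MTree → Bool → Prop
  | .leaf b, o => b = o
  | .node _ r T no yes, o =>
      ((∃ y, 2 / 3 ≤ prob r fun ρ => (T y ρ).eval A = true) ∧ yes.Decides A o) ∨
      ((∀ y, prob r (fun ρ => (T y ρ).eval A = true) ≤ 1 / 3) ∧ no.Decides A o)

/-- At most `d` Merlin-Arthur queries on every branch; the numbers of message bits, random bits and
oracle queries and the lengths of the queried strings are at most `b`. -/
def MTree.Bounded (b : ℕ) : MTree → ℕ → Prop
  | .leaf _, _ => True
  | .node p r T no yes, d => 0 < d ∧ p ≤ b ∧ r ≤ b ∧
      (∀ y ρ, (T y ρ).DepthLE b ∧ (T y ρ).AllQ fun s => s.length ≤ b) ∧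
      no.Bounded b (d - 1) ∧ yes.Bounded b (d - 1)

/-- A polynomial time `P^MA` oracle machine with advice `h`; there is no restriction on its
computing power apart from the polynomial bounds on the queries. -/
structure Machine where
  /-- the tree of Merlin-Arthur queries for the advice `h` and the input `x` -/
  tree : (h x : List Bool) → MTree
  /-- the exponent of the polynomial bound -/
  c : ℕ
  bounded : ∀ h x, (tree h x).Bounded (x.length ^ c + c) (x.length ^ c + c)

/-- The machine with the advice `h n` for the inputs of length `n` decides the language `L` relative
to the oracle `A`. -/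
def Machine.DecidesLang (W : Machine) (h : ℕ → List Bool) (A : List Bool → Bool)
    (L : Set (List Bool)) : Prop :=
  ∀ x, (x ∈ L → (W.tree (h x.length) x).Decides A true) ∧
    (x ∉ L → (W.tree (h x.length) x).Decides A false)

end Pool.Agent.Lib.MP_ff3ed7_lc.Prg
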