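import Pool.Agent.Lib.MP_ff3ed7_lc.Prg.Defs

/-! The two Arthur-Merlin verifiers. -/

namespace Pool.Agent.Lib.MP_ff3ed7_lc.Prg

theorem cell_len (s : Bool) (k : ℕ) (x v y : List Bool) :
    (cell s k x v y).length = 4 + k + 2 * x.length + v.length + y.length := by
  simp only [cell, List.length_cons, List.length_append, List.length_replicate]
  omega

theorem poly_bound (k n : ℕ) : 4 + 3 * k + 4 * n + 2 * n ^ k ≤ n ^ (3 * k + 10) + (3 * k + 10) := by
  rcases Nat.lt_or_ge n 2 with h | h
  · interval_cases n
    · rcases Nat.eq_zero_or_pos k with rfl | hk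
      · norm_num
      · rw [zero_pow (by omega), zero_pow (by omega)]; omega
    · simp only [one_pow]; omega
  · have h1 : n ≤ n ^ (k + 1) := by
      calc n = n ^ 1 := (pow_one n).symm
        _ ≤ n ^ (k + 1) := Nat.pow_le_pow_right (by omega) (by omega)
    have h2 : n ^ k ≤ n ^ (k + 1) := Nat.pow_le_pow_right (by omega) (by omega)
    have h3 : 2 ^ 3 ≤ n ^ 3 := Nat.pow_le_pow_left h 3
    have h4 : n ^ (k + 1) * n ^ 3 ≤ n ^ (3 * k + 10) := by
      rw [← pow_add]
      exact Nat.pow_le_pow_right (by omega) (by omega)
    have h5 : n ^ (k + 1) * 2 ^ 3 ≤ n ^ (k + 1) * n ^ 3 := Nat.mul_le_mul_left _ h3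
    omega

/-- The verifier for the language (`s = true`) and for its complement (`s = false`): `|x|^k + k + |x|`
random bits, a reply of the same length, one oracle query. -/
def VAM (s : Bool) (k : ℕ) : Verifier where
  msg := mm k
  coins := mm k
  tree := TAM s k
  c := 3 * k + 10
  msg_le n := by
    have := poly_bound k n
    unfold mm
    omega
  coins_le n := by
    have := poly_bound k n
    unfold mm
    omega
  depth_le x y v := by
    simp only [TAM, DTree.DepthLE]
    exact ⟨by omega, fun _ => trivial⟩
  length_le x y v := by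
    simp only [TAM, DTree.AllQ]
    refine ⟨?_, fun _ => trivial⟩
    rw [cell_len, List.length_ofFn, List.length_ofFn]
    have := poly_bound k x.length
    unfold mm
    omega

end Pool.Agent.Lib.MP_ff3ed7_lc.Prg
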