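import Pool.Agent.Lib.MP_ff3ed7_lc.Prg.Spec
import Pool.Agent.Lib.MP_ff3ed7_lc.Prg.Ver

/-! The final theorem from the limit construction. -/

namespace Pool.Agent.Lib.MP_ff3ed7_lc.Prg

theorem card_all (m : ℕ) (P : (Fin m → Bool) → Prop) (h : ∀ v, P v) :
    Nat.card {v // P v} = 2 ^ m := by
  rw [Nat.card_congr (Equiv.subtypeUnivEquiv h)]
  simp

theorem Inst_unique {s : ℕ → ℕ} {A : List Bool → Bool} {k : ℕ} {x : List Bool}
    (h : Inst s A k x true) (h' : Inst s A k x false) : False := by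
  have h1 : Nat.card {v // ∃ y, Acc A true k x v y} = 2 ^ (mm k x.length) :=
    card_all _ _ fun v => (h.1 v).exists
  have h2 := h'.2.2
  simp only [Bool.not_false] at h2
  rw [h1] at h2
  have : 0 < 2 ^ (mm k x.length) := by positivity
  omega

theorem amProb_yes {s : ℕ → ℕ} {A : List Bool → Bool} {k : ℕ} {x : List Bool} {b : Bool}
    (h : Inst s A k x b) : 2 / 3 ≤ (VAM b k).amProb A x := by
  have h1 : (VAM b k).amProb A x = 1 := by
    unfold Verifier.amProb prob
    rw [card_all _ _ fun v => ?_]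
    · push_cast
      exact div_self (by positivity)
    · obtain ⟨y, hy, _⟩ := h.1 v
      exact ⟨y, by simpa [VAM, TAM, DTree.eval, Acc] using hy⟩
  rw [h1]; norm_num

theorem amProb_no {s : ℕ → ℕ} {A : List Bool → Bool} {k : ℕ} {x : List Bool} {b : Bool}
    (h : Inst s A k x (!b)) : (VAM b k).amProb A x ≤ 1 / 3 := by
  have h2 := h.2.2
  rw [Bool.not_not] at h2
  have h1 : (VAM b k).amProb A x =
      (Nat.card {v // ∃ y, Acc A b k x v y} : ℝ) / 2 ^ (mm k x.length) := by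
    unfold Verifier.amProb prob
    simp [VAM, TAM, DTree.eval, Acc]
  rw [h1, div_le_iff₀ (by positivity)]
  have h3 : ((3 * Nat.card {v // ∃ y, Acc A b k x v y} : ℕ) : ℝ) ≤
      ((2 ^ (mm k x.length) : ℕ) : ℝ) := by exact_mod_cast h2
  push_cast at h3
  linarith

/-- The main theorem. -/
theorem prg_world (hLim : S_Lim) (s : ℕ → ℕ) (hs : ∀ c, ∃ n₀, ∀ n ≥ n₀, n ^ c ≤ s n)
    (W : ℕ → Machine) : ∃ A : List Bool → Bool,
    (∀ N ≥ 6, FoolsAt A N) ∧
    ∀ k, ∃ L : Set (List Bool),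
      (∀ x, (x ∈ L → Inst s A k x true) ∧ (x ∉ L → Inst s A k x false)) ∧
      (VAM true k).AcceptsAM A L ∧ (VAM false k).AcceptsAM A Lᶜ ∧
      ∀ i (h : ℕ → List Bool), (∀ n, (h n).length ≤ n ^ k + k) → ¬ (W i).DecidesLang h A L := by
  obtain ⟨A, h1, h2, h3⟩ := hLim s hs W
  refine ⟨A, h1, fun k => ⟨{x | Inst s A k x true}, ?_, ?_, ?_, ?_⟩⟩
  · intro x
    refine ⟨fun h => h, fun h => ?_⟩
    obtain ⟨b, hb⟩ := h2 k x
    cases b
    · exact hb
    · exact absurd hb h
  · intro x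
    refine ⟨fun h => amProb_yes h, fun h => ?_⟩
    obtain ⟨b, hb⟩ := h2 k x
    cases b
    · exact amProb_no (b := true) hb
    · exact absurd hb h
  · intro x
    refine ⟨fun h => ?_, fun h => ?_⟩
    · obtain ⟨b, hb⟩ := h2 k x
      cases b
      · exact amProb_yes hb
      · exact absurd hb h
    · rw [Set.notMem_compl_iff] at h
      exact amProb_no (b := false) h
  · intro i h hh hdec
    obtain ⟨n, hn⟩ := h3 i k
    obtain ⟨x, hx, b, hb, hnot⟩ := hn (h n) (hh n)
    subst hx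
    cases b
    · have : x ∉ {x | Inst s A k x true} := fun hc => Inst_unique hc hb
      exact hnot ((hdec x).2 this)
    · exact hnot ((hdec x).1 hb)

end Pool.Agent.Lib.MP_ff3ed7_lc.Prg
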