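import Pool.Agent.Lib.MP_ff3ed7_lc.Prg.Spec

/-!
MP_ff3ed7_lc, PRG world: locality of the three properties (`S_LoP`).
-/

namespace Pool.Agent.Lib.MP_ff3ed7_lc.Prg

open Finset

namespace LoP

/-- Trees whose queries have length at most `b` do not distinguish oracles which agree there. -/
theorem eval_eq {A A' : List Bool → Bool} {b : ℕ} (h : ∀ u : List Bool, u.length ≤ b → A u = A' u)
    (T : DTree (List Bool) Bool) (hT : T.AllQ fun s => s.length ≤ b) : T.eval A' = T.eval A :=
  eval_congr A A' T fun i hi => h i (path_allQ A T _ hT i hi)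

theorem decides {A A' : List Bool → Bool} {b : ℕ} (h : ∀ u : List Bool, u.length ≤ b → A u = A' u)
    (t : MTree) : ∀ (d : ℕ) (o : Bool), t.Bounded b d → t.Decides A' o → t.Decides A o := by
  induction t with
  | leaf c => exact fun d o _ h => h
  | node p r T no yes ihn ihy =>
    intro d o hb hd
    obtain ⟨_, _, _, h3, h4, h5⟩ := hb
    have e : ∀ y ρ, (T y ρ).eval A' = (T y ρ).eval A := fun y ρ => eval_eq h _ (h3 y ρ).2
    rcases hd with ⟨h1, h2⟩ | ⟨h1, h2⟩
    · left
      refine ⟨?_, ihy _ _ h5 h2⟩
      obtain ⟨y, hy⟩ := h1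
      refine ⟨y, ?_⟩
      simp only [e] at hy
      exact hy
    · right
      refine ⟨fun y => ?_, ihn _ _ h4 h2⟩
      have hy := h1 y
      simp only [e] at hy
      exact hy

end LoP

open LoP in
/-- Locality of the three properties. -/
theorem tLoP (hBld : S_Bld) (hCirT : S_CirT) : S_LoP := by
  intro M R C R' C' hA
  obtain ⟨hsamp, hcell, hagree, _, _⟩ := hBld
  have hle : ∀ u : List Bool, u.length ≤ M → build R C u = build R' C' u :=
    fun u hu => hagree M R C R' C' u hA hu
  refine ⟨?_, ?_, ?_⟩
  · intro N hN hF c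
    obtain ⟨ct⟩ := hCirT
    have e : ∀ ρ, evalC (build R' C') c ρ = evalC (build R C) c ρ := by
      intro ρ
      rw [← ct.eval, ← ct.eval]
      exact eval_eq (fun u hu => hle u (hu.trans hN.le)) _ (ct.allQ N c ρ)
    have g : ∀ i, gen (build R' C') N i = gen (build R C) N i := by
      intro i
      funext b
      unfold gen
      rw [hsamp, hsamp, hA.1 N hN]
    have := hF c
    simp only [e, g]
    exact this
  · intro s k x b hx hI
    have e : ∀ (s : Bool) (v y : Fin (mm k x.length) → Bool),
        Acc (build R' C') s k x v y ↔ Acc (build R C) s k x v y := by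
      intro s v y
      unfold Acc
      rw [hcell _ _ _ _ _ _ _ (List.length_ofFn ..) (List.length_ofFn ..),
        hcell _ _ _ _ _ _ _ (List.length_ofFn ..) (List.length_ofFn ..), hA.2 s k x hx]
    unfold Inst at hI ⊢
    simp only [e]
    exact hI
  · intro t b d o hb ht hd
    exact decides (fun u hu => hle u (hu.trans hb)) t d o ht hd

end Pool.Agent.Lib.MP_ff3ed7_lc.Prg
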