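import Pool.Agent.Lib.MP_ff3ed7_lc.Prg.Base

/-!
SPEC for the PRG world (MP_ff3ed7_lc, note 3608).  Every `S_X` is a statement, to be proved as
`theorem tX ... : S_X` in the file `Prg/X.lean` (hypotheses `hY : S_Y` for the statements which are
used).  The definitions are in `Prg/Defs.lean` and `Prg/Base.lean` (with proved lemmas on `frac`,
`path`, `qf`).
-/

namespace Pool.Agent.Lib.MP_ff3ed7_lc.Prg

open Finset

/-- CLOSURE LEMMA.  PROOF.  For a state `K` and `r : ℕ` let `Φ r K z` be `1` for `r = 0` and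
`Φ (r+1) K z = ∑ c ∈ gr z \ K, w K c * Φ r (insert c K) z`.
(1) If no `K'` as in the statement exists, then `Φ r K z > 1` or `r = 0` for all `K ⊆ gr z` with
`K.card + r ≤ k + 1` (induction on `r`: the sum of the weights is larger than `1`, all factors
`Φ` are at least `1`), so `Φ (k+1) ∅ z ≥ 1`.
(2) For all `K`, `r`: `∑ z with K ⊆ gr z, Φ r K z ≤ (t / |σ|) ^ r * |{z | K ⊆ gr z}|`-type bound; a
convenient form: `∑ z, (if K ⊆ gr z then Φ r K z else 0) ≤ t ^ r * (number of functions) /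
|σ| ^ (K.card + r)`, by induction on `r`: exchange the sums, the term with `c` is the expression for
`insert c K` (`c ∉ K`), and `∑ c, w K c ≤ t`.  For `r = 0` one needs
`|{z | K ⊆ gr z}| * |σ| ^ K.card ≤ |ι → σ|` (if `K ⊆ gr z` for some `z`, the first coordinates are
different; the number of `z` with prescribed values on `K.card` places is `|σ| ^ (|ι| - K.card)`).
(3) Markov with `K = ∅`, `r = k + 1`. -/
def S_Clo : Prop := ∀ (ι σ : Type) [Fintype ι] [DecidableEq ι] [Fintype σ] [DecidableEq σ]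
  [Nonempty σ] (w : Finset (ι × σ) → ι × σ → ℝ) (t : ℝ) (k : ℕ), (∀ K c, 0 ≤ w K c) →
  (∀ K, ∑ c, w K c ≤ t) →
  frac (fun z : ι → σ => ¬ ∃ K : Finset (ι × σ), K ⊆ gr z ∧ K.card ≤ k ∧
    ∑ c ∈ gr z \ K, w K c ≤ 1) ≤ (t / Fintype.card σ) ^ (k + 1)

/-- HOEFFDING (counting form).  PROOF.  Let `p = frac E`, `X ω = 1` if `E ω` and `0` otherwise.  For
`|θ| ≤ 1`: `(1/|Ω|) ∑ ω, exp (θ (X ω - p)) ≤ 1 + θ ^ 2 ≤ exp (θ ^ 2)`, since `exp x ≤ 1 + x + x ^ 2`
for `|x| ≤ 1` and `X - p` has mean `0` and absolute value at most `1`.  Hence the average over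
`ω : Fin K → Ω` of `exp (θ ∑ i, (X (ω i) - p))` is at most `exp (K θ ^ 2)` (product formula
`Finset.prod_univ_sum` / `Fintype.piFinset`).  Markov with `θ = l / 2` for the upper deviation
`l K < ∑ i, (X (ω i) - p)` and `θ = - l / 2` for the lower one: each has fraction at most
`exp (K l^2 / 4 - l^2 K / 2) = exp (- l^2 K / 4)`. -/
def S_Hoe : Prop := ∀ (Ω : Type) [Fintype Ω] [Nonempty Ω] (E : Ω → Prop) (K : ℕ) (l : ℝ), 0 < K →
  0 ≤ l → l ≤ 1 →
  frac (fun ω : Fin K → Ω => l < |frac (fun i : Fin K => E (ω i)) - frac E|) ≤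
    2 * Real.exp (-(l ^ 2 * K / 4))

/-- NUMBERS.  PROOF.  `exp (-N^4) ≤ 2 ^ (-N^4)` (as `exp 1 ≥ 2`), and for `N ≥ 6` one has
`N^3 + 1 - N^4 ≤ - N^3 - N - 3`, so the term is at most `(1/2) ^ (a^3) * (1/2)^(N+3)` for `N ≥ a`, and
`∑ N ≥ 6, (1/2)^(N+3) ≤ 1/8` (geometric series). -/
def S_Num : Prop := ∀ a M : ℕ, 6 ≤ a →
  ∑ N ∈ Finset.Ico a M, (2 : ℝ) ^ (N ^ 3) * (2 * Real.exp (-(N : ℝ) ^ 4)) ≤ (1 / 2) ^ (a ^ 3) / 8

/-- TRIANGULAR INDEPENDENCE (uses `S_Hoe`, `S_Num`).  PROOF.  Union bound over `N ∈ [a, M)` and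
`c : 𝒞 N` (`frac_exists_le`).  For fixed `N, c` split the product space as
`(other coordinates) × (coordinate N)` (`Equiv.piSplitAt`, `frac_equiv`, `frac_prod_le`): for fixed
other coordinates the function `h ω N c` does not depend on the coordinate `N`, and `S_Hoe` with
`K = 16 N^6`, `l = 1 / (2 N)` gives `2 exp (-(1/(4 N^2)) * 16 N^6 / 4) = 2 exp (-N^4)`.  Then
`|𝒞 N| ≤ 2 ^ (N^3)` and `S_Num`. -/
def S_Tri : Prop := ∀ (M a : ℕ) (𝒞 : ℕ → Type) [∀ N, Fintype (𝒞 N)]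
  (h : ((N : Fin M) → Fin (16 * (N : ℕ) ^ 6) → Fin N → Bool) → (N : Fin M) → 𝒞 N →
    (Fin N → Bool) → Prop), 6 ≤ a → (∀ N ≥ 6, Fintype.card (𝒞 N) ≤ 2 ^ (N ^ 3)) →
  (∀ ω ω' (N : Fin M) c ρ, (∀ N' : Fin M, N' < N → ω N' = ω' N') → (h ω N c ρ ↔ h ω' N c ρ)) →
  frac (fun ω : (N : Fin M) → Fin (16 * (N : ℕ) ^ 6) → Fin N → Bool =>
    ∃ N : Fin M, a ≤ (N : ℕ) ∧ ∃ c, 1 / (2 * ((N : ℕ) : ℝ)) <
      |frac (fun i : Fin (16 * (N : ℕ) ^ 6) => h ω N c (ω N i)) - frac (h ω N c)|) ≤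
    (1 / 2) ^ (a ^ 3) / 8

/-- CIRCUITS ARE DECISION TREES.  PROOF.  Recursion on the number of remaining gates: a state is the
vector of the wire values; a NAND gate is evaluated at once, an oracle gate is one query to the
string `List.ofFn fun i => v (q.2 i)` of length at most `N`. -/
def S_CirT : Prop := Nonempty CT

/-- NUMBER OF CIRCUITS.  PROOF.  `|Gate N| = (2N+2)^2 + ∑ l ≤ N, (2N+2)^l ≤ 4 (2N+2)^N`, so
`|Circ N| ≤ 4^N (2N+2)^(N^2+1)`, and `2N+2 ≤ 2^(N-2)` for `N ≥ 6`: at most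
`2 ^ (2N + (N^2+1)(N-2)) ≤ 2 ^ (N^3)`. -/
def S_CirN : Prop := ∀ N ≥ 6, Fintype.card (Circ N) ≤ 2 ^ (N ^ 3)

/-- TRANSCRIPTS EXIST.  PROOF.  Induction on the tree: at a node either all messages have probability
less than `1/2` (answer `none`), or some `y : Fin p → Bool` has at least `1/2`; extend `y` to
`Fin b → Bool` (possible as `p ≤ b`; `cut` gives `y` back). -/
def S_Fol : Prop := ∀ (b d : ℕ) (A : List Bool → Bool) (t : MTree), t.Bounded b d →
  ∃ τ : Tr b, (∀ i ≥ d, τ i = none) ∧ Follows A t τ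

/-- WEIGHTS ARE BOUNDED.  PROOF.  Induction on the tree with `sum_qf_le`, `qf_nonneg`. -/
def S_WtB : Prop := ∀ (b d : ℕ) (A : List Bool → Bool) (t : MTree) (τ : Tr b), t.Bounded b d →
  (∀ u, 0 ≤ wt A t τ u) ∧ ∀ D : Finset (List Bool), ∑ u ∈ D, wt A t τ u ≤ (d : ℝ) * b

/-- THE OUTCOME IS LOCKED.  PROOF.  Induction on the tree.  At a node with `τ 0 = none`: all messages
have probability less than `1/2` on `F`; for the best message `y₀` on `A`, `abs_frac_sub_le` (with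
`prob_eq_frac`, weights on `A`) gives `prob_A y₀ ≤ prob_F y₀ + 1/12 < 2/3`, so no message has
probability at least `2/3` on `A`, and `Decides` must go to `no`.  At a node with `τ 0 = some y`:
`prob_A (cut y p) ≥ 1/2 - 1/12 > 1/3`, so `Decides` must go to `yes`.  The remaining weight bounds the
rest (all weights are nonnegative). -/
def S_Out : Prop := ∀ (b d : ℕ) (F A : List Bool → Bool) (t : MTree) (τ : Tr b)
  (D : Finset (List Bool)) (o : Bool), t.Bounded b d → Follows F t τ → (∀ u, u ∉ D → A u = F u) →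
  12 * ∑ u ∈ D, wt A t τ u ≤ 1 → t.Decides A o → o = out t τ

/-- THE STRINGS.  PROOF.  `samp` is injective and its length is `N + i + b + 3`; `cell` is injective
on the arguments with the right lengths of `v, y`, and its length is larger than `x.length`; a
sample starts with `true`, a cell with `false`. -/
def S_Bld : Prop :=
  (∀ R C N i b, build R C (samp N i b) = R N i b) ∧
  (∀ R C s k x v y, v.length = mm k x.length → y.length = mm k x.length →
    build R C (cell s k x v y) = C s k x v y) ∧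
  (∀ M R C R' C' u, Agree M R C R' C' → u.length ≤ M → build R C u = build R' C' u) ∧
  (∀ R C R' C' u, build R C u ≠ build R' C' u →
    (∃ N i b, samp N i b = u ∧ R N i b ≠ R' N i b) ∨
    ∃ s k x v y, v.length = mm k x.length ∧ y.length = mm k x.length ∧ cell s k x v y = u ∧
      C s k x v y ≠ C' s k x v y) ∧
  (∀ s k x v y s' k' x' v' y', v.length = mm k x.length → y.length = mm k x.length →
    v'.length = mm k' x'.length → y'.length = mm k' x'.length →
    cell s k x v y = cell s' k' x' v' y' → s = s' ∧ k = k' ∧ x = x' ∧ v = v' ∧ y = y')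

/-- PARAMETERS.  PROOF.  Everything is `2 ^ (n^k + k)` times a polynomial in `n`: there is `e` (depending
on `k, c`) with `n^k+k+1`, `2 * mm k n + n + 1`, `n^c+c+1` and so on at most `(n+2)^e`.  Take `n` large
with `(n+2)^(6e)·64 ≤ 2^n` and `(n+2)^(6e) ≤ s n` (superpolynomial: `(n+2)^(6e)·64 ≤ n^(12e+7)` for
`n ≥ 64`).  `N1`: the least number `≥ 6` whose cube is at least
`Q = (n^k+k+1) + (2 * mm k n + n + 1) * kk k c n`; then `N1^2 ≤ 4 * Q` (or `N1 = 6`). -/
def S_Par : Prop := ∀ s : ℕ → ℕ, (∀ c, ∃ n₀, ∀ n ≥ n₀, n ^ c ≤ s n) → ∀ k c M : ℕ,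
  ∃ n N1 : ℕ, M ≤ n ∧ 6 ≤ N1 ∧ n ^ k + k + 1 ≤ 2 ^ n ∧
    (n ^ k + k + 1) + (2 * mm k n + n + 1) * kk k c n ≤ N1 ^ 3 ∧
    4 * N1 ^ 2 ≤ 2 ^ (mm k n - 1) ∧
    12 * ((n ^ c + c) * (n ^ c + c) * ((n ^ k + k + 1) * 2 ^ (n ^ k + k + 1))) ≤
      2 ^ (mm k n - 1) ∧
    kk k c n ≤ 2 ^ (n ^ k + k) * s n ∧ 3 * kk k c n ≤ 2 ^ mm k n

/-- ADVICE STRINGS.  PROOF.  `card ≤ ∑ l ≤ a, 2^l < 2^(a+1)`. -/
def S_Adv : Prop := ∀ a, (∀ l : List Bool, l ∈ advs a ↔ l.length ≤ a) ∧ (advs a).card < 2 ^ (a + 1)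

/-- SMALL SETS.  PROOF.  A set with at most `k` elements is the range of a function
`Fin k → Option α` (or induction). -/
def S_Sma : Prop := ∀ (α : Type) [Fintype α] [DecidableEq α] (k : ℕ),
  ((Finset.univ : Finset (Finset α)).filter fun K => K.card ≤ k).card ≤ (Fintype.card α + 1) ^ k

/-- HISTORY (uses nothing).  By definition of `newR`, `newC`. -/
def S_OrcA : Prop := ∀ (X : Ctx) (ω : X.Sam) (B : Bool → X.Blk → X.Val → X.Val → Bool),
  Agree X.M X.R X.C (X.newR ω) (X.newC B)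

/-- DIFFERENCE OF TWO CONTENTS (uses `S_Bld`).  PROOF.  `str` is injective by `S_Bld` (last part,
`X.inj`, `List.ofFn_injective`).  If the two oracles differ at `u`, then by `S_Bld` (fourth part) `u`
is a sample with different values (impossible, the same `ω`) or a cell `(s, k', x, v, y)` with
different contents; by the definition of `newC` then `k' = k`, `x = xs j`, and by the definition of
`pat` `s = !f j` and `((j, v), y) ∈ S' \ S`, so `u = str f ((j, v), y)`. -/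
def S_OrcD : Prop := ∀ (X : Ctx) (ω : X.Sam) (f : X.Blk → Bool) (fix : X.Row → X.Val)
  (S S' : Finset (X.Row × X.Val)), S ⊆ S' → Function.Injective (X.str f) ∧
  ∀ u, u ∉ (S' \ S).image (X.str f) → X.orc ω (X.pat f fix S') u = X.orc ω (X.pat f fix S) u

/-- LOCALITY (uses `S_Bld`).  PROOF.  First part: if the values at `u` differ, `u` is a sample
`samp N' i b` with `N' < u.length ≤ N` and different values, but `ω N' = ω' N'`.  Second part:
`build` at a sample, definition of `newR`. -/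
def S_OrcL : Prop := ∀ (X : Ctx) (B : Bool → X.Blk → X.Val → X.Val → Bool),
  (∀ (ω ω' : X.Sam) (N : ℕ), (∀ N' : Fin X.M', (N' : ℕ) < N → ω N' = ω' N') → ∀ u : List Bool,
    u.length ≤ N → X.orc ω B u = X.orc ω' B u) ∧
  ∀ (ω : X.Sam) (N : Fin X.M'), X.M ≤ (N : ℕ) → ∀ i : Fin (16 * (N : ℕ) ^ 6),
    gen (X.orc ω B) N i = ω N i

/-- THE INSTANCES (uses `S_Bld`).  PROOF.  `Acc (orc ω B) s k' x v y` is
`newC B s k' x (ofFn v) (ofFn y) = true` by `S_Bld`.  If `x.length < M` this is the history.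
If `k' = k` and `x = xs j`: on the side `f j` the graph of `fix` (exactly one reply), on the other side
only rows of cells of `S`, at most `S.card ≤ k0` many.  Otherwise the default content: the side `true`
has exactly the reply `0`, the side `false` nothing. -/
def S_OrcI : Prop := ∀ (s : ℕ → ℕ) (X : Ctx) (ω : X.Sam) (f : X.Blk → Bool) (fix : X.Row → X.Val)
  (S : Finset (X.Row × X.Val)) (k0 : ℕ), S.card ≤ k0 → k0 ≤ 2 ^ (X.n ^ X.k + X.k) * s X.n →
  3 * k0 ≤ 2 ^ X.m → (∀ k x, x.length < X.M → ∃ b, Inst s (build X.R X.C) k x b) →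
  (∀ k x, ∃ b, Inst s (X.orc ω (X.pat f fix S)) k x b) ∧
  ∀ j, Inst s (X.orc ω (X.pat f fix S)) X.k (X.xs j) (f j)

/-- RANDOM SAMPLES ARE GOOD (uses `S_Tri`, `S_CirT`, `S_CirN`, `S_OrcL`).  PROOF.  `S_Tri` with
`𝒞 N = Circ N`, `h ω N C ρ = (evalC (orc ω B) C ρ = true)`: by `S_CirT` (trees with queries of length at
most `N`, `path_allQ`, `eval_congr`) and `S_OrcL` it depends only on the coordinates less than `N`;
`gen (orc ω B) N i = ω N i` for `N ≥ M`. -/
def S_Loc : Prop := ∀ (X : Ctx) (B : Bool → X.Blk → X.Val → X.Val → Bool) (a : ℕ), 6 ≤ a →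
  X.M ≤ a → frac (fun ω : X.Sam => ∃ N, a ≤ N ∧ N < X.M' ∧
    Ctx.Bad (X.orc ω B) N (1 / (2 * N))) ≤ (1 / 2) ^ (a ^ 3) / 8

/-- FIRST SELECTION (uses `S_Loc`, `S_Sma`).  PROOF.  `¬ Good1` is contained in the union of the event
of `S_Loc` for `B = full F`, `a = M` (fraction at most `1/8`), and of the events for
`B = pat f (fixp f F) K` and `a = max M N1`, over all `f` (`2 ^ |Blk|`) and all `K` with at most `k0`
elements (at most `(|Row × Val| + 1) ^ k0 ≤ (2 ^ (2m+n+1)) ^ k0`, as `|Blk| ≤ 2^n`); `Bad A N (1/N)`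
implies `Bad A N (1/(2N))` (monotone in `l`, `1/(2N) ≤ 1/N`). Sum:
`2^|Blk| * 2^((2m+n+1) k0) * (1/2)^(N1^3) / 8 ≤ 1/8`. -/
def S_One : Prop := ∀ (X : Ctx) (N1 k0 : ℕ) (F : Bool → X.Row → X.Val), 6 ≤ N1 →
  X.n ^ X.k + X.k + 1 ≤ 2 ^ X.n →
  (X.n ^ X.k + X.k + 1) + (2 * mm X.k X.n + X.n + 1) * k0 ≤ N1 ^ 3 →
  frac (fun ω : X.Sam => ¬ X.Good1 N1 k0 ω F) ≤ 1 / 4

/-- WEIGHTS OF THE TESTS (uses `S_WtB`, `S_OrcD` only for the injectivity of `str`).  PROOF.  In the
first case of `wK`: `2 N (N + N) = 4 N^2 ≤ 4 N1^2` by `sum_qf_le` (with the trees `ct.T N C`, depth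
`N`); in the second case `12 * |Adv| * |Blk| * b * b`.  The sum over cells is the sum over the image
under the injective map `str f`. -/
def S_WkB : Prop := ∀ (X : Ctx) (ct : CT) (W : Machine) (N1 b : ℕ) (Adv : Finset (List Bool))
  (τ : List Bool → X.Blk → Tr b) (A : List Bool → Bool) (f : X.Blk → Bool) (t : ℝ),
  (∀ a j, (W.tree a (X.xs j)).Bounded b b) → 4 * (N1 : ℝ) ^ 2 ≤ t →
  12 * ((b : ℝ) * b * (Fintype.card X.Blk * Adv.card)) ≤ t →
  (∀ u, 0 ≤ X.wK ct W N1 b Adv τ A u) ∧ ∑ c, X.wK ct W N1 b Adv τ A (X.str f c) ≤ t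

/-- SECOND SELECTION (uses `S_Clo`, `S_WkB`).  PROOF.  Union bound over `f` (`2^|Blk|`) and `τ`
(`((2^b+1)^b)^(|Adv| |Blk|) ≤ 2^((b+1) b |Adv| |Blk|)`).  For fixed `f, τ` the bijection
`F ↦ (fixp f F, varp f F)` onto pairs (`frac_equiv`), `frac_prod_le`, and `S_Clo` for fixed
`fix = fixp f F` with `w K c = wK … (orc ω (pat f fix K)) (str f c)`, `t = 2^(m-1)`, `σ = Val`,
`|Val| = 2^m`: fraction at most `(1/2)^(k0+1)`. -/
def S_Two : Prop := ∀ (X : Ctx) (ct : CT) (W : Machine) (N1 b k0 : ℕ) (Adv : Finset (List Bool))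
  (ω : X.Sam), (∀ a j, (W.tree a (X.xs j)).Bounded b b) → 1 ≤ X.m →
  4 * N1 ^ 2 ≤ 2 ^ (X.m - 1) →
  12 * (b * b * (Fintype.card X.Blk * Adv.card)) ≤ 2 ^ (X.m - 1) →
  Fintype.card X.Blk + (b + 1) * b * (Adv.card * Fintype.card X.Blk) + 2 ≤ k0 + 1 →
  frac (fun F : Bool → X.Row → X.Val => ¬ X.Good2 ct W N1 b k0 Adv ω F) ≤ 1 / 4

/-- THE TEST WORKS (uses `S_OrcD`, `S_Out`).  PROOF.  Let `A = orc ω (pat f fix K)`,
`AF = orc ω (full F) = orc ω (pat f fix (gr (varp f F)))`, `D = (gr (varp f F) \ K).image (str f)`: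
`A = AF` off `D`, and `∑ u ∈ D, wK … A u ≤ 1`.  First case of `wK`: a circuit `C` of size `N < N1`
has advantage larger than `1/N` on `A`; the samples `gen A N i = gen AF N i` are the same (they are
not cells), `abs_frac_sub_le` for the trees `ct.T N C` on the samples and on all `ρ` gives that the
advantage on `AF` is larger than `1/N - ∑ (both qf) ≥ 1/N - 1/(2N)`: contradiction to `Good1`.
So the second case holds, there is no bad circuit for sizes less than `N1`, and none for sizes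
at least `N1` by `Good1`.  For the outcome: `S_Out` with `F = AF` (each summand of the double sum is
nonnegative, `S_WtB`). -/
def S_Tes : Prop := ∀ (X : Ctx) (ct : CT) (W : Machine) (N1 b k0 : ℕ) (Adv : Finset (List Bool))
  (ω : X.Sam) (F : Bool → X.Row → X.Val) (f : X.Blk → Bool) (τ : List Bool → X.Blk → Tr b)
  (K : Finset (X.Row × X.Val)), (∀ a j, (W.tree a (X.xs j)).Bounded b b) →
  X.Good1 N1 k0 ω F → K ⊆ gr (X.varp f F) → K.card ≤ k0 →
  ∑ c ∈ gr (X.varp f F) \ K,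
    X.wK ct W N1 b Adv τ (X.orc ω (X.pat f (X.fixp f F) K)) (X.str f c) ≤ 1 →
  (∀ a ∈ Adv, ∀ j, Follows (X.orc ω (X.full F)) (W.tree a (X.xs j)) (τ a j)) →
  (∀ N, X.M ≤ N → N < X.M' → ¬ Ctx.Bad (X.orc ω (X.pat f (X.fixp f F) K)) N (1 / N)) ∧
  ∀ a ∈ Adv, ∀ j o, (W.tree a (X.xs j)).Decides (X.orc ω (X.pat f (X.fixp f F) K)) o →
    o = out (W.tree a (X.xs j)) (τ a j)

/-- LOCALITY OF THE THREE PROPERTIES (uses `S_Bld`, `S_CirT`).  PROOF.  The two oracles agree on all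
strings of length at most `M` (`S_Bld`) and on all samples of sizes less than `M`; circuits of size
`N < M` query strings of length at most `N` only; the cells with `x.length < M` agree. -/
def S_LoP : Prop := ∀ (M : ℕ) R C R' C', Agree M R C R' C' →
  (∀ N < M, FoolsAt (build R C) N → FoolsAt (build R' C') N) ∧
  (∀ s k x b, x.length < M → Inst s (build R C) k x b → Inst s (build R' C') k x b) ∧
  (∀ (t : MTree) (b d : ℕ) (o : Bool), b ≤ M → t.Bounded b d → t.Decides (build R' C') o →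
    t.Decides (build R C) o)

/-- ONE STAGE (uses `S_CirT`, `S_Par`, `S_Adv`, `S_Fol`, `S_OrcA`, `S_OrcI`, `S_One`, `S_Two`, `S_Tes`,
`S_LoP`).  PROOF.  See note 3608.  `c = W.c`, `n, N1` from `S_Par` with the given `M`; choose
`n^k+k+1 ≤ 2^n` different strings `xs j` of length `n`; `M' = n + n^c + c + 2`;
`b = n^c+c`, `k0 = kk k c n`, `Adv = advs (n^k+k)`.  Pick `(ω, F)` with `Good1` and `Good2`
(`frac_prod_le` in both orders, `frac_or_le`, `exists_not_of_frac_lt_one`: `1/4 + 1/4 < 1`).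
Transcripts `τ a j` from `S_Fol` on `orc ω (full F)` (they come from a finite family by `ext`).
There are fewer than `2^(n^k+k+1)` vectors `j ↦ out (W.tree a (xs j)) (τ a j)`, so some `f` is none of
them.  `K` from `Good2`, `S_Tes`.  New history: `newR ω`, `newC (pat f (fixp f F) K)`. -/
def S_Sta : Prop := ∀ s : ℕ → ℕ, (∀ c, ∃ n₀, ∀ n ≥ n₀, n ^ c ≤ s n) → ∀ R C (M : ℕ), 6 ≤ M →
  (∀ N, 6 ≤ N → N < M → FoolsAt (build R C) N) →
  (∀ k x, x.length < M → ∃ b, Inst s (build R C) k x b) → ∀ (k : ℕ) (W : Machine),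
  ∃ (M' : ℕ) (R' : ℕ → ℕ → ℕ → Bool) (C' : Bool → ℕ → List Bool → List Bool → List Bool → Bool),
    M < M' ∧ Agree M R C R' C' ∧ (∀ N, 6 ≤ N → N < M' → FoolsAt (build R' C') N) ∧
    (∀ k x, x.length < M' → ∃ b, Inst s (build R' C') k x b) ∧
    ∀ R'' C'', Agree M' R' C' R'' C'' → Refuted s W k (build R'' C'')

/-- THE LIMIT (uses `S_Sta`, `S_LoP`).  PROOF.  Enumerate the pairs `(i, k)` (`Nat.unpair`), start with
`M = 6`, `R = false`, `C` = default content (`s = true` and `y` all false) and iterate; the bounds are strictly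
increasing, the limit `R N = R_(N+1) N`, `C s k x = C_(|x|+1) s k x` agrees with every stage up to its
bound. -/
def S_Lim : Prop := ∀ s : ℕ → ℕ, (∀ c, ∃ n₀, ∀ n ≥ n₀, n ^ c ≤ s n) → ∀ W : ℕ → Machine,
  ∃ A : List Bool → Bool, (∀ N ≥ 6, FoolsAt A N) ∧ (∀ k x, ∃ b, Inst s A k x b) ∧
    ∀ i k, Refuted s (W i) k A

end Pool.Agent.Lib.MP_ff3ed7_lc.Prg
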